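import Pool.Agent.U207.QC.One

/-!
Project QC (helper207): general equivalences for one or two types of exceptional sets.
-/

set_option autoImplicit false

namespace Pool.Agent.U207.QC

open MvPolynomial Metric FF
open Pool.Agent.W602.GT (SubVar GeneralType)
open Pool.Agent.N254.SQ (IsForm Eqs Component NotIn LogGeneral OnSpecialQ OnCurvesQ OnSpecial
  OnCurves Gen Mon Lifts pull Idl t_num t_versurj qi_same qi_no)

/-! ### the construction -/

theorem cons (n d : ℕ) (hn : 1 ≤ n) (hd : 3 ≤ d) :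
    ∃ (N : ℕ) (m : Fin (N + 1) → Fin (n + 1) → ℕ), Mon n N d m ∧ 2 * n < N ∧
      ∀ c, (2 * (N + 1) ^ 3 + 6 * N + 5) ^ 2 ≤ c →
        ∀ S : Set (MvPolynomial (Fin (n + 1)) ℂ), (∀ p ∈ S, ∃ e ≤ d, p.IsHomogeneous e) →
          ∃ P ℓ : Fin c → MvPolynomial (Fin (N + 1)) ℂ, SmoothCover P ∧
            GoodC n N d c m S P ℓ := by
  obtain ⟨N, m, hm, hN⟩ := t_num n d hn hd
  exact ⟨N, m, hm, hN, fun c hc S hS1 => exists_cover hn hd hm hN S hS1 c hc⟩

theorem lifts_one {n N d : ℕ} (m : Fin (N + 1) → Fin (n + 1) → ℕ) :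
    Lifts m d ({1} : Set (MvPolynomial (Fin (n + 1)) ℂ))
      ({1} : Set (MvPolynomial (Fin (N + 1)) ℂ)) := by
  refine ⟨?_, ?_⟩
  · intro G hG
    rw [Set.mem_singleton_iff] at hG
    subst hG
    exact ⟨1, rfl, 0, isHomogeneous_one _ _, isHomogeneous_one _ _, by
      rw [one_pow]; exact map_one _⟩
  · intro G hG
    rw [Set.mem_singleton_iff] at hG
    subst hG
    exact ⟨1, rfl, 0, isHomogeneous_one _ _, isHomogeneous_one _ _, by
      rw [one_pow]; exact map_one _⟩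

theorem ren_one (N c : ℕ) : (rename (hI N c) '' ({1} : Set (MvPolynomial (Fin (N + 1)) ℂ)) :
    Set (MvPolynomial (Fin (N + c + 1)) ℂ)) = {1} := by
  rw [Set.image_singleton, map_one]

theorem form_one (n : ℕ) : ∀ H ∈ ({1} : Set (MvPolynomial (Fin (n + 1)) ℂ)), IsForm H := by
  intro H hH
  rw [Set.mem_singleton_iff] at hH
  rw [hH]
  exact ⟨0, isHomogeneous_one _ _⟩

theorem covEqs_form {N c : ℕ} {P : Fin c → MvPolynomial (Fin (N + 1)) ℂ}
    (hP : ∀ i, (P i).IsHomogeneous 2) : ∀ p ∈ coverEqs P, IsForm p := by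
  rintro _ ⟨i, rfl⟩
  exact ⟨2, cover_hom hP i⟩

/-- the transfer for projective varieties -/
theorem tr_one {J : ∀ n : ℕ, Set (MvPolynomial (Fin (n + 1)) ℂ) →
      Set (MvPolynomial (Fin (n + 1)) ℂ) → MvPolynomial (Fin (n + 1)) ℂ → Prop} (hT : CovT J)
    {n N d c : ℕ} {m : Fin (N + 1) → Fin (n + 1) → ℕ} {S : Set (MvPolynomial (Fin (n + 1)) ℂ)}
    {P ℓ : Fin c → MvPolynomial (Fin (N + 1)) ℂ} (hg : GoodC n N d c m S P ℓ)
    {G : MvPolynomial (Fin (N + c + 1)) ℂ} (hG : IsForm G) :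
    J (N + c) (coverEqs P) {1} G ↔ ∀ ℓ', Signs ℓ ℓ' → J n S {1} (onSheet m ℓ' G) := by
  have h1 := hT n N d c m S P ℓ hg {1} {1} (lifts_one m) G hG
  rw [ren_one] at h1
  exact h1

/-! ### one type of exceptional sets, projective varieties -/

section one

variable {J : ∀ n : ℕ, Set (MvPolynomial (Fin (n + 1)) ℂ) →
      Set (MvPolynomial (Fin (n + 1)) ℂ) → MvPolynomial (Fin (n + 1)) ℂ → Prop}

/-- general type implies a small exceptional set, for all projective varieties -/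
theorem one_half (hJ : Exc0 J) (hT : CovT J) {E : ℕ → Set ℕ} (hE : ∀ N, (E N).Infinite) :
    (∀ (n : ℕ) (L : Type) [Field L] [Algebra ℂ L] (w : ℕ) (y : Fin (n + 1) → L), 1 ≤ w →
      SubVar (fun p : (∅ : Set (MvPolynomial (Fin (n + 1)) ℂ)) =>
        (p : MvPolynomial (Fin (n + 1)) ℂ)) L w y → GeneralType ℂ L w →
          ∃ G : MvPolynomial (Fin (n + 1)) ℂ, IsForm G ∧ aeval y G ≠ 0 ∧ J n (Eqs y) {1} G) ↔
    ∀ (N c : ℕ) (P : Fin c → MvPolynomial (Fin (N + 1)) ℂ), c ∈ E N →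
      (∀ i, (P i).IsHomogeneous 2) → SmoothCover P →
      ∀ (L : Type) [Field L] [Algebra ℂ L] (w : ℕ) (y : Fin (N + c + 1) → L), 1 ≤ w →
        SubVar (coverForm P) L w y → GeneralType ℂ L w →
          ¬ Component (J (N + c) (coverEqs P) {1}) y := by
  constructor
  · intro h3 N c P _ hP _ L _ _ w y hw hy hgt hcomp
    refine forw_imp hJ (N + c) {1} ?_ (coverEqs P) L w y hw (gen_of_sub hy) (notin_one y)
      ((log_one hy.ne w).2 hgt) hcomp
    intro L _ _ w y hw hy _ hlg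
    exact h3 (N + c) L w y hw (sub_of_gen hy) ((log_one hy.ne w).1 hlg)
  · intro h n L _ _ w y hw hy hgt
    refine imp_cov hJ hT clsC_one.cls hE ?_ n {1} rfl L w y hw (gen_of_sub hy) (notin_one y)
      ((log_one hy.ne w).2 hgt)
    intro N c P hc hP hsm T hT L _ _ w y hw hy hn hlg hcomp
    rw [Set.mem_singleton_iff] at hT
    subst hT
    rw [ren_one] at hlg hcomp
    exact h N c P hc hP hsm L w y hw (sub_fun hy) ((log_one hy.ne w).1 hlg) hcomp

/-- general type if and only if the exceptional set is small, for all projective varieties -/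
theorem one_iff (hJ : Exc0 J) (hT : CovT J) {E : ℕ → Set ℕ} (hE : ∀ N, (E N).Infinite) :
    (∀ (n : ℕ) (L : Type) [Field L] [Algebra ℂ L] (w : ℕ) (y : Fin (n + 1) → L), 1 ≤ w →
      SubVar (fun p : (∅ : Set (MvPolynomial (Fin (n + 1)) ℂ)) =>
        (p : MvPolynomial (Fin (n + 1)) ℂ)) L w y → (GeneralType ℂ L w ↔
          ∃ G : MvPolynomial (Fin (n + 1)) ℂ, IsForm G ∧ aeval y G ≠ 0 ∧ J n (Eqs y) {1} G)) ↔
    ∀ (N c : ℕ) (P : Fin c → MvPolynomial (Fin (N + 1)) ℂ), c ∈ E N →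
      (∀ i, (P i).IsHomogeneous 2) → SmoothCover P →
      (∀ G, IsForm G → (J (N + c) (coverEqs P) {1} G ↔ OnSpecial (coverEqs P) G)) ∧
      ∀ (L : Type) [Field L] [Algebra ℂ L] (w : ℕ) (y : Fin (N + c + 1) → L), 1 ≤ w →
        SubVar (coverForm P) L w y → GeneralType ℂ L w →
          ¬ Component (J (N + c) (coverEqs P) {1}) y := by
  have hS := exc0_of (Pool.Agent.N254.SQ.t_qspec Pool.Agent.N254.SQ.t_cent)
  constructor
  · intro h3 N c P hc hP hsm
    refine ⟨fun G hG => ?_, (one_half hJ hT hE).1 (fun n L _ _ w y hw hy =>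
      (h3 n L w y hw hy).1) N c P hc hP hsm⟩
    have key : ∀ (L : Type) [Field L] [Algebra ℂ L] (w : ℕ) (y : Fin (N + c + 1) → L), 1 ≤ w →
        Gen L w y → NotIn {1} y →
        (LogGeneral {1} L w y ↔ ∃ G, IsForm G ∧ aeval y G ≠ 0 ∧ J (N + c) (Eqs y) {1} G) := by
      intro L _ _ w y hw hy _
      rw [log_one hy.ne, h3 (N + c) L w y hw (sub_of_gen hy)]
    have h1 := forw_eq hS hJ (N + c) _ (form_one (N + c)) key (coverEqs P) (covEqs_form hP) G hG
    rwa [special_one] at h1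
  · intro h n L _ _ w y hw hy
    refine ⟨(one_half hJ hT hE).2 (fun N c P hc hP hsm => (h N c P hc hP hsm).2) n L w y hw hy, ?_⟩
    rintro ⟨G, hG, hGy, hGc⟩
    rw [← log_one hy.ne w]
    refine eq_cov hJ hT clsC_one.cls hE (fun N c P hc hP hsm T hT G hG hcc => ?_)
      n {1} rfl L w y hw (gen_of_sub hy) (notin_one y) ⟨G, hG, hGy, hGc⟩
    rw [Set.mem_singleton_iff] at hT
    subst hT
    rw [ren_one] at hcc ⊢
    rw [special_one]
    exact ((h N c P hc hP hsm).1 G hG).1 hcc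

/-- log general type implies a small exceptional set, for all quasi-projective varieties of a class -/
theorem quasi_half (hJ : Exc0 J) (hT : CovT J)
    {C : ∀ n : ℕ, Set (Set (MvPolynomial (Fin (n + 1)) ℂ))} (hC : ClsC C)
    {E : ℕ → Set ℕ} (hE : ∀ N, (E N).Infinite) :
    (∀ n : ℕ, ∀ T ∈ C n, ∀ (L : Type) [Field L] [Algebra ℂ L] (w : ℕ) (y : Fin (n + 1) → L),
      1 ≤ w → SubVar (fun p : (∅ : Set (MvPolynomial (Fin (n + 1)) ℂ)) =>
        (p : MvPolynomial (Fin (n + 1)) ℂ)) L w y → NotIn T y → LogGeneral T L w y →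
          ∃ G : MvPolynomial (Fin (n + 1)) ℂ, IsForm G ∧ aeval y G ≠ 0 ∧ J n (Eqs y) T G) ↔
    ∀ (N c : ℕ) (P : Fin c → MvPolynomial (Fin (N + 1)) ℂ), c ∈ E N →
      (∀ i, (P i).IsHomogeneous 2) → SmoothCover P → ∀ T ∈ C N,
      ∀ (L : Type) [Field L] [Algebra ℂ L] (w : ℕ) (y : Fin (N + c + 1) → L), 1 ≤ w →
        SubVar (coverForm P) L w y → NotIn (rename (hI N c) '' T) y →
          LogGeneral (rename (hI N c) '' T) L w y →
          ¬ Component (J (N + c) (coverEqs P) (rename (hI N c) '' T)) y := by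
  constructor
  · intro h3 N c P _ hP _ T hT L _ _ w y hw hy hn hgt hcomp
    refine forw_imp hJ (N + c) _ ?_ (coverEqs P) L w y hw (gen_of_sub hy) hn hgt hcomp
    intro L _ _ w y hw hy hn hlg
    exact h3 (N + c) _ (hC.ren N c T hT) L w y hw (sub_of_gen hy) hn hlg
  · intro h n T hTC L _ _ w y hw hy hn hgt
    refine imp_cov hJ hT hC.cls hE ?_ n T hTC L w y hw (gen_of_sub hy) hn hgt
    intro N c P hc hP hsm T hT L _ _ w y hw hy hn hlg hcomp
    exact h N c P hc hP hsm T hT L w y hw (sub_fun hy) hn hlg hcomp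

end one

/-! ### two types of exceptional sets -/

/-- a type of exceptional sets of projective varieties -/
structure Cl1 (J : ∀ n : ℕ, Set (MvPolynomial (Fin (n + 1)) ℂ) →
    MvPolynomial (Fin (n + 1)) ℂ → Prop) : Prop where
  pow : ∀ (n : ℕ) (S : Set (MvPolynomial (Fin (n + 1)) ℂ)) (G : MvPolynomial (Fin (n + 1)) ℂ)
    (k : ℕ), IsForm G → 1 ≤ k → (J n S (G ^ k) ↔ J n S G)
  congr : ∀ (n : ℕ) (S S' : Set (MvPolynomial (Fin (n + 1)) ℂ)),
    (∀ (L : Type) [Field L] [Algebra ℂ L] (x : Fin (n + 1) → L),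
      (∀ p ∈ S, aeval x p = 0) ↔ ∀ p ∈ S', aeval x p = 0) → ∀ G, J n S G → J n S' G
  zero : ∀ (S : Set (MvPolynomial (Fin (0 + 1)) ℂ)) (G : MvPolynomial (Fin (0 + 1)) ℂ),
    (∀ p ∈ S, IsForm p) → IsForm G → J 0 S G
  tr : ∀ (n N d c : ℕ) (m : Fin (N + 1) → Fin (n + 1) → ℕ)
    (S : Set (MvPolynomial (Fin (n + 1)) ℂ)) (P ℓ : Fin c → MvPolynomial (Fin (N + 1)) ℂ),
    GoodC n N d c m S P ℓ → ∀ G, IsForm G →
      (J (N + c) (coverEqs P) G ↔ ∀ ℓ', Signs ℓ ℓ' → J n S (onSheet m ℓ' G))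

theorem cl1_of {J : ∀ n : ℕ, Set (MvPolynomial (Fin (n + 1)) ℂ) →
      Set (MvPolynomial (Fin (n + 1)) ℂ) → MvPolynomial (Fin (n + 1)) ℂ → Prop} (hJ : Exc0 J)
    (hT : CovT J) : Cl1 (fun n S G => J n S {1} G) where
  pow := fun n S G k hG hk =>
    Pool.Agent.Results.MP_2a5ae2_ag.SmoothHypersurfacesSuffice.idl_pow (hJ.idl n S {1}) hG k hk
  congr := fun n S S' h G hG => hJ.mono n S S' {1} (fun L _ _ x hx => (h L x).2 hx) G hG
  zero := by
    intro S G hS hG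
    refine hJ.coord 0 S {1} G hG fun j => ?_
    obtain ⟨e, he⟩ := hG
    by_contra hcon
    obtain ⟨L, iF, iA, w, y, hw, hgen, -, -, -, -⟩ :=
      qf_comp0 hJ hS (form_one 0) (he.mul (isHomogeneous_X _ j)) (by omega) hcon
    exact qi_no hw hgen
  tr := fun _ _ _ _ _ _ _ _ hg _ hG => tr_one hT hg hG

section two

variable {I J : ∀ n : ℕ, Set (MvPolynomial (Fin (n + 1)) ℂ) →
    MvPolynomial (Fin (n + 1)) ℂ → Prop}

theorem exists_root {n N d : ℕ} {m : Fin (N + 1) → Fin (n + 1) → ℕ} (hm : Mon n N d m)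
    {G : MvPolynomial (Fin (n + 1)) ℂ} (hG : IsForm G) :
    ∃ G₀ : MvPolynomial (Fin (N + 1)) ℂ, IsForm G₀ ∧ pull m G₀ = G ^ d := by
  obtain ⟨e, he⟩ := hG
  obtain ⟨G₀, hG₀, h⟩ := t_versurj n N d m hm e (G ^ d) (by
    have := he.pow d
    rwa [mul_comm] at this)
  exact ⟨G₀, ⟨e, hG₀⟩, h⟩

/-- the exceptional set of the variety in terms of that of the cover -/
theorem Cl1.base (hI : Cl1 I) {n N d c : ℕ} {m : Fin (N + 1) → Fin (n + 1) → ℕ}
    {S : Set (MvPolynomial (Fin (n + 1)) ℂ)} {P ℓ : Fin c → MvPolynomial (Fin (N + 1)) ℂ}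
    (hg : GoodC n N d c m S P ℓ) {G : MvPolynomial (Fin (n + 1)) ℂ} (hG : IsForm G)
    {G₀ : MvPolynomial (Fin (N + 1)) ℂ} (hG₀ : IsForm G₀) (h : pull m G₀ = G ^ d) :
    I (N + c) (coverEqs P) (rename (QC.hI N c) G₀) ↔ I n S G := by
  have h1 : IsForm (rename (QC.hI N c) G₀) := by
    obtain ⟨e, he⟩ := hG₀
    exact ⟨e, he.rename_isHomogeneous⟩
  have h2 : ∀ ℓ' : Fin c → MvPolynomial (Fin (N + 1)) ℂ,
      onSheet m ℓ' (rename (QC.hI N c) G₀) = G ^ d := by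
    intro ℓ'
    have h3 : onSheet m ℓ' (rename (QC.hI N c) G₀) = pull m (sbl ℓ' (rename (QC.hI N c) G₀)) := rfl
    rw [h3, sbl_rename, h]
  rw [hI.tr n N d c m S P ℓ hg _ h1]
  simp only [h2]
  rw [hI.pow n S G d hG hg.hd1]
  exact ⟨fun h => h ℓ (Signs.refl ℓ), fun h _ _ => h⟩

theorem onSheet_one {n N c : ℕ} (m : Fin (N + 1) → Fin (n + 1) → ℕ)
    (ℓ : Fin c → MvPolynomial (Fin (N + 1)) ℂ) : onSheet m ℓ 1 = 1 := by
  unfold onSheet sbl
  rw [map_one, map_one]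

theorem Cl1.one (hI : Cl1 I) {n N d c : ℕ} {m : Fin (N + 1) → Fin (n + 1) → ℕ}
    {S : Set (MvPolynomial (Fin (n + 1)) ℂ)} {P ℓ : Fin c → MvPolynomial (Fin (N + 1)) ℂ}
    (hg : GoodC n N d c m S P ℓ) : I (N + c) (coverEqs P) 1 ↔ I n S 1 := by
  rw [hI.tr n N d c m S P ℓ hg 1 ⟨0, isHomogeneous_one _ _⟩]
  simp only [onSheet_one]
  exact ⟨fun h => h ℓ (Signs.refl ℓ), fun h _ _ => h⟩

/-- a property of all projective varieties which is transferred from the covers -/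
theorem all_of {E : ℕ → Set ℕ} (hE : ∀ N, (E N).Infinite)
    {W : ∀ n : ℕ, Set (MvPolynomial (Fin (n + 1)) ℂ) → Prop}
    (h0 : ∀ S : Set (MvPolynomial (Fin (0 + 1)) ℂ), (∀ p ∈ S, IsForm p) → W 0 S)
    (hc : ∀ (n : ℕ) (S S' : Set (MvPolynomial (Fin (n + 1)) ℂ)),
      (∀ (L : Type) [Field L] [Algebra ℂ L] (x : Fin (n + 1) → L),
        (∀ p ∈ S, aeval x p = 0) ↔ ∀ p ∈ S', aeval x p = 0) → W n S → W n S')
    (hW : ∀ (n N d c : ℕ) (m : Fin (N + 1) → Fin (n + 1) → ℕ)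
      (S : Set (MvPolynomial (Fin (n + 1)) ℂ)) (P ℓ : Fin c → MvPolynomial (Fin (N + 1)) ℂ),
      GoodC n N d c m S P ℓ → W (N + c) (coverEqs P) → W n S)
    (h : ForC E fun N c P => W (N + c) (coverEqs P)) (n : ℕ)
    (S : Set (MvPolynomial (Fin (n + 1)) ℂ)) (hS : ∀ p ∈ S, IsForm p) : W n S := by
  rcases Nat.eq_zero_or_pos n with hn | hn
  · subst hn
    exact h0 S hS
  · obtain ⟨S₀, d, hSame, hd3, hd⟩ := qi_same S hS
    obtain ⟨N, m, hm, hN⟩ := t_num n d hn hd3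
    obtain ⟨c, hcE, hcc⟩ := (hE N).exists_gt (cN N)
    obtain ⟨P, ℓ, hsm, hg⟩ := exists_cover hn hd3 hm hN S₀ hd c hcc.le
    exact hc n S₀ S hSame (hW n N d c m S₀ P ℓ hg (h N c P hcE hg.homP hsm))

/-- two exceptional sets agree for all projective varieties if and only if they agree for the
covers -/
theorem two_iff (hI : Cl1 I) (hJ : Cl1 J) {E : ℕ → Set ℕ} (hE : ∀ N, (E N).Infinite) :
    (∀ (n : ℕ) (S : Set (MvPolynomial (Fin (n + 1)) ℂ)), (∀ p ∈ S, IsForm p) →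
      ∀ G, IsForm G → (I n S G ↔ J n S G)) ↔
    ∀ (N c : ℕ) (P : Fin c → MvPolynomial (Fin (N + 1)) ℂ), c ∈ E N →
      (∀ i, (P i).IsHomogeneous 2) → SmoothCover P →
      ∀ G, IsForm G → (I (N + c) (coverEqs P) G ↔ J (N + c) (coverEqs P) G) := by
  constructor
  · intro h N c P _ hP _
    exact h (N + c) (coverEqs P) (covEqs_form hP)
  · intro h n S hS
    refine all_of hE (W := fun n S => ∀ G, IsForm G → (I n S G ↔ J n S G)) ?_ ?_ ?_ h n S hS
    · intro S hS G hG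
      exact iff_of_true (hI.zero S G hS hG) (hJ.zero S G hS hG)
    · intro n S S' hSS h G hG
      exact ⟨fun h1 => hJ.congr n S S' hSS G ((h G hG).1 (hI.congr n S' S
          (fun L _ _ x => (hSS L x).symm) G h1)),
        fun h1 => hI.congr n S S' hSS G ((h G hG).2 (hJ.congr n S' S
          (fun L _ _ x => (hSS L x).symm) G h1))⟩
    · intro n N d c m S P ℓ hg h G hG
      obtain ⟨G₀, hG₀, hp⟩ := exists_root hg.mon hG
      rw [← hI.base hg hG hG₀ hp, ← hJ.base hg hG hG₀ hp]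
      refine h _ ?_
      obtain ⟨e, he⟩ := hG₀
      exact ⟨e, he.rename_isHomogeneous⟩

/-- an implication between the emptiness of two exceptional sets -/
theorem imp_one (hI : Cl1 I) (hJ : Cl1 J) {E : ℕ → Set ℕ} (hE : ∀ N, (E N).Infinite) :
    (∀ (n : ℕ) (S : Set (MvPolynomial (Fin (n + 1)) ℂ)), (∀ p ∈ S, IsForm p) →
      I n S 1 → J n S 1) ↔
    ∀ (N c : ℕ) (P : Fin c → MvPolynomial (Fin (N + 1)) ℂ), c ∈ E N →
      (∀ i, (P i).IsHomogeneous 2) → SmoothCover P →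
      I (N + c) (coverEqs P) 1 → J (N + c) (coverEqs P) 1 := by
  constructor
  · intro h N c P _ hP _
    exact h (N + c) (coverEqs P) (covEqs_form hP)
  · intro h n S hS
    refine all_of hE (W := fun n S => I n S 1 → J n S 1) ?_ ?_ ?_ h n S hS
    · intro S hS _
      exact hJ.zero S 1 hS ⟨0, isHomogeneous_one _ _⟩
    · intro n S S' hSS h h1
      exact hJ.congr n S S' hSS 1 (h (hI.congr n S' S (fun L _ _ x => (hSS L x).symm) 1 h1))
    · intro n N d c m S P ℓ hg h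
      rwa [← hI.one hg, ← hJ.one hg]

/-- an equivalence between the emptiness of two exceptional sets -/
theorem iff_one (hI : Cl1 I) (hJ : Cl1 J) {E : ℕ → Set ℕ} (hE : ∀ N, (E N).Infinite) :
    (∀ (n : ℕ) (S : Set (MvPolynomial (Fin (n + 1)) ℂ)), (∀ p ∈ S, IsForm p) →
      (I n S 1 ↔ J n S 1)) ↔
    ∀ (N c : ℕ) (P : Fin c → MvPolynomial (Fin (N + 1)) ℂ), c ∈ E N →
      (∀ i, (P i).IsHomogeneous 2) → SmoothCover P →
      (I (N + c) (coverEqs P) 1 ↔ J (N + c) (coverEqs P) 1) := by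
  constructor
  · intro h N c P _ hP _
    exact h (N + c) (coverEqs P) (covEqs_form hP)
  · intro h n S hS
    exact ⟨(imp_one hI hJ hE).2 (fun N c P hc hP hsm => (h N c P hc hP hsm).1) n S hS,
      (imp_one hJ hI hE).2 (fun N c P hc hP hsm => (h N c P hc hP hsm).2) n S hS⟩

end two

end Pool.Agent.U207.QC
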