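import Pool.Agent.U207.QC.TrS

/-!
Project QC (helper207), part F3: punctured discs.
-/

set_option autoImplicit false

namespace Pool.Agent.U207.QC

open MvPolynomial Metric Filter Topology FF
open Pool.Agent.N254.SQ (IsForm Extends Extd Mon ver pull aeval_scale aeval_pull NotIn ValueNotIn
  ValueIn LogGeneral Lifts eval_scale Good GoodAlg OnSpecialQ OnCurvesQ OnDiscsQ qd_van qd_zero
  qd_ne qd_nhds qd_contAt)
open Pool.Agent.W602.GT (SubVar GeneralType coords)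

section disc

variable {n N d c : ℕ} {m : Fin (N + 1) → Fin (n + 1) → ℕ}
  {S : Set (MvPolynomial (Fin (n + 1)) ℂ)} {P ℓ ℓ' : Fin c → MvPolynomial (Fin (N + 1)) ℂ}
  {A : MvPolynomial (Fin (N + 1)) ℂ}

theorem form_zero {M e : ℕ} {F : MvPolynomial (Fin (M + 1)) ℂ} (he : 1 ≤ e)
    (hF : F.IsHomogeneous e) : eval (0 : Fin (M + 1) → ℂ) F = 0 := by
  have h3 := eval_scale hF 0 0
  rw [zero_smul, zero_pow (by omega), zero_mul] at h3
  exact h3

theorem an_el {g : ℂ → Fin (N + 1) → ℂ} {z : ℂ} (hg : AnalyticAt ℂ g z) :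
    AnalyticAt ℂ (fun w => el ℓ (g w)) z := by
  rw [analyticAt_pi_iff]
  intro l
  rcases idx_cases l with ⟨j, rfl⟩ | ⟨i, rfl⟩
  · simp only [el_h]
    exact (analyticAt_pi_iff.1 hg) j
  · simp only [el_x]
    change AnalyticAt ℂ (fun z => eval (g z) (ℓ i)) z
    simp only [MvPolynomial.eval_eq']
    apply Finset.analyticAt_fun_sum
    intro α _
    apply AnalyticAt.fun_mul analyticAt_const
    apply Finset.analyticAt_fun_prod
    intro j _
    exact ((analyticAt_pi_iff.1 hg) j).fun_pow _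

theorem an_h {g : ℂ → Fin (N + c + 1) → ℂ} {z : ℂ} (hg : AnalyticAt ℂ g z) :
    AnalyticAt ℂ (fun w => g w ∘ hI N c) z := by
  rw [analyticAt_pi_iff]
  intro j
  exact (analyticAt_pi_iff.1 hg) (hI N c j)

/-- the projection of a map which extends -/
theorem ext_h {f : ℂ → Fin (N + c + 1) → ℂ} (hf : DifferentiableOn ℂ f (ball 0 1 \ {0}))
    (h0 : ∃ w ∈ ball (0 : ℂ) 1 \ {0}, f w ∘ hI N c ≠ 0) (h : Extends f) :
    Extends fun w => f w ∘ hI N c := by
  change Extd _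
  rw [Pool.Agent.N254.SQ.t_ext N _ (diff_h hf) h0]
  have h1 : ∃ w ∈ ball (0 : ℂ) 1 \ {0}, f w ≠ 0 := by
    obtain ⟨w, hw, hne⟩ := h0
    refine ⟨w, hw, fun h2 => hne ?_⟩
    rw [h2]
    rfl
  change Extd f at h
  rw [Pool.Agent.N254.SQ.t_ext _ f hf h1] at h
  intro i l hl
  exact h (hI N c i) (hI N c l) hl

/-- the lift of a map which extends -/
theorem ext_el (hl : ∀ i, (ℓ i).IsHomogeneous 1) {f : ℂ → Fin (N + 1) → ℂ} (h : Extends f) :
    Extends fun w => el ℓ (f w) := by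
  obtain ⟨ε, hε, g, hg, hg0, hr⟩ := h
  refine ⟨ε, hε, fun w => el ℓ (g w), diff_el hg, fun w hw => el_ne (hg0 w hw), fun w hw => ?_⟩
  obtain ⟨s, hs⟩ := hr w hw
  refine ⟨s, ?_⟩
  change el ℓ (f w) = s • el ℓ (g w)
  rw [hs, el_smul hl]

theorem ext_congr {M : ℕ} {f f' : ℂ → Fin (M + 1) → ℂ}
    (hff : ∀ w ∈ ball (0 : ℂ) 1 \ {0}, f' w = f w) (h : Extends f) : Extends f' := by
  obtain ⟨ε, hε, g, hg, hg0, hr⟩ := h
  have hsub : ball (0 : ℂ) (min ε 1) ⊆ ball (0 : ℂ) ε := ball_subset_ball (min_le_left _ _)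
  have hsub' : ball (0 : ℂ) (min ε 1) ⊆ ball (0 : ℂ) 1 := ball_subset_ball (min_le_right _ _)
  refine ⟨min ε 1, lt_min hε one_pos, g, hg.mono hsub, fun w hw => hg0 w (hsub hw), ?_⟩
  rintro w ⟨hw, hw0⟩
  rw [hff w ⟨hsub' hw, hw0⟩]
  exact hr w ⟨hsub hw, hw0⟩

theorem discs_down (hg : GoodC n N d c m S P ℓ) (hA : Good n N d m S A)
    {T : Set (MvPolynomial (Fin (N + 1)) ℂ)} {G : MvPolynomial (Fin (N + c + 1)) ℂ}
    (h : OnDiscsQ (coverEqs P) (rename (hI N c) '' T) G) : OnDiscsQ {A} T (sbl ℓ G) := by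
  intro f hf hf0 hfA
  rcases hA.discs f hf hf0 (fun w hw => by
      obtain ⟨g, hga, hgz, hrel, hgA, -⟩ := hfA w hw
      exact qd_zero hA.homA (qd_contAt hf hw) hga.continuousAt hgz hrel (hgA A rfl)) with h1 | h1
  · exact Or.inl h1
  have hV : ∀ w ∈ ball (0 : ℂ) 1 \ {0}, f w ≠ 0 → OnV m S (f w) := fun w hw h0 =>
    OnV.of (h1 w hw h0)
  obtain ⟨w0, hw0, hfw0⟩ := id hf0
  rcases h (fun w => el ℓ (f w)) (diff_el hf) ⟨w0, hw0, el_ne hfw0⟩ (fun z hz => by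
      obtain ⟨g, hga, hgz, hrel, hgA, H, hH, hH0⟩ := hfA z hz
      refine ⟨fun w => el ℓ (g w), an_el hga, el_ne hgz, ?_, ?_, _, ⟨H, hH, rfl⟩, ?_⟩
      · filter_upwards [hrel] with w hw
        obtain ⟨s, hs⟩ := hw
        exact ⟨s, by rw [hs, el_smul hg.homL]⟩
      · rintro _ ⟨i, rfl⟩
        have h2 : eval (g z) (ℓ i ^ 2 - P i) = 0 := by
          refine qd_van ⟨2, ((hg.homL i).pow 2).sub (hg.homP i)⟩ hga.continuousAt
            (qd_ne hf hf0 hz) hrel ?_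
          filter_upwards [qd_ne hf hf0 hz, qd_nhds hz] with w hw hwd
          rw [map_sub, map_pow]
          have h3 : eval (f w) (P i) = eval (f w) (ℓ i) ^ 2 := hg.eqP (hV w hwd hw) i
          rw [h3, sub_self]
        change eval (el ℓ (g z)) (coverForm P i) = 0
        rw [eval_cover, el_hI, el_x]
        rw [map_sub, map_pow] at h2
        exact h2
      · rw [eval_rename, el_hI]
        exact hH0) with h2 | h2
  · left
    have h3 := ext_h (diff_el hf) ⟨w0, hw0, by rw [el_hI]; exact hfw0⟩ h2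
    simp only [el_hI] at h3
    exact h3
  · right
    intro w hw
    exact (aeval_sbl (L := ℂ) (ℓ := ℓ) (f w) G).trans (h2 w hw)

theorem discs_up (hg : GoodC n N d c m S P ℓ) (hA : Good n N d m S A)
    {T : Set (MvPolynomial (Fin (N + 1)) ℂ)} {G : MvPolynomial (Fin (N + c + 1)) ℂ}
    (h : ∀ ℓ', Signs ℓ ℓ' → OnDiscsQ {A} T (sbl ℓ' G)) :
    OnDiscsQ (coverEqs P) (rename (hI N c) '' T) G := by
  intro f hf hf0 hfP
  have hmem : ∀ w ∈ ball (0 : ℂ) 1 \ {0}, ∀ i, eval (f w) (coverForm P i) = 0 := by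
    intro w hw i
    obtain ⟨g, hga, hgz, hrel, hgP, -⟩ := hfP w hw
    exact qd_zero ⟨2, cover_hom hg.homP i⟩ (qd_contAt hf hw) hga.continuousAt hgz hrel
      (hgP _ ⟨i, rfl⟩)
  rcases hg.discs f ⟨hf, hf0, hmem⟩ with h1 | h1
  · exact Or.inl h1
  have hV : ∀ w ∈ ball (0 : ℂ) 1 \ {0}, f w ≠ 0 → OnV m S (f w ∘ hI N c) := fun w hw h0 =>
    OnV.of (h1 w hw h0)
  obtain ⟨w0, hw0, hfw0⟩ := id hf0
  have hh0 : ∃ w ∈ ball (0 : ℂ) 1 \ {0}, f w ∘ hI N c ≠ 0 := ⟨w0, hw0, (hV w0 hw0 hfw0).ne hg⟩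
  obtain ⟨ℓ', hs, hl⟩ := signs_on (ℓ := ℓ) disc_open Pool.Agent.N254.SQ.disc_conn hf
    (fun w hw i => by
      by_cases h0 : f w = 0
      · have h2 : f w ∘ hI N c = 0 := by
          rw [h0]
          rfl
        rw [h2, form_zero le_rfl (hg.homL i), h0]
        rfl
      · exact hg.sq_of (hmem w hw) (hV w hw h0) i)
  rcases h ℓ' hs (fun w => f w ∘ hI N c) (diff_h hf) hh0 (fun z hz => by
      obtain ⟨g, hga, hgz, hrel, hgP, _, ⟨H, hH, rfl⟩, hH0⟩ := hfP z hz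
      have hgh : g z ∘ hI N c ≠ 0 := base_ne hg.homP hgz fun i => hgP _ ⟨i, rfl⟩
      have hrel' : ∀ᶠ w in 𝓝[≠] z, ∃ s : ℂ, f w ∘ hI N c = s • (g w ∘ hI N c) := by
        filter_upwards [hrel] with w hw
        obtain ⟨s, hs⟩ := hw
        exact ⟨s, by rw [hs]; rfl⟩
      refine ⟨fun w => g w ∘ hI N c, an_h hga, hgh, hrel', ?_, H, hH, ?_⟩
      · intro p hp
        rw [Set.mem_singleton_iff] at hp
        subst hp
        refine qd_van (f := fun w => f w ∘ hI N c) (g := fun w => g w ∘ hI N c) hA.homA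
          (an_h hga).continuousAt (qd_ne (diff_h hf) hh0 hz) hrel' ?_
        filter_upwards [qd_ne hf hf0 hz, qd_nhds hz] with w hw hwd
        exact aux_van hA (hV w hwd hw)
      · rw [eval_rename] at hH0
        exact hH0) with h2 | h2
  · left
    exact ext_congr (fun w hw => hl w hw) (ext_el (hs.hom hg.homL) h2)
  · right
    intro w hw
    have h3 : eval (f w ∘ hI N c) (sbl ℓ' G) = 0 := h2 w hw
    have h4 := (aeval_sbl (L := ℂ) (ℓ := ℓ') (f w ∘ hI N c) G).symm.trans h3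
    rw [← hl w hw] at h4
    exact h4

end disc

end Pool.Agent.U207.QC
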