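import Pool.Agent.U207.QC.Imp

/-!
Project QC (helper207), part H: lemmas for the assembly.
-/

set_option autoImplicit false

namespace Pool.Agent.U207.QC

open MvPolynomial Metric
open Pool.Agent.W602.GT (SubVar GeneralType)
open Pool.Agent.N254.SQ (IsForm Eqs Extends Component NotIn LogGeneral OnSpecialQ OnCurvesQ
  OnDiscsQ Monomials veronese)


open Pool.Agent.N254.SQ (Mon ver pull eval_pull Gen Lifts Cls t_num t_cls coords_ver)

/-- subvarieties of the cover, with the two index types -/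
theorem sub_set {N c : ℕ} {P : Fin c → MvPolynomial (Fin (N + 1)) ℂ} {L : Type} [Field L]
    [Algebra ℂ L] {w : ℕ} {y : Fin (N + c + 1) → L} (hy : SubVar (coverForm P) L w y) :
      SubVar (fun p : coverEqs P => (p : MvPolynomial (Fin (N + c + 1)) ℂ)) L w y := by
  refine ⟨hy.ne, ?_, hy.gen, hy.dim⟩
  rintro ⟨_, i, rfl⟩
  exact hy.mem i

theorem sub_fun {N c : ℕ} {P : Fin c → MvPolynomial (Fin (N + 1)) ℂ} {L : Type} [Field L]
    [Algebra ℂ L] {w : ℕ} {y : Fin (N + c + 1) → L}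
    (hy : SubVar (fun p : coverEqs P => (p : MvPolynomial (Fin (N + c + 1)) ℂ)) L w y) :
      SubVar (coverForm P) L w y :=
  ⟨hy.ne, fun i => hy.mem ⟨_, ⟨i, rfl⟩⟩, hy.gen, hy.dim⟩

theorem gen_of_sub {n : ℕ} {ι : Type} {F : ι → MvPolynomial (Fin (n + 1)) ℂ} {L : Type} [Field L]
    [Algebra ℂ L] {w : ℕ} {y : Fin (n + 1) → L} (hy : SubVar F L w y) : Gen L w y :=
  ⟨hy.ne, hy.gen, hy.dim⟩

theorem sub_of_gen {n : ℕ} {L : Type} [Field L] [Algebra ℂ L] {w : ℕ} {y : Fin (n + 1) → L}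
    (hy : Gen L w y) : SubVar (fun p : (∅ : Set (MvPolynomial (Fin (n + 1)) ℂ)) =>
      (p : MvPolynomial (Fin (n + 1)) ℂ)) L w y :=
  ⟨hy.ne, fun p => absurd p.2 (Set.notMem_empty _), hy.gen, hy.dim⟩

/-- the dimension of a subvariety over `v(X)` -/
theorem dim_over {n N d c : ℕ} {m : Fin (N + 1) → Fin (n + 1) → ℕ}
    {S : Set (MvPolynomial (Fin (n + 1)) ℂ)} {P ℓ : Fin c → MvPolynomial (Fin (N + 1)) ℂ}
    (hg : GoodC n N d c m S P ℓ) {L : Type} [Field L] [Algebra ℂ L] {w : ℕ}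
    {y : Fin (N + c + 1) → L} (hy : SubVar (coverForm P) L w y)
    (h : OnV m S (y ∘ hI N c)) : w ≤ n := by
  have hV : OnV m S (y ∘ hI N c) := h
  obtain ⟨ℓ', hs, hyl⟩ := hg.exists_signs hy.mem hV
  have h1 := coords_el (hs.hom hg.homL) (hV.ne hg)
  rw [← hyl] at h1
  obtain ⟨x, s, hx, hs, -, hyx⟩ := h
  refine Pool.Agent.Results.MP_2a5ae2_ag.SmoothHypersurfacesSuffice.dim_le hy.gen hy.dim x hx ?_
  rw [h1, hyx]
  exact (coords_ver hg.mon hg.hd1 x hx s hs).symm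

/-- the zeros of the lifted forms -/
theorem lifts_zero {n N d : ℕ} {m : Fin (N + 1) → Fin (n + 1) → ℕ} (hd : 1 ≤ d)
    {T : Set (MvPolynomial (Fin (n + 1)) ℂ)} {T' : Set (MvPolynomial (Fin (N + 1)) ℂ)}
    (h : Lifts m d T T') (x : Fin (n + 1) → ℂ) :
    (∀ H ∈ T', eval (veronese m x) H = 0) ↔ ∀ H ∈ T, eval x H = 0 := by
  constructor
  · intro h1 G hG
    obtain ⟨G', hG', e, -, -, hp⟩ := h.up G hG
    have h2 : eval (ver m x) G' = 0 := h1 G' hG'
    rw [← eval_pull, hp, map_pow] at h2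
    exact eq_zero_of_pow_eq_zero h2
  · intro h1 G' hG'
    obtain ⟨G, hG, e, -, -, hp⟩ := h.down G' hG'
    have h2 : eval (ver m x) G' = 0 := by
      rw [← eval_pull, hp, map_pow, h1 G hG, zero_pow (by omega)]
    exact h2

/-- finite or arbitrary sets of forms can be lifted -/
theorem exists_liftT {n N d : ℕ} {m : Fin (N + 1) → Fin (n + 1) → ℕ}
    (hm : Mon n N d m) (hd : 1 ≤ d) (T : Set (MvPolynomial (Fin (n + 1)) ℂ))
    (hT : ∀ H ∈ T, IsForm H) :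
    ∃ T' : Set (MvPolynomial (Fin (N + 1)) ℂ), (∀ H ∈ T', IsForm H) ∧ (T.Finite → T'.Finite) ∧
      Lifts m d T T' := by
  by_cases hfin : T.Finite
  · obtain ⟨T', hT', hl⟩ := t_cls.2.1.lift n N d m hm hd T ⟨hfin, hT⟩
    exact ⟨T', hT'.2, fun _ => hT'.1, hl⟩
  · obtain ⟨T', hT', hl⟩ := t_cls.1.lift n N d m hm hd T hT
    exact ⟨T', hT', fun h => absurd h hfin, hl⟩

/-- components of equal exceptional sets -/
theorem comp_congr {n : ℕ} {I J : MvPolynomial (Fin (n + 1)) ℂ → Prop}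
    (h : ∀ G, IsForm G → (I G ↔ J G)) {L : Type} [Field L] [Algebra ℂ L]
    {y : Fin (n + 1) → L} (hI : Component I y) : Component J y := by
  obtain ⟨h1, H, hH, hHy, h2⟩ := hI
  refine ⟨fun G hG hJ => h1 G hG ((h G hG).2 hJ), H, hH, hHy, fun G hG hGy => ?_⟩
  obtain ⟨e, he⟩ := hG
  obtain ⟨e', he'⟩ := hH
  exact (h (G * H) ⟨_, he.mul he'⟩).1 (h2 G ⟨e, he⟩ hGy)


end Pool.Agent.U207.QC
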