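import Mathlib

/-!
Project QC (helper207): few quadratic forms suffice.
-/

set_option autoImplicit false

namespace Pool.Agent.U207.QC

open MvPolynomial

/-- the quadratic form of a matrix -/
noncomputable def mq {K : Type} [Field K] {N : ℕ} :
    Matrix (Fin (N + 1)) (Fin (N + 1)) K →ₗ[K] MvPolynomial (Fin (N + 1)) K where
  toFun A := ∑ i, ∑ j, A i j • (X i * X j)
  map_add' A B := by
    simp only [Matrix.add_apply, add_smul, Finset.sum_add_distrib]
  map_smul' c A := by
    simp only [Matrix.smul_apply, smul_eq_mul, mul_smul, Finset.smul_sum, RingHom.id_apply]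

theorem mem_mq {K : Type} [Field K] [CharZero K] {N : ℕ} {p : MvPolynomial (Fin (N + 1)) K}
    (hp : p.IsHomogeneous 2) : ∃ A, mq A = p := by
  have h1 : ∀ i j, pderiv i (pderiv j p) = C (coeff 0 (pderiv i (pderiv j p))) := by
    intro i j
    have h2 : (pderiv i (pderiv j p)).IsHomogeneous 0 := hp.pderiv.pderiv
    exact totalDegree_eq_zero_iff_eq_C.1 (Nat.le_zero.1 h2.totalDegree_le)
  refine ⟨fun i j => 2⁻¹ * coeff 0 (pderiv i (pderiv j p)), ?_⟩
  have h3 := hp.sum_X_mul_pderiv
  have h4 : ∀ j, ∑ i, X i * pderiv i (pderiv j p) = pderiv j p := by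
    intro j
    have h5 := (hp.pderiv (i := j)).sum_X_mul_pderiv
    rw [h5]
    norm_num
  have h6 : (2 : K) • p = ∑ i, ∑ j, coeff 0 (pderiv i (pderiv j p)) • (X i * X j) := by
    rw [Finset.sum_comm]
    rw [show (2 : K) • p = 2 • p from by
      rw [← Nat.cast_smul_eq_nsmul K]
      norm_num, ← h3]
    refine Finset.sum_congr rfl fun j _ => ?_
    rw [← h4 j, Finset.mul_sum]
    refine Finset.sum_congr rfl fun i _ => ?_
    rw [h4 j, h1 i j, coeff_zero_C, smul_eq_C_mul]
    ring
  have h7 : mq (fun i j => 2⁻¹ * coeff 0 (pderiv i (pderiv j p))) = (2 : K)⁻¹ • ((2 : K) • p) := by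
    rw [h6]
    change ∑ i, ∑ j, (2⁻¹ * coeff 0 (pderiv i (pderiv j p))) • (X i * X j) = _
    simp only [mul_smul, Finset.smul_sum]
  rw [h7, smul_smul, inv_mul_cancel₀ two_ne_zero, one_smul]

/-- quadratic forms may be replaced by at most `(N + 1) ^ 2` combinations -/
theorem red_basis {K : Type} [Field K] [CharZero K] {N : ℕ} {ι : Type} [Fintype ι]
    (q : ι → MvPolynomial (Fin (N + 1)) K) (hq : ∀ i, (q i).IsHomogeneous 2) :
    ∃ (r : ℕ) (b : Fin r → MvPolynomial (Fin (N + 1)) K), r ≤ (N + 1) ^ 2 ∧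
      (∀ i, (b i).IsHomogeneous 2) ∧
      (∀ (Ω : Type) [Field Ω] [Algebra K Ω] (y : Fin (N + 1) → Ω),
        (∀ i, aeval y (q i) = 0) ↔ ∀ i, aeval y (b i) = 0) ∧
      ∀ (Ω : Type) [Field Ω] [Algebra K Ω] (y : Fin (N + 1) → Ω),
        (Matrix.of fun (i : ι) (j : Fin (N + 1)) => (aeval y (pderiv j (q i)) : Ω)).rank ≤
        (Matrix.of fun (i : Fin r) (j : Fin (N + 1)) => (aeval y (pderiv j (b i)) : Ω)).rank := by
  classical
  set W : Submodule K (MvPolynomial (Fin (N + 1)) K) := Submodule.span K (Set.range q) with hW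
  have hfin : Module.Finite K W := by
    rw [hW]
    exact FiniteDimensional.span_of_finite K (Set.finite_range q)
  have hrange : Module.Finite K (LinearMap.range (mq (K := K) (N := N))) := inferInstance
  have hle : W ≤ LinearMap.range (mq (K := K) (N := N)) := by
    rw [hW, Submodule.span_le]
    rintro _ ⟨i, rfl⟩
    exact mem_mq (hq i)
  have hhom : ∀ p ∈ W, p.IsHomogeneous 2 := by
    intro p hp
    have h1 : W ≤ homogeneousSubmodule (Fin (N + 1)) K 2 := by
      rw [hW, Submodule.span_le]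
      rintro _ ⟨i, rfl⟩
      exact hq i
    exact h1 hp
  set b := Module.finBasis K W with hb
  have hmem : ∀ i, q i ∈ W := fun i => Submodule.subset_span ⟨i, rfl⟩
  have hrep : ∀ i, q i = ∑ l, b.repr ⟨q i, hmem i⟩ l • (b l : MvPolynomial (Fin (N + 1)) K) := by
    intro i
    have h1 := congrArg (Subtype.val) (b.sum_repr ⟨q i, hmem i⟩)
    rw [Submodule.coe_sum] at h1
    simp only [Submodule.coe_smul] at h1
    exact h1.symm
  refine ⟨Module.finrank K W, fun l => b l, ?_, fun l => hhom _ (b l).2, ?_, ?_⟩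
  · refine (Submodule.finrank_mono hle).trans ((LinearMap.finrank_range_le _).trans ?_)
    rw [Module.finrank_matrix]
    simp [pow_two]
  · intro Ω _ _ y
    constructor
    · intro h l
      have h1 : W ≤ LinearMap.ker (aeval y : MvPolynomial (Fin (N + 1)) K →ₐ[K] Ω).toLinearMap := by
        rw [hW, Submodule.span_le]
        rintro _ ⟨i, rfl⟩
        exact h i
      exact h1 (b l).2
    · intro h i
      rw [hrep i, map_sum]
      refine Finset.sum_eq_zero fun l _ => ?_
      rw [map_smul, h l, smul_zero]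
  · intro Ω _ _ y
    have h1 : (Matrix.of fun (i : ι) (j : Fin (N + 1)) => (aeval y (pderiv j (q i)) : Ω)) =
        (Matrix.of fun (i : ι) l => algebraMap K Ω (b.repr ⟨q i, hmem i⟩ l)) *
        (Matrix.of fun l (j : Fin (N + 1)) =>
          (aeval y (pderiv j (b l : MvPolynomial (Fin (N + 1)) K)) : Ω)) := by
      ext i j
      rw [Matrix.mul_apply, Matrix.of_apply]
      conv_lhs => rw [hrep i]
      rw [map_sum, map_sum]
      refine Finset.sum_congr rfl fun l _ => ?_
      rw [Derivation.map_smul, map_smul, Algebra.smul_def]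
      rfl
    rw [h1]
    exact Matrix.rank_mul_le_right _ _

end Pool.Agent.U207.QC
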