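import Pool.Agent.N254.SQ.Count
import Pool.Agent.N254.SQ.Td

/-!
Project QC (helper207), part D1: linear equations with generic coefficients, Vandermonde.
-/

set_option autoImplicit false

namespace Pool.Agent.U207.QC

open MvPolynomial Cardinal

/-- Vandermonde for a small support -/
theorem vand {Ω : Type} [Field Ω] {c s : ℕ} {b : Fin c → Ω} (hb : Function.Injective b)
    {ν : Fin c → Ω} {T : Finset (Fin c)} (hT : T.card ≤ s) (hν : ∀ i, i ∉ T → ν i = 0)
    (h : ∀ t < s, ∑ i, ν i * b i ^ t = 0) : ν = 0 := by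
  classical
  by_contra hcon
  obtain ⟨i0, hi0⟩ : ∃ i0, ν i0 ≠ 0 := by
    by_contra h1
    push Not at h1
    exact hcon (funext h1)
  have hi0T : i0 ∈ T := by
    by_contra h1
    exact hi0 (hν i0 h1)
  set p : Polynomial Ω := ∏ i ∈ T.erase i0, (Polynomial.X - Polynomial.C (b i)) with hp
  have hdeg : p.natDegree < s := by
    rw [hp, Polynomial.natDegree_prod_of_monic _ _ fun i _ => Polynomial.monic_X_sub_C _]
    simp only [Polynomial.natDegree_X_sub_C, Finset.sum_const, smul_eq_mul, mul_one]
    rw [Finset.card_erase_of_mem hi0T]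
    have : 0 < T.card := Finset.card_pos.2 ⟨i0, hi0T⟩
    omega
  have h1 : ∑ i, ν i * p.eval (b i) = 0 := by
    have h2 : ∀ i, ν i * p.eval (b i) = ∑ t ∈ Finset.range s, p.coeff t * (ν i * b i ^ t) := by
      intro i
      rw [Polynomial.eval_eq_sum_range' hdeg, Finset.mul_sum]
      exact Finset.sum_congr rfl fun t _ => by ring
    rw [Finset.sum_congr rfl fun i _ => h2 i, Finset.sum_comm]
    refine Finset.sum_eq_zero fun t ht => ?_
    rw [← Finset.mul_sum, h t (Finset.mem_range.1 ht), mul_zero]
  rw [Finset.sum_eq_single i0] at h1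
  · rcases mul_eq_zero.1 h1 with h2 | h2
    · exact hi0 h2
    · rw [hp, Polynomial.eval_prod, Finset.prod_eq_zero_iff] at h2
      obtain ⟨i, hi, h3⟩ := h2
      rw [Polynomial.eval_sub, Polynomial.eval_X, Polynomial.eval_C, sub_eq_zero] at h3
      exact (Finset.mem_erase.1 hi).1 (hb h3).symm
  · intro i _ hi
    by_cases hiT : i ∈ T
    · rw [hp, Polynomial.eval_prod, Finset.prod_eq_zero (Finset.mem_erase.2 ⟨hi, hiT⟩), mul_zero]
      rw [Polynomial.eval_sub, Polynomial.eval_X, Polynomial.eval_C, sub_self]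
    · rw [hν i hiT, zero_mul]
  · intro h2
    exact absurd (Finset.mem_univ _) h2

section count

variable {K Ω : Type} [Field K] [Field Ω] [Algebra K Ω]

/-- the matroid of algebraic independence -/
theorem eRk_le {N : ℕ} {h : Fin (N + 1) → Ω} {n : ℕ}
    (hn : Algebra.trdeg K (Algebra.adjoin K (Set.range h)) ≤ n) :
    (AlgebraicIndependent.matroid K Ω).eRk (Set.range h) ≤ n := by
  set M := AlgebraicIndependent.matroid K Ω with hM
  obtain ⟨I, hI⟩ := M.exists_isBasis (Set.range h)
  have hI2 := AlgebraicIndependent.matroid_isBasis_iff.1 hI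
  have hIX : I ⊆ Set.range h := hI2.2.1
  have hIfin : I.Finite := (Set.finite_range h).subset hIX
  have h8 : ((I.ncard : ℕ) : Cardinal) ≤
      Algebra.trdeg K (Algebra.adjoin K (Set.range h)) := by
    have hIind : AlgebraicIndependent K ((↑) : I → Ω) := hI2.1
    have h9 : AlgebraicIndependent K (fun i : I =>
        (⟨i.1, Algebra.subset_adjoin (hIX i.2)⟩ : Algebra.adjoin K (Set.range h))) := by
      have h10 : ((Algebra.adjoin K (Set.range h)).val ∘ fun i : I =>
        (⟨i.1, Algebra.subset_adjoin (hIX i.2)⟩ : Algebra.adjoin K (Set.range h))) =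
          ((↑) : I → Ω) := rfl
      apply AlgebraicIndependent.of_comp (Algebra.adjoin K (Set.range h)).val
      rw [h10]
      exact hIind
    have h11 := h9.cardinalMk_le_trdeg
    refine le_trans (le_of_eq ?_) h11
    exact Set.cast_ncard hIfin
  have h9 := h8.trans hn
  rw [Nat.cast_le] at h9
  rw [← hI.encard_eq_eRk, ← hIfin.cast_ncard_eq]
  exact_mod_cast h9

/-- linear equations with generic coefficients -/
theorem count2 {κ σ τ : Type} [Fintype κ] [Fintype σ] (x : τ → Ω) (y : σ → Ω)
    (P : Matrix κ σ Ω) (hPF : ∀ b s, P b s ∈ IntermediateField.adjoin K (Set.range x))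
    (hP : ∀ b, ∑ s, P b s * y s = 0) {c : ℕ} {a : Fin c → Ω}
    (hind : AlgebraicIndependent K (Sum.elim a y)) {Z : Set Ω}
    (hx : ∀ j, IsAlgebraic (Algebra.adjoin K Z) (x j))
    (ha : ∀ i, IsAlgebraic (Algebra.adjoin K Z) (a i)) {R : ℕ}
    (hR : (AlgebraicIndependent.matroid K Ω).eRk Z ≤ R) : P.rank + c ≤ R := by
  classical
  set F := IntermediateField.adjoin K (Set.range x) with hF
  set A : Matrix κ σ F := Matrix.of fun b s => ⟨P b s, hPF b s⟩ with hA
  have hAm : A.map (algebraMap F Ω) = P := by
    ext b s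
    rfl
  obtain ⟨B, _, e, he, hspan, hrank⟩ := Pool.Agent.N254.SQ.count_lin (F := F) y A (by
    intro b
    exact hP b)
  rw [hAm] at hrank
  set M := AlgebraicIndependent.matroid K Ω with hM
  set Z' : Set Ω := Z ∪ Set.range (y ∘ e) with hZ'
  have hup : ∀ z : Ω, IsAlgebraic (Algebra.adjoin K Z) z → IsAlgebraic (Algebra.adjoin K Z') z := by
    intro z hz
    have h1 : z ∈ M.closure Z := by
      rw [AlgebraicIndependent.matroid_closure_eq]
      exact hz
    have h2 : z ∈ M.closure Z' := M.closure_subset_closure Set.subset_union_left h1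
    rw [AlgebraicIndependent.matroid_closure_eq] at h2
    exact h2
  have halg : ∀ z ∈ F, IsAlgebraic (Algebra.adjoin K Z') z := by
    apply Pool.Agent.N254.SQ.count_field
    rintro _ ⟨j, rfl⟩
    exact hup _ (hx j)
  have hyalg : ∀ s, IsAlgebraic (Algebra.adjoin K Z') (y s) := by
    intro s
    obtain ⟨c, hc⟩ := hspan s
    rw [hc]
    have : ∑ i, algebraMap F Ω (c i) * y (e i) ∈
        Subalgebra.algebraicClosure (Algebra.adjoin K Z') Ω := by
      apply Subalgebra.sum_mem
      intro i _
      apply Subalgebra.mul_mem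
      · exact halg _ (c i).2
      · exact isAlgebraic_algebraMap (A := Ω) (⟨y (e i), Algebra.subset_adjoin
          (Set.mem_union_right _ ⟨i, rfl⟩)⟩ : Algebra.adjoin K Z')
    exact this
  have hsub : Set.range (Sum.elim a y) ⊆ M.closure Z' := by
    rintro _ ⟨i | s, rfl⟩
    · rw [AlgebraicIndependent.matroid_closure_eq]
      exact hup _ (ha i)
    · rw [AlgebraicIndependent.matroid_closure_eq]
      exact hyalg s
  have hindM : M.Indep (Set.range (Sum.elim a y)) := by
    rw [AlgebraicIndependent.matroid_indep_iff]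
    exact hind.to_subtype_range
  have h1 : (Set.range (Sum.elim a y)).encard ≤ M.eRk Z' := by
    calc (Set.range (Sum.elim a y)).encard ≤ M.eRk (M.closure Z') :=
          hindM.encard_le_eRk_of_subset hsub
      _ = M.eRk Z' := M.eRk_closure_eq Z'
  have h2 : (Set.range (Sum.elim a y)).encard = (c + Fintype.card σ : ℕ) := by
    rw [← Set.image_univ, hind.injective.injOn.encard_image, Set.encard_univ,
      ENat.card_eq_coe_fintype_card, Fintype.card_sum, Fintype.card_fin]
  have h3 : M.eRk Z' ≤ (R + Fintype.card B : ℕ) := by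
    refine (M.eRk_union_le_eRk_add_eRk _ _).trans ?_
    rw [Nat.cast_add]
    refine add_le_add hR ((M.eRk_le_encard _).trans ?_)
    rw [← Set.image_univ]
    exact (Set.encard_image_le _ _).trans (by rw [Set.encard_univ, ENat.card_eq_coe_fintype_card])
  have h4 := (h2.symm.le.trans h1).trans h3
  have h5 : c + Fintype.card σ ≤ R + Fintype.card B := by exact_mod_cast h4
  omega

end count

end Pool.Agent.U207.QC
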