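import Pool.Agent.U207.QC.Der
import Pool.Agent.Y190.BV.Spec
import Pool.Agent.Y190.AN.Pow

/-!
Project QC (helper207), part B: the polynomial `ℓ ^ 2 + T ^ B S (T ^ κ)` of a point, and points at whose
nodes its values are squares.
-/

set_option autoImplicit false

namespace Pool.Agent.U207.QC

open Polynomial

section defs

variable {k : Type} [Field k] {K : Type} [Field K] [Algebra k K] {N s : ℕ}

/-- `ℓ = ∑ j, h j T ^ j` -/
noncomputable def lp (h : Fin (N + 1) → K) : K[X] := ∑ j : Fin (N + 1), monomial (j : ℕ) (h j)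

/-- `S = ∑ t, Q t (h) T ^ t` -/
noncomputable def sp (Q : Fin s → MvPolynomial (Fin (N + 1)) k) (h : Fin (N + 1) → K) : K[X] :=
  ∑ t : Fin s, monomial (t : ℕ) (MvPolynomial.aeval h (Q t))

/-- the polynomial `ℓ ^ 2 + T ^ B S (T ^ κ)` -/
noncomputable def hp (B κ : ℕ) (Q : Fin s → MvPolynomial (Fin (N + 1)) k) (h : Fin (N + 1) → K) :
    K[X] := lp h ^ 2 + X ^ B * expand K κ (sp Q h)

/-- the value of the polynomial at the node `a`, as a quadratic form -/
noncomputable def pf (B κ : ℕ) (Q : Fin s → MvPolynomial (Fin (N + 1)) k) (a : k) :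
    MvPolynomial (Fin (N + 1)) k :=
  (∑ j : Fin (N + 1), MvPolynomial.C (a ^ (j : ℕ)) * MvPolynomial.X j) ^ 2 +
    ∑ t : Fin s, MvPolynomial.C (a ^ (B + κ * (t : ℕ))) * Q t

theorem lp_coeff (h : Fin (N + 1) → K) (j : Fin (N + 1)) : (lp h).coeff j = h j := by
  unfold lp
  rw [finsetSum_coeff, Finset.sum_eq_single j]
  · rw [coeff_monomial, if_pos rfl]
  · intro i _ hi
    rw [coeff_monomial, if_neg fun h => hi (Fin.ext h)]
  · intro h
    exact absurd (Finset.mem_univ _) h

theorem lp_natDegree (h : Fin (N + 1) → K) : (lp h).natDegree ≤ N := by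
  unfold lp
  refine natDegree_sum_le_of_forall_le _ _ fun j _ => ?_
  exact (natDegree_monomial_le _).trans (by omega)

theorem lp_ne {h : Fin (N + 1) → K} (hh : h ≠ 0) : lp h ≠ 0 := by
  intro h0
  apply hh
  funext j
  rw [← lp_coeff h j, h0, coeff_zero, Pi.zero_apply]

theorem sp_coeff (Q : Fin s → MvPolynomial (Fin (N + 1)) k) (h : Fin (N + 1) → K) (t : Fin s) :
    (sp Q h).coeff t = MvPolynomial.aeval h (Q t) := by
  unfold sp
  rw [finsetSum_coeff, Finset.sum_eq_single t]
  · rw [coeff_monomial, if_pos rfl]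
  · intro i _ hi
    rw [coeff_monomial, if_neg fun h => hi (Fin.ext h)]
  · intro h
    exact absurd (Finset.mem_univ _) h

theorem sp_eq_zero {Q : Fin s → MvPolynomial (Fin (N + 1)) k} {h : Fin (N + 1) → K} :
    sp Q h = 0 ↔ ∀ t, MvPolynomial.aeval h (Q t) = 0 := by
  constructor
  · intro h0 t
    rw [← sp_coeff, h0, coeff_zero]
  · intro h0
    unfold sp
    exact Finset.sum_eq_zero fun t _ => by rw [h0 t, map_zero]

theorem sp_natDegree (Q : Fin s → MvPolynomial (Fin (N + 1)) k) (h : Fin (N + 1) → K) :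
    (sp Q h).natDegree ≤ s := by
  unfold sp
  refine natDegree_sum_le_of_forall_le _ _ fun j _ => ?_
  exact (natDegree_monomial_le _).trans (by omega)

theorem hp_natDegree {B κ : ℕ} (hB : 2 * N ≤ B) (Q : Fin s → MvPolynomial (Fin (N + 1)) k)
    (h : Fin (N + 1) → K) : (hp B κ Q h).natDegree ≤ B + κ * s := by
  unfold hp
  refine (natDegree_add_le _ _).trans (max_le ?_ ?_)
  · rw [natDegree_pow]
    have := lp_natDegree h
    omega
  · refine natDegree_mul_le.trans ?_
    rw [natDegree_X_pow, natDegree_expand, mul_comm]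
    exact Nat.add_le_add_left (Nat.mul_le_mul_left _ (sp_natDegree Q h)) _

theorem hp_eval (B κ : ℕ) (Q : Fin s → MvPolynomial (Fin (N + 1)) k) (h : Fin (N + 1) → K)
    (a : k) : (hp B κ Q h).eval (algebraMap k K a) = MvPolynomial.aeval h (pf B κ Q a) := by
  unfold hp pf lp sp
  rw [eval_add, eval_pow, eval_mul, eval_pow, eval_X, expand_eval, eval_finsetSum, eval_finsetSum,
    map_add, map_pow, map_sum, map_sum]
  congr 1
  · congr 1
    refine Finset.sum_congr rfl fun j _ => ?_
    rw [eval_monomial, map_mul, MvPolynomial.aeval_X, MvPolynomial.aeval_C, map_pow]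
    ring
  · rw [Finset.mul_sum]
    refine Finset.sum_congr rfl fun t _ => ?_
    rw [eval_monomial, map_mul, MvPolynomial.aeval_C, map_pow, pow_add, pow_mul]
    ring

theorem pf_hom (B κ : ℕ) {Q : Fin s → MvPolynomial (Fin (N + 1)) k}
    (hQ : ∀ t, (Q t).IsHomogeneous 2) (a : k) : (pf B κ Q a).IsHomogeneous 2 := by
  unfold pf
  have h1 : ∀ (b : k) (G : MvPolynomial (Fin (N + 1)) k) (e : ℕ), G.IsHomogeneous e →
      (MvPolynomial.C b * G).IsHomogeneous e := by
    intro b G e hG
    have := (MvPolynomial.isHomogeneous_C (Fin (N + 1)) b).mul hG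
    rwa [zero_add] at this
  refine MvPolynomial.IsHomogeneous.add ?_ ?_
  · exact (MvPolynomial.IsHomogeneous.sum _ _ 1 fun j _ =>
      h1 _ _ _ (MvPolynomial.isHomogeneous_X k j)).pow 2
  · exact MvPolynomial.IsHomogeneous.sum _ _ _ fun t _ => h1 _ _ _ (hQ t)

/-- homogeneous forms of degree two -/
theorem aeval_smul_two {G : MvPolynomial (Fin (N + 1)) k} (hG : G.IsHomogeneous 2) (c : K)
    (h : Fin (N + 1) → K) : MvPolynomial.aeval (fun j => c * h j) G =
      c ^ 2 * MvPolynomial.aeval h G := by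
  rw [MvPolynomial.aeval_def, MvPolynomial.aeval_def, MvPolynomial.eval₂_eq',
    MvPolynomial.eval₂_eq', Finset.mul_sum]
  refine Finset.sum_congr rfl fun m hm => ?_
  have h1 : ∑ i, m i = 2 := by
    have h2 := hG (MvPolynomial.mem_support_iff.1 hm)
    rw [Finsupp.weight_apply, Finsupp.sum_fintype _ _ (fun _ => by simp)] at h2
    simpa using h2
  have h3 : ∏ i, (c * h i) ^ m i = c ^ 2 * ∏ i, h i ^ m i := by
    rw [← h1, ← Finset.prod_pow_eq_pow_sum, ← Finset.prod_mul_distrib]
    exact Finset.prod_congr rfl fun i _ => mul_pow _ _ _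
  rw [h3]
  ring

end defs

/-- every nonzero polynomial is a square times a square-free polynomial -/
theorem exists_sq {K : Type} [Field K] (n : ℕ) : ∀ H : K[X], H ≠ 0 → H.natDegree ≤ n →
    ∃ q H₁ : K[X], H = q ^ 2 * H₁ ∧ ∀ p : K[X], Irreducible p → ¬ p ^ 2 ∣ H₁ := by
  induction n with
  | zero =>
    intro H hH hn
    refine ⟨1, H, by ring, fun p hp hdvd => ?_⟩
    have h1 := natDegree_le_of_dvd hdvd hH
    have h2 := hp.natDegree_pos
    rw [natDegree_pow] at h1
    omega
  | succ n ih =>
    intro H hH hn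
    by_cases h : ∀ p : K[X], Irreducible p → ¬ p ^ 2 ∣ H
    · exact ⟨1, H, by ring, h⟩
    · push Not at h
      obtain ⟨p, hp, G, hG⟩ := h
      have hG0 : G ≠ 0 := by
        rintro rfl
        exact hH (by rw [hG, mul_zero])
      have h1 : H.natDegree = 2 * p.natDegree + G.natDegree := by
        rw [hG, natDegree_mul (pow_ne_zero 2 hp.ne_zero) hG0, natDegree_pow]
      have h2 := hp.natDegree_pos
      obtain ⟨q, H₁, h3, h4⟩ := ih G hG0 (by omega)
      exact ⟨p * q, H₁, by rw [hG, h3]; ring, h4⟩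

/-- many nodes outside of the zeros of a polynomial -/
theorem exists_nodes {k K : Type} [Field k] [Field K] [Algebra k K] {c M n : ℕ} {a : Fin c → k}
    (ha : Function.Injective a) {q : K[X]} (hq : q ≠ 0) (hqn : q.natDegree ≤ n)
    (hc : M + n ≤ c) : ∃ e : Fin M → Fin c, Function.Injective e ∧
      ∀ i, q.eval (algebraMap k K (a (e i))) ≠ 0 := by
  classical
  set T : Finset (Fin c) := Finset.univ.filter fun i => q.eval (algebraMap k K (a i)) ≠ 0 with hT
  have h1 : Tᶜ.card ≤ n := by
    have h2 : Tᶜ.image (fun i => algebraMap k K (a i)) ⊆ q.roots.toFinset := by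
      intro x hx
      obtain ⟨i, hi, rfl⟩ := Finset.mem_image.1 hx
      rw [Multiset.mem_toFinset, mem_roots hq, IsRoot]
      by_contra hcon
      exact (Finset.mem_compl.1 hi) (Finset.mem_filter.2 ⟨Finset.mem_univ _, hcon⟩)
    have h3 := Finset.card_le_card h2
    have hinj : Function.Injective fun i => algebraMap k K (a i) :=
      (algebraMap k K).injective.comp ha
    rw [Finset.card_image_of_injective _ hinj] at h3
    exact h3.trans ((Multiset.toFinset_card_le _).trans ((card_roots' q).trans hqn))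
  have h2 : M ≤ T.card := by
    have h3 := Finset.card_compl T
    rw [Fintype.card_fin] at h3
    have h4 : T.card ≤ c := by
      have := Finset.card_le_univ T
      rwa [Fintype.card_fin] at this
    omega
  obtain ⟨T', hT', hcard⟩ := Finset.exists_subset_card_eq h2
  let e : Fin M ≃ T' :=
    (Fintype.equivFinOfCardEq (by rw [Fintype.card_coe]; exact hcard)).symm
  refine ⟨fun i => (e i : Fin c), fun i j hij => e.injective (Subtype.ext hij), fun i => ?_⟩
  exact (Finset.mem_filter.1 (hT' (e i).2)).2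

end Pool.Agent.U207.QC
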