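import Pool.Agent.U207.QC.Smo2
import Pool.Agent.N254.SQ.Smooth

/-!
Project QC (helper207), part D4: the covers `x_i ^ 2 = P_i(h)` are smooth for general parameters.
-/

set_option autoImplicit false

namespace Pool.Agent.U207.QC

open MvPolynomial

section smo

variable {K Ω : Type} [Field K] [Field Ω] [Algebra K Ω] {N s c : ℕ} {ι : Type} [Fintype ι]
  [CharZero K] {B κ : ℕ} {q : ι → MvPolynomial (Fin (N + 1)) K} {C : Fin s × ι → Ω}
  {a : Fin c → Ω}

/-- zeros of the `q` -/
theorem smo_in (hq : ∀ m, (q m).IsHomogeneous 2) (hκ : 1 ≤ κ) (hs : N + 1 ≤ s)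
    (hind : AlgebraicIndependent K (Sum.elim a C)) {n : ℕ}
    (hrank : ∀ x : Fin (N + 1) → Ω, x ≠ 0 → (∀ m, aeval x (q m) = 0) →
      n ≤ (Matrix.of fun (m : ι) (j : Fin (N + 1)) => (aeval x (pderiv j (q m)) : Ω)).rank)
    (htr : ∀ (x : Fin (N + 1) → Ω) (a0 : Fin (N + 1)), x a0 = 1 → (∀ m, aeval x (q m) = 0) →
      Algebra.trdeg K (Algebra.adjoin K (Set.range x)) ≤ n)
    {h : Fin (N + 1) → Ω} (hh : h ≠ 0) (hz : ∀ m, aeval h (q m) = 0) {ν : Fin c → Ω}
    (h1 : ∀ i, ν i * pv B κ q C (a i) h = 0)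
    (h2 : ∀ j, ∑ i, ν i * pd B κ q C (a i) h j = 0) : ν = 0 := by
  classical
  have hinda : AlgebraicIndependent K a := hind.comp Sum.inl Sum.inl_injective
  by_contra hcon
  obtain ⟨b, hb⟩ : ∃ b, ν b ≠ 0 := by
    by_contra h3
    push Not at h3
    exact hcon (funext h3)
  obtain ⟨a0, ha0⟩ : ∃ a0, h a0 ≠ 0 := by
    by_contra h3
    push Not at h3
    exact hh (funext h3)
  set I : Finset (Fin c) := Finset.univ.filter fun i => ν i ≠ 0 with hI
  have hIm : ∀ i, i ∈ I ↔ ν i ≠ 0 := fun i => by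
    rw [hI, Finset.mem_filter]
    simp
  have hbI : b ∈ I := (hIm b).2 hb
  have hlin : ∀ i ∈ I, ∑ j : Fin (N + 1), a i ^ (j : ℕ) * h j = 0 := by
    intro i hi
    have h3 := (mul_eq_zero.1 (h1 i)).resolve_left ((hIm i).1 hi)
    unfold pv at h3
    simp only [hz, mul_zero, Finset.sum_const_zero, add_zero] at h3
    exact eq_zero_of_pow_eq_zero h3
  have hIN : I.card ≤ N := few_zeros hinda.injective hh hlin
  -- normalization
  set h' : Fin (N + 1) → Ω := fun j => (h a0)⁻¹ * h j with hh'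
  have hh'0 : h' a0 = 1 := inv_mul_cancel₀ ha0
  have hz' : ∀ m, aeval h' (q m) = 0 := fun m => by
    rw [hh', Pool.Agent.N254.SQ.smooth_scale (hq m), hz m, mul_zero]
  have hpd : ∀ m j, aeval h' (pderiv j (q m)) = (h a0)⁻¹ * aeval h (pderiv j (q m)) := by
    intro m j
    rw [hh', Pool.Agent.N254.SQ.smooth_scale ((hq m).pderiv (i := j))]
    norm_num
  set ν' : Fin c → Ω := fun i => (ν b)⁻¹ * ν i with hν'
  have hν'b : ν' b = 1 := inv_mul_cancel₀ hb
  have hν'I : ∀ i, i ∉ I → ν' i = 0 := by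
    intro i hi
    rw [hν']
    simp only
    rw [show ν i = 0 by
      by_contra h3
      exact hi ((hIm i).2 h3), mul_zero]
  set μ : Fin s → Ω := fun t => ∑ i, ν' i * a i ^ (B + κ * (t : ℕ)) with hμ
  set P : Matrix (Fin (N + 1)) (Fin s × ι) Ω :=
    Matrix.of fun j p => μ p.1 * aeval h' (pderiv j (q p.2)) with hP
  have hPC : ∀ j, ∑ p, P j p * C p = 0 := by
    intro j
    have h3 : ∀ i, ν i * pd B κ q C (a i) h j = ν i * ∑ t : Fin s, a i ^ (B + κ * (t : ℕ)) *
        ∑ m, C (t, m) * aeval h (pderiv j (q m)) := by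
      intro i
      by_cases hi : i ∈ I
      · unfold pd
        rw [hlin i hi, mul_zero, zero_mul, zero_add]
      · rw [show ν i = 0 by
          by_contra h3
          exact hi ((hIm i).2 h3), zero_mul, zero_mul]
    have h4 := h2 j
    rw [Finset.sum_congr rfl fun i _ => h3 i] at h4
    have h5 : ∑ p, P j p * C p = (ν b)⁻¹ * (h a0)⁻¹ * ∑ i, ν i * ∑ t : Fin s,
        a i ^ (B + κ * (t : ℕ)) * ∑ m, C (t, m) * aeval h (pderiv j (q m)) := by
      rw [Fintype.sum_prod_type]
      simp only [hP, hμ, hν', Matrix.of_apply, hpd, Finset.sum_mul, Finset.mul_sum]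
      rw [Finset.sum_congr rfl fun t _ => Finset.sum_comm, Finset.sum_comm]
      refine Finset.sum_congr rfl fun i _ => Finset.sum_congr rfl fun t _ =>
        Finset.sum_congr rfl fun m _ => ?_
      ring
    rw [h5, h4, mul_zero]
  -- the family of the coordinates
  let x : Fin (N + 1) ⊕ (I ⊕ I) → Ω :=
    Sum.elim h' (Sum.elim (fun i => ν' i) (fun i => a i))
  have hxh : ∀ j, h' j ∈ IntermediateField.adjoin K (Set.range x) := fun j =>
    IntermediateField.subset_adjoin K _ ⟨Sum.inl j, rfl⟩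
  have hxν : ∀ i ∈ I, ν' i ∈ IntermediateField.adjoin K (Set.range x) := fun i hi =>
    IntermediateField.subset_adjoin K _ ⟨Sum.inr (Sum.inl ⟨i, hi⟩), rfl⟩
  have hxa : ∀ i ∈ I, a i ∈ IntermediateField.adjoin K (Set.range x) := fun i hi =>
    IntermediateField.subset_adjoin K _ ⟨Sum.inr (Sum.inr ⟨i, hi⟩), rfl⟩
  have hPF : ∀ j p, P j p ∈ IntermediateField.adjoin K (Set.range x) := by
    intro j p
    refine mul_mem ?_ ?_
    · rw [hμ]
      simp only
      refine sum_mem fun i _ => ?_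
      by_cases hi : i ∈ I
      · exact mul_mem (hxν i hi) (pow_mem (hxa i hi) _)
      · rw [hν'I i hi, zero_mul]
        exact zero_mem _
    · have h3 : aeval h' (pderiv j (q p.2)) ∈ Algebra.adjoin K (Set.range h') := by
        rw [Algebra.adjoin_range_eq_range_aeval]
        exact ⟨_, rfl⟩
      have h4 : Algebra.adjoin K (Set.range h') ≤
          (IntermediateField.adjoin K (Set.range x)).toSubalgebra := by
        rw [Algebra.adjoin_le_iff]
        rintro _ ⟨j, rfl⟩
        exact hxh j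
      exact h4 h3
  set Z : Set Ω := Set.range h' ∪ (ν' '' (I.erase b : Finset (Fin c)) ∪
    a '' (Iᶜ : Finset (Fin c))) with hZ
  have hZmem : ∀ z ∈ Z, IsAlgebraic (Algebra.adjoin K Z) z := fun z hz =>
    isAlgebraic_algebraMap (⟨z, Algebra.subset_adjoin hz⟩ : Algebra.adjoin K Z)
  have haI : ∀ i ∈ I, IsAlgebraic (Algebra.adjoin K Z) (a i) := by
    intro i hi
    set p : Polynomial (Algebra.adjoin K Z) := ∑ j : Fin (N + 1), Polynomial.monomial (j : ℕ)
      (⟨h' j, Algebra.subset_adjoin (Or.inl ⟨j, rfl⟩)⟩ : Algebra.adjoin K Z) with hp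
    refine ⟨p, ?_, ?_⟩
    · intro h0
      have h3 : p.coeff a0 = (⟨h' a0, Algebra.subset_adjoin (Or.inl ⟨a0, rfl⟩)⟩ :
          Algebra.adjoin K Z) := by
        rw [hp, Polynomial.finsetSum_coeff, Finset.sum_eq_single a0]
        · rw [Polynomial.coeff_monomial, if_pos rfl]
        · intro i _ hi
          rw [Polynomial.coeff_monomial, if_neg fun h => hi (Fin.ext h)]
        · intro h
          exact absurd (Finset.mem_univ _) h
      rw [h0, Polynomial.coeff_zero] at h3
      have h4 := congrArg Subtype.val h3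
      change (0 : Ω) = h' a0 at h4
      rw [hh'0] at h4
      exact zero_ne_one h4
    · rw [hp, map_sum]
      have h3 : ∀ j : Fin (N + 1), Polynomial.aeval (a i) (Polynomial.monomial (j : ℕ)
          (⟨h' j, Algebra.subset_adjoin (Or.inl ⟨j, rfl⟩)⟩ : Algebra.adjoin K Z)) =
          (h a0)⁻¹ * (a i ^ (j : ℕ) * h j) := by
        intro j
        rw [Polynomial.aeval_monomial]
        change h' j * a i ^ (j : ℕ) = _
        rw [hh']
        ring
      rw [Finset.sum_congr rfl fun j _ => h3 j, ← Finset.mul_sum, hlin i hi, mul_zero]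
  have hx : ∀ j, IsAlgebraic (Algebra.adjoin K Z) (x j) := by
    rintro (j | ⟨i, hi⟩ | ⟨i, hi⟩)
    · exact hZmem _ (Or.inl ⟨j, rfl⟩)
    · change IsAlgebraic _ (ν' i)
      by_cases hib : i = b
      · rw [hib, hν'b]
        exact isAlgebraic_one
      · exact hZmem _ (Or.inr (Or.inl ⟨i, Finset.mem_coe.2 (Finset.mem_erase.2 ⟨hib, hi⟩), rfl⟩))
    · exact haI i hi
  have ha : ∀ i, IsAlgebraic (Algebra.adjoin K Z) (a i) := by
    intro i
    by_cases hi : i ∈ I
    · exact haI i hi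
    · exact hZmem _ (Or.inr (Or.inr ⟨i, Finset.mem_coe.2 (Finset.mem_compl.2 hi), rfl⟩))
  have hR : (AlgebraicIndependent.matroid K Ω).eRk Z ≤
      ((n + ((I.card - 1) + (c - I.card)) : ℕ) : ℕ∞) := by
    refine (Matroid.eRk_union_le_eRk_add_eRk _ _ _).trans ?_
    rw [Nat.cast_add]
    refine add_le_add (eRk_le (htr h' a0 hh'0 hz')) ?_
    refine (Matroid.eRk_union_le_eRk_add_eRk _ _ _).trans ?_
    rw [Nat.cast_add]
    refine add_le_add (((AlgebraicIndependent.matroid K Ω).eRk_le_encard _).trans ?_)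
      (((AlgebraicIndependent.matroid K Ω).eRk_le_encard _).trans ?_)
    · refine (Set.encard_image_le _ _).trans ?_
      rw [Set.encard_coe_eq_coe_finsetCard, Finset.card_erase_of_mem hbI]
    · refine (Set.encard_image_le _ _).trans ?_
      rw [Set.encard_coe_eq_coe_finsetCard, Finset.card_compl, Fintype.card_fin]
  have hfin := count2 x C P hPF hPC hind hx ha hR
  have hIc : I.card ≤ c := by
    have := Finset.card_le_univ I
    rwa [Fintype.card_fin] at this
  have hI1 : 1 ≤ I.card := Finset.card_pos.2 ⟨b, hbI⟩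
  -- the rank
  obtain ⟨t0, ht0⟩ : ∃ t0, μ t0 ≠ 0 := by
    by_contra h3
    push Not at h3
    have h4 : (fun i => ν' i * a i ^ B) = 0 := by
      refine vand (pow_inj (K := K) hκ hinda) (T := I) (s := s) (by omega)
        (fun i hi => by rw [hν'I i hi, zero_mul]) fun t ht => ?_
      rw [← h3 ⟨t, ht⟩, hμ]
      refine Finset.sum_congr rfl fun i _ => ?_
      rw [pow_add, pow_mul]
      ring
    have h5 := congrFun h4 b
    simp only [Pi.zero_apply] at h5
    rw [hν'b, one_mul] at h5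
    exact pow_ne_zero _ (node_ne hinda b) h5
  have hJ : (Matrix.of fun (m : ι) (j : Fin (N + 1)) =>
      (aeval h' (pderiv j (q m)) : Ω)).rank ≤ P.rank := by
    have h3 : (Matrix.of fun (m : ι) (j : Fin (N + 1)) => (aeval h' (pderiv j (q m)) : Ω)) =
        ((P.submatrix id fun m : ι => (t0, m)).transpose) *
          ((μ t0)⁻¹ • (1 : Matrix (Fin (N + 1)) (Fin (N + 1)) Ω)) := by
      ext m j
      rw [Matrix.mul_smul, Matrix.mul_one, Matrix.smul_apply, Matrix.transpose_apply,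
        Matrix.submatrix_apply, id, hP, Matrix.of_apply, Matrix.of_apply, smul_eq_mul]
      rw [inv_mul_cancel_left₀ ht0]
    rw [h3]
    refine (Matrix.rank_mul_le_left _ _).trans ?_
    rw [Matrix.rank_transpose]
    exact Matrix.rank_submatrix_le _ _ _
  have h3 := hrank h' (fun h0 => by rw [h0] at hh'0; exact zero_ne_one hh'0) hz'
  omega

/-- **Smoothness.** -/
theorem smo_all (hq : ∀ m, (q m).IsHomogeneous 2) (hκ : 1 ≤ κ) (hs : N + 1 ≤ s)
    (hind : AlgebraicIndependent K (Sum.elim a C)) {n : ℕ}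
    (hrank : ∀ x : Fin (N + 1) → Ω, x ≠ 0 → (∀ m, aeval x (q m) = 0) →
      n ≤ (Matrix.of fun (m : ι) (j : Fin (N + 1)) => (aeval x (pderiv j (q m)) : Ω)).rank)
    (htr : ∀ (x : Fin (N + 1) → Ω) (a0 : Fin (N + 1)), x a0 = 1 → (∀ m, aeval x (q m) = 0) →
      Algebra.trdeg K (Algebra.adjoin K (Set.range x)) ≤ n)
    {h : Fin (N + 1) → Ω} (hh : h ≠ 0) {ν : Fin c → Ω}
    (h1 : ∀ i, ν i * pv B κ q C (a i) h = 0)
    (h2 : ∀ j, ∑ i, ν i * pd B κ q C (a i) h j = 0) : ν = 0 := by
  by_cases hz : ∀ m, aeval h (q m) = 0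
  · exact smo_in hq hκ hs hind hrank htr hh hz h1 h2
  · push Not at hz
    obtain ⟨m0, hm0⟩ := hz
    exact smo_out hq hκ hs hind hm0 h1 h2

end smo

end Pool.Agent.U207.QC
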