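import Pool.Agent.U207.QC.Defs
import Pool.Agent.U207.QC.Smo3
import Pool.Agent.U207.QC.Pol

/-!
Project QC (helper207), part E1: the cover is smooth.
-/

set_option autoImplicit false

namespace Pool.Agent.U207.QC

open MvPolynomial

section idx

variable {N c : ℕ}

theorem hI_inj : Function.Injective (hI N c) := by
  intro i j h
  have := congrArg Fin.val h
  exact Fin.ext this

theorem xI_inj : Function.Injective (xI N c) := by
  intro i j h
  have h1 : N + 1 + (i : ℕ) = N + 1 + (j : ℕ) := congrArg Fin.val h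
  exact Fin.ext (by omega)

theorem hI_ne_xI (j : Fin (N + 1)) (i : Fin c) : hI N c j ≠ xI N c i := by
  intro h
  have h1 : (j : ℕ) = N + 1 + (i : ℕ) := congrArg Fin.val h
  have := j.2
  omega

theorem idx_cases (l : Fin (N + c + 1)) : (∃ j, l = hI N c j) ∨ ∃ i, l = xI N c i := by
  by_cases h : (l : ℕ) < N + 1
  · exact Or.inl ⟨⟨l, h⟩, Fin.ext rfl⟩
  · refine Or.inr ⟨⟨l - (N + 1), by have := l.2; omega⟩, Fin.ext ?_⟩
    change (l : ℕ) = N + 1 + ((l : ℕ) - (N + 1))
    omega

theorem pt_h {Ω : Type} (h : Fin (N + 1) → Ω) (x : Fin c → Ω) (j : Fin (N + 1)) :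
    pt h x (hI N c j) = h j := by
  unfold pt hI
  rw [dif_pos j.2]

theorem pt_x {Ω : Type} (h : Fin (N + 1) → Ω) (x : Fin c → Ω) (i : Fin c) :
    pt h x (xI N c i) = x i := by
  unfold pt xI
  rw [dif_neg (by simp only; omega)]
  congr 1
  exact Fin.ext (by simp)

theorem pt_hI {Ω : Type} (h : Fin (N + 1) → Ω) (x : Fin c → Ω) : pt h x ∘ hI N c = h :=
  funext fun j => pt_h h x j

theorem pt_eta {Ω : Type} (y : Fin (N + c + 1) → Ω) : pt (y ∘ hI N c) (y ∘ xI N c) = y := by
  funext l
  rcases idx_cases l with ⟨j, rfl⟩ | ⟨i, rfl⟩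
  · rw [pt_h]
    rfl
  · rw [pt_x]
    rfl

theorem pt_ne {Ω : Type} [Zero Ω] {h : Fin (N + 1) → Ω} (hh : h ≠ 0) (x : Fin c → Ω) :
    pt h x ≠ 0 := by
  intro h0
  apply hh
  rw [← pt_hI h x, h0]
  rfl

end idx

section eqs

variable {N c : ℕ} {P : Fin c → MvPolynomial (Fin (N + 1)) ℂ}

theorem aeval_cover {Ω : Type} [Field Ω] [Algebra ℂ Ω] (y : Fin (N + c + 1) → Ω) (i : Fin c) :
    aeval y (coverForm P i) = y (xI N c i) ^ 2 - aeval (y ∘ hI N c) (P i) := by
  unfold coverForm
  rw [map_sub, map_pow, aeval_X, aeval_rename]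

theorem eval_cover (y : Fin (N + c + 1) → ℂ) (i : Fin c) :
    eval y (coverForm P i) = y (xI N c i) ^ 2 - eval (y ∘ hI N c) (P i) := aeval_cover y i

theorem cover_hom (hP : ∀ i, (P i).IsHomogeneous 2) (i : Fin c) :
    (coverForm P i).IsHomogeneous 2 :=
  ((isHomogeneous_X ℂ _).pow 2).sub ((hP i).rename_isHomogeneous)

/-- the first coordinates of a point of `Y` are not all zero -/
theorem base_ne {Ω : Type} [Field Ω] [Algebra ℂ Ω] (hP : ∀ i, (P i).IsHomogeneous 2)
    {y : Fin (N + c + 1) → Ω} (hy : y ≠ 0) (h : ∀ i, aeval y (coverForm P i) = 0) :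
    y ∘ hI N c ≠ 0 := by
  intro h0
  apply hy
  funext l
  rcases idx_cases l with ⟨j, rfl⟩ | ⟨i, rfl⟩
  · exact congrFun h0 j
  · have h1 := h i
    rw [aeval_cover, h0] at h1
    have h2 : aeval (0 : Fin (N + 1) → Ω) (P i) = 0 := by
      have h3 := aeval_smul_two (hP i) (0 : Ω) (0 : Fin (N + 1) → Ω)
      rw [zero_pow (by norm_num), zero_mul] at h3
      convert h3 using 2
      simp
      rfl
    rw [h2, sub_zero] at h1
    exact eq_zero_of_pow_eq_zero h1

end eqs

section smooth

variable {K : Type} [Field K] [Algebra K ℂ] {N s c : ℕ} {ι : Type} [Fintype ι]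

/-- the forms `Q_t = ∑ C (t, m) q_m` -/
noncomputable def qf (q : ι → MvPolynomial (Fin (N + 1)) K) (C : Fin s × ι → ℂ) (t : Fin s) :
    MvPolynomial (Fin (N + 1)) ℂ := ∑ m, MvPolynomial.C (C (t, m)) * map (algebraMap K ℂ) (q m)

theorem qf_hom {q : ι → MvPolynomial (Fin (N + 1)) K} (hq : ∀ m, (q m).IsHomogeneous 2)
    (C : Fin s × ι → ℂ) (t : Fin s) : (qf q C t).IsHomogeneous 2 := by
  unfold qf
  refine IsHomogeneous.sum _ _ _ fun m _ => ?_
  have := (isHomogeneous_C (Fin (N + 1)) (C (t, m))).mul ((hq m).map (algebraMap K ℂ))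
  rwa [zero_add] at this

theorem qf_aeval {Ω : Type} [Field Ω] [Algebra ℂ Ω] [Algebra K Ω] [IsScalarTower K ℂ Ω]
    (q : ι → MvPolynomial (Fin (N + 1)) K) (C : Fin s × ι → ℂ) (t : Fin s)
    (h : Fin (N + 1) → Ω) :
    aeval h (qf q C t) = ∑ m, algebraMap ℂ Ω (C (t, m)) * aeval h (q m) := by
  unfold qf
  rw [map_sum]
  refine Finset.sum_congr rfl fun m _ => ?_
  rw [map_mul, aeval_C, aeval_map_algebraMap]

theorem pf_eval (B κ : ℕ) (q : ι → MvPolynomial (Fin (N + 1)) K) (C : Fin s × ι → ℂ) (a : ℂ)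
    (h : Fin (N + 1) → ℂ) : eval h (pf B κ (qf q C) a) = pv B κ q C a h := by
  unfold pf pv
  rw [map_add, map_pow, map_sum, map_sum]
  congr 1
  · congr 1
    exact Finset.sum_congr rfl fun j _ => by rw [map_mul, eval_C, eval_X]
  · refine Finset.sum_congr rfl fun t _ => ?_
    rw [map_mul, eval_C]
    congr 1
    exact qf_aeval q C t h

theorem pf_pderiv (B κ : ℕ) (q : ι → MvPolynomial (Fin (N + 1)) K) (C : Fin s × ι → ℂ) (a : ℂ)
    (h : Fin (N + 1) → ℂ) (j : Fin (N + 1)) :
    eval h (pderiv j (pf B κ (qf q C) a)) = pd B κ q C a h j := by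
  classical
  unfold pf pd
  rw [map_add, map_sum, map_add, map_sum]
  congr 1
  · have hd : pderiv j (∑ i : Fin (N + 1), MvPolynomial.C (a ^ (i : ℕ)) * X i :
        MvPolynomial (Fin (N + 1)) ℂ) = MvPolynomial.C (a ^ (j : ℕ)) := by
      rw [map_sum, Finset.sum_eq_single j]
      · rw [pderiv_C_mul, pderiv_X_self, mul_one]
      · intro i _ hi
        rw [pderiv_C_mul, pderiv_X_of_ne hi, mul_zero]
      · intro h
        exact absurd (Finset.mem_univ _) h
    rw [Derivation.leibniz_pow, hd]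
    simp only [smul_eq_mul, nsmul_eq_mul, map_mul, map_pow, map_sum, eval_C, eval_X,
      Nat.cast_ofNat, map_ofNat]
    norm_num
    ring
  · refine Finset.sum_congr rfl fun t _ => ?_
    rw [pderiv_C_mul, map_mul, eval_C]
    congr 1
    unfold qf
    rw [map_sum, map_sum]
    refine Finset.sum_congr rfl fun m _ => ?_
    rw [pderiv_C_mul, map_mul, eval_C, pderiv_map]
    congr 1
    exact aeval_map_algebraMap ℂ h (pderiv j (q m))

/-- **The cover is smooth.** -/
theorem cover_smooth [CharZero K] {B κ : ℕ} {q : ι → MvPolynomial (Fin (N + 1)) K}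
    {C : Fin s × ι → ℂ} {a : Fin c → ℂ} (hq : ∀ m, (q m).IsHomogeneous 2) (hκ : 1 ≤ κ)
    (hs : N + 1 ≤ s) (hind : AlgebraicIndependent K (Sum.elim a C)) {n : ℕ}
    (hrank : ∀ x : Fin (N + 1) → ℂ, x ≠ 0 → (∀ m, aeval x (q m) = 0) →
      n ≤ (Matrix.of fun (m : ι) (j : Fin (N + 1)) => (aeval x (pderiv j (q m)) : ℂ)).rank)
    (htr : ∀ (x : Fin (N + 1) → ℂ) (a0 : Fin (N + 1)), x a0 = 1 → (∀ m, aeval x (q m) = 0) →
      Algebra.trdeg K (Algebra.adjoin K (Set.range x)) ≤ n) :
    SmoothCover fun i => pf B κ (qf q C) (a i) := by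
  classical
  intro y hy hyP
  have hP : ∀ i, (pf B κ (qf q C) (a i)).IsHomogeneous 2 := fun i => pf_hom B κ (qf_hom hq C) _
  have hh := base_ne (P := fun i => pf B κ (qf q C) (a i)) hP hy hyP
  rw [Fintype.linearIndependent_iff]
  intro ν hν
  have hν' : ∀ l : Fin (N + c + 1), ∑ i, ν i * eval y (pderiv l
      (coverForm (fun i => pf B κ (qf q C) (a i)) i)) = 0 := by
    intro l
    have h1 := congrFun hν l
    simpa [Finset.sum_apply] using h1
  have hx : ∀ i, ν i * y (xI N c i) = 0 := by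
    intro i0
    have h1 := hν' (xI N c i0)
    have h2 : ∀ i, eval y (pderiv (xI N c i0)
        (coverForm (fun i => pf B κ (qf q C) (a i)) i)) =
        if i = i0 then 2 * y (xI N c i0) else 0 := by
      intro i
      unfold coverForm
      have h3 : pderiv (xI N c i0) (rename (hI N c) (pf B κ (qf q C) (a i))) = 0 := by
        apply pderiv_eq_zero_of_notMem_vars
        intro hmem
        obtain ⟨j, -, hj⟩ := Finset.mem_image.1 (vars_rename (hI N c) _ hmem)
        exact hI_ne_xI j i0 hj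
      rw [map_sub, h3, sub_zero, Derivation.leibniz_pow]
      by_cases hi : i = i0
      · subst hi
        rw [if_pos rfl, pderiv_X_self]
        simp
      · rw [if_neg hi, pderiv_X_of_ne fun h => hi (xI_inj h)]
        simp
    rw [Finset.sum_congr rfl fun i _ => by rw [h2 i]] at h1
    simp only [mul_ite, mul_zero, Finset.sum_ite_eq', Finset.mem_univ, if_true] at h1
    have h4 : 2 * (ν i0 * y (xI N c i0)) = 0 := by linear_combination h1
    exact (mul_eq_zero.1 h4).resolve_left two_ne_zero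
  have hz := smo_all (B := B) (κ := κ) hq hκ hs hind hrank htr hh (ν := ν) (fun i => by
      have h1 := hyP i
      rw [eval_cover, sub_eq_zero] at h1
      rw [← pf_eval, ← h1, pow_two, ← mul_assoc, hx i, zero_mul]) (fun j => by
      have h1 := hν' (hI N c j)
      have h2 : ∀ i, eval y (pderiv (hI N c j)
          (coverForm (fun i => pf B κ (qf q C) (a i)) i)) =
          - pd B κ q C (a i) (y ∘ hI N c) j := by
        intro i
        unfold coverForm
        rw [map_sub, pderiv_rename hI_inj, Derivation.leibniz_pow,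
          pderiv_X_of_ne fun h => hI_ne_xI j i h.symm, smul_zero, smul_zero, zero_sub, map_neg,
          eval_rename, pf_pderiv]
      rw [Finset.sum_congr rfl fun i _ => by rw [h2 i, mul_neg], Finset.sum_neg_distrib,
        neg_eq_zero] at h1
      exact h1)
  exact fun i => congrFun hz i

end smooth

end Pool.Agent.U207.QC
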