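import Mathlib
import Pool.Agent.N254.SQ.LocDefsQ
import Pool.Agent.N254.SQ.LocDefsSab

/-!
Covers of projective space branched along quadrics: definitions.
-/

set_option autoImplicit false

namespace Pool.Agent.U207.QC

open MvPolynomial Topology Filter
open scoped ComplexOrder
open Pool.Agent.N254.SQ (PolyEntire)

/-- the index of the coordinate `h_j` of `P^{N+c}`, with the coordinates
`h_0, …, h_N, x_0, …, x_{c-1}` -/
def hI (N c : ℕ) (j : Fin (N + 1)) : Fin (N + c + 1) := ⟨j, by omega⟩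

/-- the index of the coordinate `x_i` of `P^{N+c}` -/
def xI (N c : ℕ) (i : Fin c) : Fin (N + c + 1) := ⟨N + 1 + i, by omega⟩

/-- the quadratic form `x_i ^ 2 - P_i(h_0, …, h_N)` -/
noncomputable def coverForm {N c : ℕ} (P : Fin c → MvPolynomial (Fin (N + 1)) ℂ) (i : Fin c) :
    MvPolynomial (Fin (N + c + 1)) ℂ :=
  X (xI N c i) ^ 2 - rename (hI N c) (P i)

/-- the equations of `Y = {x_i ^ 2 = P_i(h), i < c}` in `P^{N+c}`: the covering of `P^N` with group
`(ℤ/2)^c` branched along the quadrics `P_i = 0` -/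
noncomputable def coverEqs {N c : ℕ} (P : Fin c → MvPolynomial (Fin (N + 1)) ℂ) :
    Set (MvPolynomial (Fin (N + c + 1)) ℂ) := Set.range (coverForm P)

/-- `Y` is a smooth complete intersection of `c` quadrics: at all points of `Y` the gradients of the
`c` equations are linearly independent -/
def SmoothCover {N c : ℕ} (P : Fin c → MvPolynomial (Fin (N + 1)) ℂ) : Prop :=
  ∀ y : Fin (N + c + 1) → ℂ, y ≠ 0 → (∀ i, eval y (coverForm P i) = 0) →
    LinearIndependent ℂ fun (i : Fin c) (j : Fin (N + c + 1)) => eval y (pderiv j (coverForm P i))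

/-- the point with coordinates `h`, `x` -/
def pt {N c : ℕ} {Ω : Type} (h : Fin (N + 1) → Ω) (x : Fin c → Ω) : Fin (N + c + 1) → Ω := fun l =>
  if hl : (l : ℕ) < N + 1 then h ⟨l, hl⟩ else x ⟨l - (N + 1), by have := l.2; omega⟩

/-- `ℓ'` is obtained from `ℓ` by a choice of signs -/
def Signs {N c : ℕ} (ℓ ℓ' : Fin c → MvPolynomial (Fin (N + 1)) ℂ) : Prop :=
  ∀ i, ℓ' i = ℓ i ∨ ℓ' i = - ℓ i

/-- the restriction of the polynomial `G` on `P^{N+c}` to `P^N`, embedded by `x_i = ℓ_i(h)` -/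
noncomputable def sbl {N c : ℕ} (ℓ : Fin c → MvPolynomial (Fin (N + 1)) ℂ)
    (G : MvPolynomial (Fin (N + c + 1)) ℂ) : MvPolynomial (Fin (N + 1)) ℂ := aeval (pt X ℓ) G

/-- the pull-back of the polynomial `G` by the map `x ↦ (v(x), ℓ(v(x)))` from `P^n` to `P^{N+c}`, `v` the
Veronese map -/
noncomputable def onSheet {n N c : ℕ} (m : Fin (N + 1) → Fin (n + 1) → ℕ)
    (ℓ : Fin c → MvPolynomial (Fin (N + 1)) ℂ) (G : MvPolynomial (Fin (N + c + 1)) ℂ) :
    MvPolynomial (Fin (n + 1)) ℂ :=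
  aeval (fun a => ∏ j, (X j : MvPolynomial (Fin (n + 1)) ℂ) ^ m a j) (sbl ℓ G)

/-- `ℂ^g / L` is an abelian variety: `L` is a lattice with a Riemann form -/
def IsAbelianLattice {g : ℕ} (L : AddSubgroup (Fin g → ℂ)) : Prop :=
  DiscreteTopology L ∧ Submodule.span ℝ (L : Set (Fin g → ℂ)) = ⊤ ∧
    ∃ H : Matrix (Fin g) (Fin g) ℂ, H.PosDef ∧
      ∀ l ∈ L, ∀ l' ∈ L, ∃ k : ℤ, (star l ⬝ᵥ H.mulVec l').im = k

/-- the meromorphic map to `P^n` with the vector of homogeneous coordinates `F` (holomorphic near `p`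
and not identically zero near `p`) is defined at `p`, and its value at `p` is not in `V(T)` -/
def ValueOff {n : ℕ} (T : Set (MvPolynomial (Fin (n + 1)) ℂ)) {E : Type} [NormedAddCommGroup E]
    [NormedSpace ℂ E] (F : E → Fin (n + 1) → ℂ) (p : E) : Prop :=
  ∃ g : E → Fin (n + 1) → ℂ, AnalyticAt ℂ g p ∧ g p ≠ 0 ∧
    (∀ᶠ q in 𝓝 p, ∀ i j, F q i * g q j = F q j * g q i) ∧ ∃ H ∈ T, eval (g p) H ≠ 0

/-- A nonconstant rational map `f` from a semi-abelian variety `A` to `V(S) ∖ V(T)`, regular on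
a Zariski open subset whose complement has codimension at least two. Here `A` is the quotient of
`ℂ^g × (ℂ^*)^r` by the lattice `L`, where `l` acts by `(z, t) ↦ (z + l, χ(l) t)`, for a character `χ`
from `L` to `(ℂ^*)^r`: the extension of the abelian variety `ℂ^g / L` by `(ℂ^*)^r` given by `χ`.
`f` has homogeneous coordinates `F` which are polynomials in `t` with entire functions of `z` as
coefficients, and the set of the points at which `f` is not defined or takes values in `V(T)` is empty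
or of real dimension less than `2 (g + r) - 2`. -/
structure SabMap {n : ℕ} (S T : Set (MvPolynomial (Fin (n + 1)) ℂ)) (g r : ℕ)
    (L : AddSubgroup (Fin g → ℂ)) (χ : L → Fin r → ℂ)
    (F : (Fin g → ℂ) × (Fin r → ℂ) → Fin (n + 1) → ℂ) : Prop where
  lattice : IsAbelianLattice L
  unit : ∀ l i, χ l i ≠ 0
  char : ∀ l l' i, χ (l + l') i = χ l i * χ l' i
  entire : ∀ j, (fun p => F p j) ∈ PolyEntire g r
  mem : ∀ p, ∀ q ∈ S, eval (F p) q = 0
  equiv : ∀ (z : Fin g → ℂ) (t : Fin r → ℂ) (l : L) (i j : Fin (n + 1)),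
    F (z + l, χ l * t) i * F (z, t) j = F (z + l, χ l * t) j * F (z, t) i
  nonconst : ∃ p p' i j, F p i * F p' j ≠ F p j * F p' i
  codim : {p : (Fin g → ℂ) × (Fin r → ℂ) | (∀ i, p.2 i ≠ 0) ∧ ¬ ValueOff T F p} = ∅ ∨
    dimH {p : (Fin g → ℂ) × (Fin r → ℂ) | (∀ i, p.2 i ≠ 0) ∧ ¬ ValueOff T F p} + 2 <
      2 * ((g + r : ℕ) : ENNReal)

/-- `G` vanishes on `Sp_sab(V(S) ∖ V(T))`, the Zariski closure of the union of the images of the
nonconstant rational maps from semi-abelian varieties to `V(S) ∖ V(T)` which are regular outside of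
closed subsets of codimension at least two -/
def OnSabQ {n : ℕ} (S T : Set (MvPolynomial (Fin (n + 1)) ℂ)) (G : MvPolynomial (Fin (n + 1)) ℂ) :
    Prop :=
  ∀ (g r : ℕ) (L : AddSubgroup (Fin g → ℂ)) (χ : L → Fin r → ℂ)
    (F : (Fin g → ℂ) × (Fin r → ℂ) → Fin (n + 1) → ℂ), SabMap S T g r L χ F →
      ∀ p, eval (F p) G = 0

end Pool.Agent.U207.QC
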