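import Mathlib
import Pool.Agent.H135R2.VS.Der

/-!
Project QC (helper207), part A: polynomials `ℓ ^ 2 + T ^ B S (T ^ κ)` which are the product of a square
and of a polynomial over a subfield.
-/

set_option autoImplicit false

namespace Pool.Agent.U207.QC

open Polynomial

section der

variable {K : Type} [Field K] (D : Derivation ℤ K K)

/-- the derivation of the coefficients -/
noncomputable def dd (p : K[X]) : K[X] := ∑ i ∈ p.support, monomial i (D (p.coeff i))

theorem dd_coeff (p : K[X]) (i : ℕ) : (dd D p).coeff i = D (p.coeff i) := by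
  unfold dd
  rw [finsetSum_coeff]
  simp only [coeff_monomial]
  rw [Finset.sum_ite_eq' p.support i]
  split_ifs with h
  · rfl
  · rw [notMem_support_iff.1 h, map_zero]

theorem dd_add (p q : K[X]) : dd D (p + q) = dd D p + dd D q := by
  ext i
  rw [coeff_add, dd_coeff, dd_coeff, dd_coeff, coeff_add, map_add]

theorem dd_sub (p q : K[X]) : dd D (p - q) = dd D p - dd D q := by
  ext i
  rw [coeff_sub, dd_coeff, dd_coeff, dd_coeff, coeff_sub, map_sub]

theorem dd_mul (p q : K[X]) : dd D (p * q) = p * dd D q + q * dd D p := by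
  ext i
  rw [coeff_add, dd_coeff, coeff_mul, map_sum, coeff_mul, mul_comm q, coeff_mul,
    ← Finset.sum_add_distrib]
  refine Finset.sum_congr rfl fun x _ => ?_
  rw [Derivation.leibniz, dd_coeff, dd_coeff, smul_eq_mul, smul_eq_mul]
  ring

theorem dd_C (a : K) : dd D (C a) = C (D a) := by
  ext i
  rw [dd_coeff, coeff_C, coeff_C]
  split_ifs
  · rfl
  · exact map_zero D

theorem dd_X_pow (n : ℕ) : dd D (X ^ n) = 0 := by
  ext i
  rw [dd_coeff, coeff_X_pow, coeff_zero]
  split_ifs
  · exact Derivation.map_one_eq_zero D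
  · exact map_zero D

theorem dd_natDegree (p : K[X]) : (dd D p).natDegree ≤ p.natDegree := by
  rw [natDegree_le_iff_coeff_eq_zero]
  intro i hi
  rw [dd_coeff, coeff_eq_zero_of_natDegree_lt hi, map_zero]

theorem dd_expand (κ : ℕ) (hκ : 0 < κ) (S : K[X]) :
    dd D (expand K κ S) = expand K κ (dd D S) := by
  ext i
  rw [dd_coeff, coeff_expand hκ, coeff_expand hκ]
  split_ifs
  · rw [dd_coeff]
  · exact map_zero D

theorem coeff_mul_expand {κ : ℕ} (hκ : 0 < κ) {p S : K[X]} (hp : p.natDegree < κ) {i : ℕ}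
    (hi : i < κ) (m : ℕ) : (p * expand K κ S).coeff (i + κ * m) = p.coeff i * S.coeff m := by
  rw [coeff_mul, Finset.sum_eq_single (i, κ * m)]
  · rw [coeff_expand hκ, if_pos ⟨m, rfl⟩, Nat.mul_div_cancel_left _ hκ]
  · rintro ⟨a, b⟩ hab hne
    rw [Finset.HasAntidiagonal.mem_antidiagonal] at hab
    rw [coeff_expand hκ]
    by_cases hb : κ ∣ b
    · by_cases ha : κ ≤ a
      · rw [coeff_eq_zero_of_natDegree_lt (lt_of_lt_of_le hp ha), zero_mul]
      · exfalso
        obtain ⟨c, rfl⟩ := hb
        apply hne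
        have h1 : a % κ = i % κ := by
          have h2 := congrArg (· % κ) hab
          simpa [Nat.add_mul_mod_self_left] using h2
        rw [Nat.mod_eq_of_lt (not_le.1 ha), Nat.mod_eq_of_lt hi] at h1
        subst h1
        have h3 : κ * c = κ * m := by omega
        rw [h3]
    · rw [if_neg hb, mul_zero]
  · intro h
    exact absurd (Finset.HasAntidiagonal.mem_antidiagonal.2
      (rfl : (i, κ * m).1 + (i, κ * m).2 = i + κ * m)) h

/-- the powers of `X` in a product -/
theorem X_pow_dvd {a b : K[X]} {B k : ℕ} (h : X ^ B ∣ a * b) (ha : ¬ X ^ (k + 1) ∣ a) :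
    X ^ (B - k) ∣ b := by
  by_cases ha0 : a = 0
  · exact absurd (by rw [ha0]; exact dvd_zero _) ha
  obtain ⟨j, g, hg, hag⟩ : ∃ (j : ℕ) (g : K[X]), ¬ X ∣ g ∧ a = X ^ j * g := by
    obtain ⟨j, g, hg, hag⟩ := WfDvdMonoid.max_power_factor ha0 (irreducible_X (R := K))
    exact ⟨j, g, hg, hag⟩
  have hj : j ≤ k := by
    by_contra hcon
    apply ha
    rw [hag]
    exact dvd_mul_of_dvd_left (pow_dvd_pow _ (by omega)) _
  have h1 : X ^ (B - k) ∣ g * b := by
    by_cases hBk : B ≤ k
    · rw [Nat.sub_eq_zero_of_le hBk, pow_zero]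
      exact one_dvd _
    · rw [hag, mul_assoc] at h
      have h2 : (X : K[X]) ^ B = X ^ j * X ^ (B - j) := by
        rw [← pow_add]
        congr 1
        omega
      rw [h2] at h
      exact (pow_dvd_pow _ (by omega)).trans
        ((mul_dvd_mul_iff_left (pow_ne_zero _ X_ne_zero)).1 h)
  exact Prime.pow_dvd_of_dvd_mul_left prime_X _ hg h1

/-- **Lemma A.** -/
theorem der_ratio [CharZero K] {ℓ q H' S : K[X]} {u : K} {N B κ : ℕ} (hℓN : ℓ.natDegree ≤ N)
    (hℓ : ℓ ≠ 0) (hκ : N < κ) (hS : S ≠ 0) (hH' : dd D H' = 0)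
    (heq : C u * q ^ 2 * H' = ℓ ^ 2 + X ^ B * expand K κ S)
    (hB : q.natDegree + 3 * N < B) (i j : ℕ) :
    ℓ.coeff j * D (ℓ.coeff i) = ℓ.coeff i * D (ℓ.coeff j) := by
  have hκ0 : 0 < κ := by omega
  obtain ⟨E', hE⟩ : ∃ E', E' = expand K κ S := ⟨_, rfl⟩
  rw [← hE] at heq
  -- the derivative of the equation
  have h1 : C (D u) * q ^ 2 * H' + 2 * C u * q * dd D q * H' =
      2 * ℓ * dd D ℓ + X ^ B * dd D E' := by
    have h2 := congrArg (dd D) heq
    rw [dd_mul, dd_mul, hH', dd_C, pow_two, dd_mul, dd_add, pow_two, dd_mul, dd_mul,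
      dd_X_pow] at h2
    linear_combination h2
  obtain ⟨W, hW⟩ : ∃ W, W = 2 * C u * q * dd D ℓ - ℓ * (C (D u) * q + 2 * C u * dd D q) := ⟨_, rfl⟩
  have h2 : q * H' * W = X ^ B * (2 * E' * dd D ℓ - ℓ * dd D E') := by
    rw [hW]
    linear_combination 2 * dd D ℓ * heq - ℓ * h1
  have h3 : ¬ X ^ (2 * N + 1) ∣ q * H' := by
    intro h
    have h4 : X ^ (2 * N + 1) ∣ ℓ ^ 2 := by
      have h5 : ℓ ^ 2 = C u * q * (q * H') - X ^ B * E' := by linear_combination -heq
      rw [h5]
      exact dvd_sub (dvd_mul_of_dvd_right h _)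
        (dvd_mul_of_dvd_left (pow_dvd_pow _ (by omega)) _)
    have h5 := natDegree_le_of_dvd h4 (pow_ne_zero 2 hℓ)
    rw [natDegree_X_pow, natDegree_pow] at h5
    omega
  have h4 : X ^ (B - 2 * N) ∣ W := X_pow_dvd ⟨_, h2⟩ h3
  have h5 : W = 0 := by
    by_contra hW0
    have h6 := natDegree_le_of_dvd h4 hW0
    rw [natDegree_X_pow] at h6
    have h7 : W.natDegree ≤ q.natDegree + N := by
      rw [hW]
      refine (natDegree_sub_le _ _).trans (max_le ?_ ?_)
      · refine natDegree_mul_le.trans ?_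
        have e1 : (2 * C u * q).natDegree ≤ q.natDegree := by
          have : (2 * C u * q : K[X]) = C (2 * u) * q := by
            rw [C_mul]
            rfl
          rw [this]
          exact natDegree_C_mul_le _ _
        have e2 := dd_natDegree D ℓ
        omega
      · refine natDegree_mul_le.trans ?_
        have e1 : (C (D u) * q + 2 * C u * dd D q).natDegree ≤ q.natDegree := by
          refine (natDegree_add_le _ _).trans (max_le (natDegree_C_mul_le _ _) ?_)
          have : (2 * C u * dd D q : K[X]) = C (2 * u) * dd D q := by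
            rw [C_mul]
            rfl
          rw [this]
          exact (natDegree_C_mul_le _ _).trans (dd_natDegree D q)
        omega
    omega
  have h6 : 2 * E' * dd D ℓ = ℓ * dd D E' := by
    rw [h5, mul_zero] at h2
    have h7 := (mul_eq_zero.1 h2.symm).resolve_left (pow_ne_zero B X_ne_zero)
    exact sub_eq_zero.1 h7
  -- the coefficients
  obtain ⟨m, hm⟩ : ∃ m, S.coeff m ≠ 0 := by
    by_contra hcon
    push Not at hcon
    exact hS (Polynomial.ext fun m => by rw [hcon m, coeff_zero])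
  have h7 : ∀ i, i < κ → 2 * S.coeff m * D (ℓ.coeff i) = ℓ.coeff i * D (S.coeff m) := by
    intro i hi
    have h8 : (dd D ℓ).natDegree < κ := by
      have := dd_natDegree D ℓ
      omega
    have h9 : (2 * expand K κ S * dd D ℓ : K[X]).coeff (i + κ * m) =
        (ℓ * expand K κ (dd D S)).coeff (i + κ * m) := by
      rw [← dd_expand D κ hκ0, ← hE, h6]
    have e1 : (2 * expand K κ S * dd D ℓ : K[X]) = C 2 * (dd D ℓ * expand K κ S) := by
      rw [show (C 2 : K[X]) = 2 from rfl]
      ring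
    rw [e1, coeff_C_mul, coeff_mul_expand hκ0 h8 hi, coeff_mul_expand hκ0 (by omega) hi,
      dd_coeff, dd_coeff] at h9
    linear_combination h9
  by_cases hi : i < κ
  · by_cases hj : j < κ
    · have h8 := h7 i hi
      have h9 := h7 j hj
      have h10 : 2 * S.coeff m ≠ 0 := mul_ne_zero two_ne_zero hm
      apply mul_left_cancel₀ h10
      linear_combination ℓ.coeff j * h8 - ℓ.coeff i * h9
    · rw [coeff_eq_zero_of_natDegree_lt (show ℓ.natDegree < j by omega), map_zero, zero_mul,
        mul_zero]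
  · rw [coeff_eq_zero_of_natDegree_lt (show ℓ.natDegree < i by omega), map_zero, zero_mul,
      mul_zero]

end der

/-- derivations over an algebraically closed subfield -/
theorem mem_of_der {k K : Type} [Field k] [Field K] [Algebra k K] [CharZero k]
    (F : IntermediateField k K) (hF : ∀ x : K, IsAlgebraic F x → x ∈ F) (x : K)
    (h : ∀ D : Derivation ℤ K K, (∀ a ∈ F, D a = 0) → D x = 0) : x ∈ F := by
  by_contra hx
  have hchF : CharZero F := charZero_of_injective_algebraMap (algebraMap k F).injective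
  have h1 : Transcendental F x := fun h2 => hx (hF x h2)
  have h2 : AlgebraicIndependent F (fun _ : Unit => x) := by
    rw [algebraicIndependent_unique_type_iff]
    exact h1
  obtain ⟨D, hD⟩ := Pool.Agent.H135R2.VS.exists_der h2 (fun _ => 1)
  have h3 := h (D.restrictScalars ℤ) (fun a ha => by
    change D a = 0
    exact D.map_algebraMap (⟨a, ha⟩ : F))
  have h4 : D x = 0 := h3
  rw [hD ()] at h4
  exact one_ne_zero h4

/-- **Lemma B.** -/
theorem ratio_mem {k K : Type} [Field k] [Field K] [Algebra k K] [CharZero k]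
    (F : IntermediateField k K) (hF : ∀ x : K, IsAlgebraic F x → x ∈ F) {ℓ q S : K[X]} {u : K}
    {H' : F[X]} {N B κ : ℕ} (hℓN : ℓ.natDegree ≤ N) (hℓ : ℓ ≠ 0) (hκ : N < κ) (hS : S ≠ 0)
    (heq : C u * q ^ 2 * H'.map (algebraMap F K) = ℓ ^ 2 + X ^ B * expand K κ S)
    (hB : q.natDegree + 3 * N < B) (i j : ℕ) : ℓ.coeff i / ℓ.coeff j ∈ F := by
  have hchK : CharZero K := charZero_of_injective_algebraMap (algebraMap k K).injective
  by_cases hj : ℓ.coeff j = 0
  · rw [hj, div_zero]
    exact F.zero_mem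
  refine mem_of_der F hF _ fun D hD => ?_
  have h1 := der_ratio D hℓN hℓ hκ hS (H' := H'.map (algebraMap F K)) (by
    ext i
    rw [dd_coeff, coeff_map, coeff_zero]
    exact hD _ (H'.coeff i).2) heq hB i j
  have h2 : D (ℓ.coeff i) = D (ℓ.coeff i / ℓ.coeff j * ℓ.coeff j) := by
    rw [div_mul_cancel₀ _ hj]
  rw [Derivation.leibniz, smul_eq_mul, smul_eq_mul] at h2
  rw [h2] at h1
  have h3 : ℓ.coeff j * ℓ.coeff j * D (ℓ.coeff i / ℓ.coeff j) = 0 := by
    have e : ℓ.coeff j * (ℓ.coeff i / ℓ.coeff j) = ℓ.coeff i := mul_div_cancel₀ _ hj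
    linear_combination h1 - D (ℓ.coeff j) * e
  exact (mul_eq_zero.1 h3).resolve_left (mul_ne_zero hj hj)

end Pool.Agent.U207.QC
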