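import Pool.Agent.U207.QC.Good

/-!
Project QC (helper207), part E3: from punctured discs to the field of meromorphic functions.
-/

set_option autoImplicit false

namespace Pool.Agent.U207.QC

open MvPolynomial Metric Filter Topology
open Pool.Agent.N254.SQ (Extends)
open Pool.Agent.Y190.AN (MK exD Minf cl cl_eq cl_eq_zero cl_mul)
open Pool.Agent.W602.GT (val)

theorem disc_open : IsOpen (ball (0 : ℂ) 1 \ {0}) := isOpen_ball.sdiff isClosed_singleton

theorem inv_mem_ext {w : ℂ} (hw : w ∈ ball (0 : ℂ) 1 \ {0}) :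
    w⁻¹ ∈ (exD 1 one_pos).U := Pool.Agent.Y190.AN.inv_mem_ext (Pool.Agent.W603.BP.mem_disc.1 hw)

theorem inv_mem_disc {z : ℂ} (hz : z ∈ (exD 1 one_pos).U) : z⁻¹ ∈ ball (0 : ℂ) 1 \ {0} := by
  have hz1 : 1 < ‖z‖ := hz
  have hz0 : z ≠ 0 := by
    rintro rfl
    rw [norm_zero] at hz1
    linarith
  refine ⟨?_, inv_ne_zero hz0⟩
  rw [mem_ball_zero_iff, norm_inv]
  exact inv_lt_one_of_one_lt₀ hz1

theorem an_inv {f : ℂ → ℂ} (hf : DifferentiableOn ℂ f (ball 0 1 \ {0})) {z : ℂ}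
    (hz : z ∈ (exD 1 one_pos).U) : AnalyticAt ℂ (fun z => f z⁻¹) z := by
  have hz' := inv_mem_disc hz
  have hz0 : z ≠ 0 := by
    rintro rfl
    rw [inv_zero] at hz'
    exact hz'.2 rfl
  exact AnalyticAt.comp' (f := fun z : ℂ => z⁻¹) (g := f)
    (hf.analyticAt (disc_open.mem_nhds hz')) (analyticAt_inv hz0)

/-- the class of a function on the punctured disc -/
theorem cl_zero_iff {f : ℂ → ℂ} (hf : DifferentiableOn ℂ f (ball 0 1 \ {0}))
    (h : MeromorphicOn (fun z => f z⁻¹) (exD 1 one_pos).U) :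
    cl (fun z => f z⁻¹) h = 0 ↔ ∀ w ∈ ball (0 : ℂ) 1 \ {0}, f w = 0 := by
  rw [cl_eq_zero]
  constructor
  · intro h1 w hw
    have h2 := h1 w⁻¹ (inv_mem_ext hw)
    have h3 := (an_inv hf (inv_mem_ext hw)).frequently_zero_iff_eventually_zero.1 h2.frequently
    have h4 := h3.self_of_nhds
    rwa [inv_inv] at h4
  · intro h1 z hz
    have h2 : ∀ᶠ w in 𝓝 z, w ∈ (exD 1 one_pos).U := (exD 1 one_pos).op.mem_nhds hz
    filter_upwards [nhdsWithin_le_nhds h2] with w hw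
    exact h1 _ (inv_mem_disc hw)

/-- a holomorphic vector on the punctured disc as a vector of meromorphic functions -/
theorem disc_vec {M : ℕ} {f : ℂ → Fin (M + 1) → ℂ}
    (hf : DifferentiableOn ℂ f (ball 0 1 \ {0})) (hne : ∃ w ∈ ball (0 : ℂ) 1 \ {0}, f w ≠ 0) :
    ∃ y : Fin (M + 1) → MK (exD 1 one_pos), y ≠ 0 ∧
      (∀ G : MvPolynomial (Fin (M + 1)) ℂ, aeval y G = 0 ↔
        ∀ w ∈ ball (0 : ℂ) 1 \ {0}, eval (f w) G = 0) ∧
      ((∃ j0, y j0 ≠ 0 ∧ ∀ i, y i / y j0 ∈ Minf 1 one_pos) → Extends f) := by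
  have hfi : ∀ i, DifferentiableOn ℂ (fun w => f w i) (ball 0 1 \ {0}) := fun i =>
    differentiableOn_pi.1 hf i
  have hM : ∀ i, MeromorphicOn (fun z => f z⁻¹ i) (exD 1 one_pos).U := fun i z hz =>
    (an_inv (hfi i) hz).meromorphicAt
  set y : Fin (M + 1) → MK (exD 1 one_pos) := fun i => cl _ (hM i) with hy
  have hy0 : ∀ i, y i = 0 ↔ ∀ w ∈ ball (0 : ℂ) 1 \ {0}, f w i = 0 := fun i =>
    cl_zero_iff (hfi i) (hM i)
  refine ⟨y, ?_, ?_, ?_⟩
  · obtain ⟨w, hw, hfw⟩ := hne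
    intro h0
    apply hfw
    funext i
    exact (hy0 i).1 (congrFun h0 i) w hw
  · intro G
    have h1 : aeval y G = cl (fun z => eval (fun i => f z⁻¹ i) G)
        (Pool.Agent.Y190.AN.eval_mero G hM) :=
      Pool.Agent.Y190.AN.val_cl G hM (Pool.Agent.Y190.AN.eval_mero G hM)
    rw [h1]
    exact cl_zero_iff (f := fun w => eval (f w) G)
      (Pool.Agent.N254.SQ.diff_evalOn G hf) _
  · rintro ⟨j0, hj0, hr⟩
    have hE := (Pool.Agent.N254.SQ.t_ext M f hf hne).2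
    apply hE
    rintro i l ⟨w1, hw1, hfw1⟩
    have hl0 : y l ≠ 0 := fun h => hfw1 ((hy0 l).1 h w1 hw1)
    have hmem : y i / y l ∈ Minf 1 one_pos := by
      have h1 : y i / y l = (y i / y j0) / (y l / y j0) := by
        field_simp
      rw [h1]
      exact div_mem (hr i) (hr l)
    obtain ⟨g, hg, hgx, hgi⟩ := hmem
    have hrel : ∀ z ∈ (exD 1 one_pos).U, ∀ᶠ w in 𝓝[≠] z, f w⁻¹ i = g w * f w⁻¹ l := by
      have h1 : cl _ (hM i) = cl (g * fun z => f z⁻¹ l) (hg.mul (hM l)) := by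
        rw [← cl_mul hg (hM l), hgx]
        exact (div_mul_cancel₀ _ hl0).symm
      exact cl_eq.1 h1
    refine ⟨fun w => g w⁻¹, hgi, ?_⟩
    filter_upwards [hgi.eventually_analyticAt, Pool.Agent.W603.BP.PB_mem one_pos] with w hw hwP
    have hwD : w ∈ ball (0 : ℂ) 1 \ {0} := Pool.Agent.W603.BP.mem_disc.2 hwP
    have h1 : Tendsto (fun v : ℂ => v⁻¹) (𝓝[≠] w) (𝓝[≠] w⁻¹) := by
      refine tendsto_nhdsWithin_iff.2 ⟨(continuousAt_inv₀ hwP.1).tendsto.mono_left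
        nhdsWithin_le_nhds, ?_⟩
      filter_upwards [self_mem_nhdsWithin] with v hv
      intro h0
      exact hv (inv_injective h0)
    have h2 := h1.eventually (hrel w⁻¹ (inv_mem_ext hwD))
    simp only [inv_inv] at h2
    have h3 : AnalyticAt ℂ (fun v => f v i - g v⁻¹ * f v l) w :=
      ((hfi i).analyticAt (disc_open.mem_nhds hwD)).fun_sub
        (hw.fun_mul ((hfi l).analyticAt (disc_open.mem_nhds hwD)))
    have h4 := h3.frequently_zero_iff_eventually_zero.1 (Filter.Eventually.frequently (by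
      filter_upwards [h2] with v hv
      rw [hv, sub_self]))
    exact sub_eq_zero.1 h4.self_of_nhds

/-- **Punctured discs in the cover extend or are in the zero set of the forms `Q_t`.** -/
theorem disc_or {N s c : ℕ} {Q : Fin s → MvPolynomial (Fin (N + 1)) ℂ}
    (hQ : ∀ t, (Q t).IsHomogeneous 2) {B κ : ℕ} (hκ : N < κ) (hB : 6 * N + κ * s < B)
    {a : Fin c → ℂ} (ha : Function.Injective a) {M : ℕ} (hM : 4 * (B + κ * s) < M + 1)
    (hc : M + 1 + (B + κ * s) ≤ c) {f : ℂ → Fin (N + c + 1) → ℂ}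
    (hf : DiscIn (fun i => pf B κ Q (a i)) f) :
    Extends f ∨ ∀ t, ∀ w ∈ ball (0 : ℂ) 1 \ {0}, eval (f w ∘ hI N c) (Q t) = 0 := by
  obtain ⟨y, hy0, hyG, hyE⟩ := disc_vec hf.hol hf.ne
  have hcov : ∀ i, aeval y (coverForm (fun i => pf B κ Q (a i)) i) = 0 := fun i =>
    (hyG _).2 fun w hw => hf.mem w hw i
  have hh : y ∘ hI N c ≠ 0 := base_ne (fun i => pf_hom B κ hQ (a i)) hy0 hcov
  have hx : ∀ i, (y ∘ xI N c) i ^ 2 = aeval (y ∘ hI N c) (pf B κ Q (a i)) := by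
    intro i
    have h1 := hcov i
    rw [aeval_cover, sub_eq_zero] at h1
    exact h1
  rcases minf_or hQ hκ hB ha hM hc hh hx with ⟨j0, hj0, h1, h2⟩ | h1
  · left
    apply hyE
    refine ⟨hI N c j0, hj0, fun l => ?_⟩
    rcases idx_cases l with ⟨j, rfl⟩ | ⟨i, rfl⟩
    · exact h1 j
    · exact h2 i
  · right
    intro t w hw
    have h2 := h1 t
    rw [← aeval_rename] at h2
    have h3 := (hyG _).1 h2 w hw
    rwa [eval_rename] at h3

end Pool.Agent.U207.QC
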