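import Pool.Agent.U207.QC.Dsc
import Pool.Agent.U207.QC.Bas
import Pool.Agent.N254.SQ.Td

/-!
Project QC (helper207), part E4: existence of the cover.
-/

set_option autoImplicit false

namespace Pool.Agent.U207.QC

open MvPolynomial Metric Filter Topology
open Pool.Agent.N254.SQ (IsForm Extends Mon ver)
open Pool.Agent.W602.GT (SubVar GeneralType coords)

section field

variable {K : Type} [Field K] [Algebra K ℂ] [CharZero K] {n N d : ℕ}
  {m : Fin (N + 1) → Fin (n + 1) → ℕ} {S : Set (MvPolynomial (Fin (n + 1)) ℂ)}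
  {κ : Type} [Finite κ] {F : κ → MvPolynomial (Fin (n + 1)) K}

/-- the quadratic forms of the Veronese image, with a generic matrix -/
theorem exists_forms (hm : Mon n N d m) (hd : 1 ≤ d) (hN : 2 * n < N) {g : κ → ℕ}
    (hF : ∀ k, (F k).IsHomogeneous (g k)) (hg : ∀ k, g k ≤ d)
    (hSF : ∀ (L : Type) [Field L] [Algebra ℂ L] (x : Fin (n + 1) → L), (∀ p ∈ S, aeval x p = 0) ↔
      ∀ k, aeval x (map (algebraMap K ℂ) (F k)) = 0) :
    ∃ (r : ℕ) (b : Fin r → MvPolynomial (Fin (N + 1)) K), r ≤ (N + 1) ^ 2 ∧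
      (∀ i, (b i).IsHomogeneous 2) ∧
      (∀ x : Fin (N + 1) → ℂ, x ≠ 0 → (∀ i, aeval x (b i) = 0) →
        n ≤ (Matrix.of fun (i : Fin r) (j : Fin (N + 1)) => (aeval x (pderiv j (b i)) : ℂ)).rank) ∧
      (∀ (x : Fin (N + 1) → ℂ) (a0 : Fin (N + 1)), x a0 = 1 → (∀ i, aeval x (b i) = 0) →
        Algebra.trdeg K (Algebra.adjoin K (Set.range x)) ≤ n) ∧
      ∀ (s : ℕ) (C : Fin s × Fin r → ℂ), r ≤ s → AlgebraicIndependent K C →
        (∀ (L : Type) [Field L] [Algebra ℂ L] (x : Fin (n + 1) → L), (∀ p ∈ S, aeval x p = 0) →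
          ∀ t, aeval (ver m x) (qf b C t) = 0) ∧
        ∀ (L : Type) [Field L] [Algebra ℂ L] (y : Fin (N + 1) → L), y ≠ 0 →
          (∀ t, aeval y (qf b C t) = 0) → ∃ (x : Fin (n + 1) → L) (c₀ : L), x ≠ 0 ∧ c₀ ≠ 0 ∧
            (∀ p ∈ S, aeval x p = 0) ∧ y = c₀ • ver m x := by
  obtain ⟨ι, iF, q, hq, hq1, hq2⟩ := Pool.Agent.N254.SQ.t_ver K n N d m hm hd κ F g hF hg
  obtain ⟨r, b, hr, hb, hqb, hrank⟩ := red_basis q hq
  refine ⟨r, b, hr, hb, ?_, ?_, ?_⟩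
  · intro x hx hxb
    obtain ⟨h1, -⟩ := hq2 ℂ x hx ((hqb ℂ x).2 hxb)
    have h2 := hrank ℂ x
    omega
  · intro x a0 hxa hxb
    have hx : x ≠ 0 := by
      intro h0
      rw [h0] at hxa
      exact zero_ne_one hxa
    obtain ⟨-, z, a, b', hza, hxb', hxz, -⟩ := hq2 ℂ x hx ((hqb ℂ x).2 hxb)
    refine Pool.Agent.N254.SQ.td_scale Pool.Agent.N254.SQ.t_td z a hza (ver m z) x
      (fun c => ⟨∏ j, X j ^ m c j, ?_⟩) a0 (fun c => ?_)
    · rw [map_prod]
      unfold ver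
      exact Finset.prod_congr rfl fun j _ => by rw [map_pow, aeval_X]
    · have h1 := hxz a0
      rw [hxa] at h1
      have h2 : ver m z a0 ≠ 0 := by
        intro h0
        rw [h0, mul_zero] at h1
        exact one_ne_zero h1
      rw [hxz c, eq_div_iff h2]
      linear_combination (- ver m z c) * h1
  · intro s C hs hC
    refine ⟨?_, ?_⟩
    · intro L _ _ x hx t
      let _ : Algebra K L := ((algebraMap ℂ L).comp (algebraMap K ℂ)).toAlgebra
      have _ : IsScalarTower K ℂ L := IsScalarTower.of_algebraMap_eq fun _ => rfl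
      have h1 : ∀ k, aeval x (F k) = 0 := by
        intro k
        have h2 := (hSF L x).1 hx k
        rwa [aeval_map_algebraMap] at h2
      have h3 := (hqb L (ver m x)).1 (hq1 L x h1)
      rw [qf_aeval]
      exact Finset.sum_eq_zero fun l _ => by rw [h3 l, mul_zero]
    · intro L _ _ y hy hyt
      let _ : Algebra K L := ((algebraMap ℂ L).comp (algebraMap K ℂ)).toAlgebra
      have _ : IsScalarTower K ℂ L := IsScalarTower.of_algebraMap_eq fun _ => rfl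
      have h1 : (fun l => aeval y (b l)) = 0 := by
        refine generic_cols (s := s) (by rwa [Fintype.card_fin]) hC fun t => ?_
        rw [← qf_aeval]
        exact hyt t
      obtain ⟨-, z, a, b', hza, hyb', hyz, hzF⟩ := hq2 L y hy ((hqb L y).2 fun l => congrFun h1 l)
      refine ⟨z, y b', ?_, hyb', ?_, funext hyz⟩
      · intro h0
        rw [h0] at hza
        exact zero_ne_one hza
      · rw [hSF]
        intro k
        rw [aeval_map_algebraMap]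
        exact hzF k

end field

/-- the linear form `Σ_j a^j h_j` -/
noncomputable def lf {N : ℕ} (a : ℂ) : MvPolynomial (Fin (N + 1)) ℂ :=
  ∑ j : Fin (N + 1), C (a ^ (j : ℕ)) * X j

theorem lf_hom {N : ℕ} (a : ℂ) : (lf a : MvPolynomial (Fin (N + 1)) ℂ).IsHomogeneous 1 := by
  unfold lf
  refine IsHomogeneous.sum _ _ _ fun j _ => ?_
  have := (isHomogeneous_C (Fin (N + 1)) (a ^ (j : ℕ))).mul (isHomogeneous_X ℂ j)
  rwa [zero_add] at this

theorem pf_sub {N s : ℕ} {B κ : ℕ} {Q : Fin s → MvPolynomial (Fin (N + 1)) ℂ} {a : ℂ}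
    {L : Type} [Field L] [Algebra ℂ L] {y : Fin (N + 1) → L} (h : ∀ t, aeval y (Q t) = 0) :
    aeval y (pf B κ Q a) = aeval y (lf a) ^ 2 := by
  unfold pf lf
  have h1 : aeval y (∑ t : Fin s, C (a ^ (B + κ * (t : ℕ))) * Q t) = 0 := by
    rw [map_sum]
    exact Finset.sum_eq_zero fun t _ => by rw [map_mul, h t, mul_zero]
  rw [map_add, h1, add_zero, map_pow]

/-- the number of quadrics -/
def cN (N : ℕ) : ℕ := (2 * (N + 1) ^ 3 + 6 * N + 5) ^ 2

theorem subvar_gen {N c : ℕ} {L : Type} [Field L] [Algebra ℂ L] {y : Fin (N + c + 1) → L}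
    (hy : coords ℂ y = ⊤) (F : IntermediateField ℂ L) (j0 : Fin (N + 1))
    (hj0 : (y ∘ hI N c) j0 ≠ 0) (h1 : ∀ i, (y ∘ hI N c) i / (y ∘ hI N c) j0 ∈ F)
    (h2 : ∀ i, (y ∘ xI N c) i / (y ∘ hI N c) j0 ∈ F) : F = ⊤ := by
  rw [eq_top_iff, ← hy]
  apply IntermediateField.adjoin_le_iff.2
  rintro _ ⟨i, j, hj, rfl⟩
  have h3 : ∀ l, y l / (y ∘ hI N c) j0 ∈ F := by
    intro l
    rcases idx_cases l with ⟨j, rfl⟩ | ⟨i, rfl⟩
    · exact h1 j
    · exact h2 i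
  have h4 : y i / y j = (y i / (y ∘ hI N c) j0) / (y j / (y ∘ hI N c) j0) := by
    rw [div_div_div_cancel_right₀ hj0]
  rw [h4]
  exact div_mem (h3 i) (h3 j)

/-- **Existence of the cover.** -/
theorem exists_cover {n N d : ℕ} {m : Fin (N + 1) → Fin (n + 1) → ℕ} (hn : 1 ≤ n) (hd : 3 ≤ d)
    (hm : Mon n N d m) (hN : 2 * n < N) (S : Set (MvPolynomial (Fin (n + 1)) ℂ))
    (hS : ∀ p ∈ S, ∃ e ≤ d, p.IsHomogeneous e) (c : ℕ) (hc : cN N ≤ c) :
    ∃ P ℓ : Fin c → MvPolynomial (Fin (N + 1)) ℂ, SmoothCover P ∧ GoodC n N d c m S P ℓ := by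
  classical
  obtain ⟨T, hT, hTS⟩ := Pool.Agent.N254.SQ.reduce S
  obtain ⟨K, hK, F, g, hF, hFg, hg⟩ := exists_field (d := d) T fun p hp => hS p (hT hp)
  have hSF : ∀ (L : Type) [Field L] [Algebra ℂ L] (x : Fin (n + 1) → L),
      (∀ p ∈ S, aeval x p = 0) ↔ ∀ k, aeval x (map (algebraMap K ℂ) (F k)) = 0 := by
    intro L _ _ x
    constructor
    · intro hx k
      rw [hF k]
      exact hx _ (hT k.2)
    · intro hx p hp
      have h1 := hTS L (algebraMap ℂ L) x (fun p hp => by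
        rw [eval_map]
        have h2 := hx ⟨p, hp⟩
        rw [hF] at h2
        exact h2) p hp
      rw [eval_map] at h1
      exact h1
  obtain ⟨r, b, hr, hb, hrank, htr, hgen⟩ := exists_forms (S := S) hm (by omega) hN hFg hg hSF
  obtain ⟨s, hs⟩ : ∃ s, s = (N + 1) ^ 2 := ⟨_, rfl⟩
  rw [← hs] at hr
  obtain ⟨y, hy⟩ := exists_generic hK (Fin c ⊕ (Fin s × Fin r))
  obtain ⟨a, ha⟩ : ∃ a : Fin c → ℂ, a = y ∘ Sum.inl := ⟨_, rfl⟩
  obtain ⟨C, hC⟩ : ∃ C : Fin s × Fin r → ℂ, C = y ∘ Sum.inr := ⟨_, rfl⟩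
  have hyaC : y = Sum.elim a C := by
    rw [ha, hC]
    exact (Sum.elim_comp_inl_inr y).symm
  have hCind : AlgebraicIndependent K C := by
    rw [hC]
    exact hy.comp _ Sum.inr_injective
  have hainj : Function.Injective a := by
    rw [ha]
    exact hy.injective.comp Sum.inl_injective
  rw [hyaC] at hy
  obtain ⟨hQ0, hQ1⟩ := hgen s C hr hCind
  obtain ⟨κ, hκ⟩ : ∃ κ, κ = N + 1 := ⟨_, rfl⟩
  obtain ⟨B, hB⟩ : ∃ B, B = 6 * N + κ * s + 1 := ⟨_, rfl⟩
  obtain ⟨D, hD⟩ : ∃ D, D = B + κ * s := ⟨_, rfl⟩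
  have hDN : D = 2 * (N + 1) ^ 3 + 6 * N + 1 := by
    rw [hD, hB, hs, hκ]
    ring
  have hs1 : N + 1 ≤ s := by
    rw [hs]
    nlinarith
  have hcD : (D + 4) ^ 2 ≤ c := by
    refine le_trans (le_of_eq ?_) hc
    rw [hDN]
    unfold cN
    ring
  obtain ⟨M, hM⟩ : ∃ M, M = 4 * D + (D + 1) ^ 2 := ⟨_, rfl⟩
  have hcM : M + 1 + D ≤ c := by
    refine le_trans ?_ hcD
    rw [hM]
    nlinarith
  have hcM' : M + 1 + (B + κ * s) ≤ c := by
    rw [← hD]
    exact hcM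
  have hM1 : 4 * (B + κ * s) + (B + κ * s + 1) ^ 2 < 2 * (M + 1) := by
    rw [← hD, hM]
    omega
  have hM2 : 4 * (B + κ * s) < M + 1 := by
    rw [← hD, hM]
    omega
  have hQ := qf_hom hb C
  have hP : ∀ i, (pf B κ (qf b C) (a i)).IsHomogeneous 2 := fun i => pf_hom B κ hQ (a i)
  have hpts : ∀ y : Fin (N + 1) → ℂ, y ≠ 0 → (∀ t, eval y (qf b C t) = 0) →
      ∃ x : Fin (n + 1) → ℂ, x ≠ 0 ∧ (∀ p ∈ S, eval x p = 0) ∧ y = ver m x := by
    intro y hy hyt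
    obtain ⟨x, c₀, hx, hc₀, hxS, hyx⟩ := hQ1 ℂ y hy hyt
    obtain ⟨c₁, hc₁⟩ := IsAlgClosed.exists_pow_nat_eq c₀ (by omega : 0 < d)
    have hc₁0 : c₁ ≠ 0 := by
      rintro rfl
      rw [zero_pow (by omega)] at hc₁
      exact hc₀ hc₁.symm
    refine ⟨c₁ • x, smul_ne_zero hc₁0 hx, fun p hp => ?_, ?_⟩
    · obtain ⟨e, -, he⟩ := hS p hp
      rw [Pool.Agent.N254.SQ.eval_scale he]
      have h1 : eval x p = 0 := hxS p hp
      rw [h1, mul_zero]
    · rw [hyx, Pool.Agent.N254.SQ.ver_smul hm, hc₁]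
  have hdisc : ∀ f, DiscIn (fun i => pf B κ (qf b C) (a i)) f → Extends f ∨
      ∀ w ∈ ball (0 : ℂ) 1 \ {0}, f w ≠ 0 → ∃ x : Fin (n + 1) → ℂ, x ≠ 0 ∧
        (∀ p ∈ S, eval x p = 0) ∧ f w ∘ hI N c = ver m x := by
    intro f hf
    rcases disc_or hQ (by omega : N < κ) (by omega) hainj hM2 hcM' hf with h | h
    · exact Or.inl h
    · right
      intro w hw hfw
      exact hpts _ (base_ne (fun i => pf_hom B κ hQ (a i)) hfw fun i => hf.mem w hw i)
        fun t => h t w hw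
  refine ⟨fun i => pf B κ (qf b C) (a i), fun i => lf (a i), ?_, hn, hd, hm, hN, hS, hP,
    fun i => lf_hom (a i), ?_, ⟨s, qf b C, hQ, hQ0, hQ1⟩, ?_, ?_, ?_⟩
  · exact cover_smooth hb (by omega) hs1 hy hrank htr
  · intro L _ _ x hx i
    exact pf_sub (hQ0 L x hx)
  · intro L _ _ w z hw hz
    have hcov : ∀ i, aeval z (coverForm (fun i => pf B κ (qf b C) (a i)) i) = 0 := fun i =>
      hz.mem ⟨_, ⟨i, rfl⟩⟩
    have hh : z ∘ hI N c ≠ 0 := base_ne (fun i => pf_hom B κ hQ (a i)) hz.ne hcov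
    have hx : ∀ i, (z ∘ xI N c) i ^ 2 = aeval (z ∘ hI N c) (pf B κ (qf b C) (a i)) := by
      intro i
      have h1 := hcov i
      rw [aeval_cover, sub_eq_zero] at h1
      exact h1
    rcases general_or hQ (by omega : N < κ) (by omega) hainj hM1 hcM' hh hx
      (fun F j0 hj0 h1 h2 => subvar_gen hz.gen F j0 hj0 h1 h2) hz.dim with h | h
    · exact Or.inl h
    · exact Or.inr (hQ1 L _ hh h)
  · exact hdisc
  · exact curves_of_discs (R := fun v => ∃ x : Fin (n + 1) → ℂ, x ≠ 0 ∧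
      (∀ p ∈ S, eval x p = 0) ∧ v ∘ hI N c = ver m x) hdisc

end Pool.Agent.U207.QC
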