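import Mathlib

/-!
Project QC (helper207): generic complex numbers, and fields of definition.
-/

set_option autoImplicit false

namespace Pool.Agent.U207.QC

open MvPolynomial

/-- algebraically independent complex numbers over a countable field -/
theorem exists_generic {K : Type} [Field K] [Algebra K ℂ] (hK : Cardinal.mk K ≤ Cardinal.aleph0)
    (σ : Type) [Finite σ] : ∃ y : σ → ℂ, AlgebraicIndependent K y := by
  classical
  obtain ⟨s, hs⟩ := exists_isTranscendenceBasis K ℂ
  have hinf : Infinite s := by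
    by_contra hfin
    rw [not_infinite_iff_finite] at hfin
    have h1 := IsAlgClosed.cardinal_le_max_transcendence_basis' _ hs
    have h2 : Cardinal.mk s ≤ Cardinal.aleph0 := (Cardinal.lt_aleph0_of_finite s).le
    have h3 : Cardinal.mk ℂ ≤ Cardinal.aleph0 := h1.trans (max_le (max_le hK h2) le_rfl)
    rw [Cardinal.mk_complex] at h3
    exact absurd h3 (not_le.2 Cardinal.aleph0_lt_continuum)
  obtain ⟨n, ⟨en⟩⟩ := Finite.exists_equiv_fin σ
  let emb : σ → s := fun i => Infinite.natEmbedding s (en i)
  have hemb : Function.Injective emb := fun i j h => by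
    have h1 := (Infinite.natEmbedding s).injective h
    exact en.injective (Fin.ext h1)
  exact ⟨fun i => (emb i : ℂ), hs.1.comp emb hemb⟩

/-- a finite set of forms is defined over a countable field -/
theorem exists_field {n : ℕ} (T : Finset (MvPolynomial (Fin (n + 1)) ℂ)) {d : ℕ}
    (hT : ∀ p ∈ T, ∃ e ≤ d, p.IsHomogeneous e) :
    ∃ (K : Subfield ℂ), Cardinal.mk K ≤ Cardinal.aleph0 ∧
      ∃ (F : T → MvPolynomial (Fin (n + 1)) K) (e : T → ℕ),
        (∀ p, map (algebraMap K ℂ) (F p) = p) ∧ (∀ p, (F p).IsHomogeneous (e p)) ∧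
        ∀ p, e p ≤ d := by
  classical
  set A : Set ℂ := ⋃ p ∈ T, (p.coeffs : Set ℂ) with hA
  have hAc : A.Countable := Set.Countable.biUnion T.countable_toSet fun p _ =>
    p.coeffs.countable_toSet
  set K := Subfield.closure A with hK
  have hmk : Cardinal.mk K ≤ Cardinal.aleph0 := by
    refine (Subfield.cardinalMk_closure_le_max _).trans ?_
    exact max_le (Cardinal.mk_le_aleph0_iff.2 hAc) le_rfl
  have hex : ∀ p : T, ∃ F : MvPolynomial (Fin (n + 1)) K, map (algebraMap K ℂ) F = p := by
    intro p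
    have h1 : ((p : MvPolynomial (Fin (n + 1)) ℂ).coeffs : Set ℂ) ⊆ Set.range (algebraMap K ℂ) := by
      intro x hx
      have h2 : x ∈ K := Subfield.subset_closure (Set.mem_biUnion p.2 hx)
      exact ⟨⟨x, h2⟩, rfl⟩
    exact mem_range_map_iff_coeffs_subset.2 h1
  choose F hF using hex
  have hhom : ∀ p : T, ∃ e, (F p).IsHomogeneous e ∧ e ≤ d := by
    intro p
    obtain ⟨e, he, hpe⟩ := hT p p.2
    refine ⟨e, ?_, he⟩
    rw [← hF p] at hpe
    exact IsHomogeneous.of_map (algebraMap K ℂ).injective hpe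
  choose e he hed using hhom
  exact ⟨K, hmk, F, e, hF, he, hed⟩

/-- a generic matrix has independent columns -/
theorem generic_cols {K : Type} [Field K] [Algebra K ℂ] {s : ℕ} {ι : Type} [Fintype ι]
    (hs : Fintype.card ι ≤ s) {C : Fin s × ι → ℂ} (hC : AlgebraicIndependent K C)
    {Ω : Type} [Field Ω] [Algebra ℂ Ω] {v : ι → Ω}
    (hv : ∀ t, ∑ m, algebraMap ℂ Ω (C (t, m)) * v m = 0) : v = 0 := by
  classical
  let e : ι ↪ Fin s := (Fintype.equivFin ι).toEmbedding.trans (Fin.castLEEmb hs)
  set M : Matrix ι ι ℂ := Matrix.of fun i m => C (e i, m) with hM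
  have hinj : Function.Injective fun p : ι × ι => (e p.1, p.2) := by
    rintro ⟨i, j⟩ ⟨i', j'⟩ h
    have h1 := congrArg Prod.fst h
    have h2 := congrArg Prod.snd h
    exact Prod.ext (e.injective h1) h2
  have hind := hC.comp _ hinj
  have hdet : M.det ≠ 0 := by
    intro h0
    have h1 : aeval (fun p : ι × ι => C (e p.1, p.2))
        (Matrix.mvPolynomialX ι ι K).det = M.det := by
      rw [AlgHom.map_det]
      congr 1
      ext i j
      rw [AlgHom.mapMatrix_apply, Matrix.map_apply, Matrix.mvPolynomialX_apply, aeval_X]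
      rfl
    have h2 := algebraicIndependent_iff.1 hind _ (h1.trans h0)
    exact Matrix.det_mvPolynomialX_ne_zero ι K h2
  have hdet' : (M.map (algebraMap ℂ Ω)).det ≠ 0 := by
    rw [← RingHom.mapMatrix_apply, ← RingHom.map_det]
    exact (map_ne_zero _).2 hdet
  refine Matrix.eq_zero_of_mulVec_eq_zero hdet' ?_
  funext i
  exact hv (e i)

end Pool.Agent.U207.QC
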