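import Pool.Agent.U207.QC.Pol

/-!
Project QC (helper207), part C: points of the cover `x_i ^ 2 = P_i(h)` with values in function fields and
in fields of meromorphic functions.
-/

set_option autoImplicit false

namespace Pool.Agent.U207.QC

open Polynomial

section ratios

variable {k : Type} [Field k] {K : Type} [Field K] [Algebra k K] {N s : ℕ}

theorem hp_ne {B κ : ℕ} (hB : 2 * N < B) (Q : Fin s → MvPolynomial (Fin (N + 1)) k)
    {h : Fin (N + 1) → K} (hh : h ≠ 0) : hp B κ Q h ≠ 0 := by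
  intro h0
  unfold hp at h0
  have h1 : X ^ B ∣ lp h ^ 2 := ⟨- expand K κ (sp Q h), by linear_combination h0⟩
  have h2 := natDegree_le_of_dvd h1 (pow_ne_zero 2 (lp_ne hh))
  rw [natDegree_X_pow, natDegree_pow] at h2
  have := lp_natDegree h
  omega

/-- all ratios of the coordinates are in `F` -/
theorem all_ratios [CharZero k] (F : IntermediateField k K)
    (hF : ∀ x : K, IsAlgebraic F x → x ∈ F) {Q : Fin s → MvPolynomial (Fin (N + 1)) k}
    (hQ : ∀ t, (Q t).IsHomogeneous 2) {B κ : ℕ} (hκ : N < κ) (hB : 6 * N + κ * s < B)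
    {h : Fin (N + 1) → K} (hh : h ≠ 0) (hS : sp Q h ≠ 0) {q : K[X]} {u : K} {H' : F[X]}
    (heq : hp B κ Q h = q ^ 2 * (C u * H'.map (algebraMap F K))) :
    ∃ j0, h j0 ≠ 0 ∧ (∀ i, h i / h j0 ∈ F) ∧
      ∀ (a : k) (x : K), x ^ 2 = MvPolynomial.aeval h (pf B κ Q a) → x / h j0 ∈ F := by
  obtain ⟨j0, hj0⟩ : ∃ j0, h j0 ≠ 0 := by
    by_contra hcon
    push Not at hcon
    exact hh (funext hcon)
  have hne := hp_ne (κ := κ) (by omega : 2 * N < B) Q hh
  have hdeg := hp_natDegree (κ := κ) (by omega : 2 * N ≤ B) Q h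
  have hq : 2 * q.natDegree ≤ B + κ * s := by
    have h1 := natDegree_le_of_dvd (Dvd.intro _ heq.symm) hne
    rw [natDegree_pow] at h1
    omega
  have hrat : ∀ i, h i / h j0 ∈ F := by
    intro i
    have h1 := ratio_mem F hF (lp_natDegree h) (lp_ne hh) hκ hS (q := q) (u := u) (H' := H')
      (B := B) (by
        rw [show lp h ^ 2 + X ^ B * expand K κ (sp Q h) = hp B κ Q h from rfl, heq]
        ring) (by omega) i j0
    rwa [lp_coeff, lp_coeff] at h1
  refine ⟨j0, hj0, hrat, fun a x hx => hF _ ?_⟩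
  have h1 : (x / h j0) ^ 2 ∈ F := by
    have h2 : (x / h j0) ^ 2 = MvPolynomial.aeval (fun i => h i / h j0) (pf B κ Q a) := by
      have h3 := aeval_smul_two (pf_hom B κ hQ a) ((h j0)⁻¹) h
      have h4 : (fun j => (h j0)⁻¹ * h j) = fun i => h i / h j0 := by
        funext i
        rw [div_eq_mul_inv, mul_comm]
      rw [h4] at h3
      rw [h3, ← hx, div_pow, inv_pow, div_eq_mul_inv, mul_comm]
    rw [h2]
    have h3 : MvPolynomial.aeval (fun i => h i / h j0) (pf B κ Q a) =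
        algebraMap F K (MvPolynomial.aeval (fun i => (⟨h i / h j0, hrat i⟩ : F)) (pf B κ Q a)) := by
      rw [← MvPolynomial.aeval_algebraMap_apply]
      rfl
    rw [h3]
    exact SetLike.coe_mem _
  exact IsAlgebraic.of_pow (by norm_num : 0 < 2) (isAlgebraic_algebraMap (⟨_, h1⟩ : F))

/-- polynomials whose coefficients have their ratios in `F` -/
theorem exists_lift (F : IntermediateField k K) {H : K[X]} {j0 : ℕ} (hj0 : H.coeff j0 ≠ 0)
    (h : ∀ i, H.coeff i / H.coeff j0 ∈ F) :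
    ∃ H' : F[X], H = C (H.coeff j0) * H'.map (algebraMap F K) := by
  refine ⟨∑ i ∈ H.support, monomial i (⟨H.coeff i / H.coeff j0, h i⟩ : F), ?_⟩
  ext i
  rw [coeff_C_mul, coeff_map, finsetSum_coeff]
  simp only [coeff_monomial]
  rw [Finset.sum_ite_eq' H.support i]
  split_ifs with hi
  · change _ = H.coeff j0 * (H.coeff i / H.coeff j0)
    rw [mul_div_cancel₀ _ hj0]
  · rw [map_zero, mul_zero, notMem_support_iff.1 hi]

end ratios

section alg

open Pool.Agent.W602.GT

variable {k : Type} [Field k] [IsAlgClosed k] [CharZero k] {K : Type} [Field K] [Algebra k K]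
  {N s c w : ℕ}

/-- **Function fields.** -/
theorem general_or {Q : Fin s → MvPolynomial (Fin (N + 1)) k}
    (hQ : ∀ t, (Q t).IsHomogeneous 2) {B κ : ℕ} (hκ : N < κ) (hB : 6 * N + κ * s < B)
    {a : Fin c → k} (ha : Function.Injective a)
    {M : ℕ} (hM : 4 * (B + κ * s) + (B + κ * s + 1) ^ 2 < 2 * (M + 1))
    (hc : M + 1 + (B + κ * s) ≤ c) {h : Fin (N + 1) → K} (hh : h ≠ 0) {x : Fin c → K}
    (hx : ∀ i, x i ^ 2 = MvPolynomial.aeval h (pf B κ Q (a i)))
    (hgen : ∀ F : IntermediateField k K, (∀ j0, h j0 ≠ 0 → (∀ i, h i / h j0 ∈ F) →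
      (∀ i, x i / h j0 ∈ F) → F = ⊤))
    (hw : Algebra.trdeg k K = w) :
    GeneralType k K w ∨ ∀ t, MvPolynomial.aeval h (Q t) = 0 := by
  by_cases hS : sp Q h = 0
  · exact Or.inr (sp_eq_zero.1 hS)
  left
  have hchK : CharZero K := charZero_of_injective_algebraMap (algebraMap k K).injective
  have hne := hp_ne (κ := κ) (by omega : 2 * N < B) Q hh
  have hdeg := hp_natDegree (κ := κ) (by omega : 2 * N ≤ B) Q h
  obtain ⟨q, H₁, hH, hfree⟩ := exists_sq _ (hp B κ Q h) hne le_rfl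
  have hq0 : q ≠ 0 := by
    rintro rfl
    exact hne (by rw [hH]; ring)
  have hH₁ : H₁ ≠ 0 := by
    rintro rfl
    exact hne (by rw [hH, mul_zero])
  have hdd : 2 * q.natDegree + H₁.natDegree ≤ B + κ * s := by
    have h1 := congrArg natDegree hH
    rw [natDegree_mul (pow_ne_zero 2 hq0) hH₁, natDegree_pow] at h1
    omega
  obtain ⟨j0, hj0⟩ : ∃ j0, H₁.coeff j0 ≠ 0 := by
    by_contra hcon
    push Not at hcon
    exact hH₁ (Polynomial.ext fun j => by rw [hcon j, coeff_zero])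
  set E := IntermediateField.adjoin k {x | ∃ i j, x = H₁.coeff i / H₁.coeff j} with hE
  obtain ⟨F1, hF1⟩ : ∃ F1, F1 = algebraicClosure E K := ⟨_, rfl⟩
  set F : IntermediateField k K := F1.restrictScalars k with hFd
  have hmem : ∀ x : K, x ∈ F ↔ IsAlgebraic E x := by
    intro x
    rw [hFd, hF1]
    exact mem_algebraicClosure_iff
  have hEF : ∀ x ∈ E, x ∈ F := fun x hx => (hmem x).2 (isAlgebraic_algebraMap (⟨x, hx⟩ : E))
  have hF : ∀ x : K, IsAlgebraic F x → x ∈ F := by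
    intro x hx
    rw [hmem]
    have h1 : IsAlgebraic F1 x := hx
    have h2 : Algebra.IsAlgebraic E F1 := by
      rw [hF1]
      exact algebraicClosure.isAlgebraic E K
    exact h1.restrictScalars E
  obtain ⟨H', hH'⟩ := exists_lift F hj0 fun i => hEF _ (IntermediateField.subset_adjoin k _
    ⟨i, j0, rfl⟩)
  obtain ⟨i0, hi0, hr1, hr2⟩ := all_ratios F hF hQ hκ hB hh hS (q := q) (u := H₁.coeff j0)
    (H' := H') (by rw [← hH']; exact hH)
  have htop := hgen F i0 hi0 hr1 fun i => hr2 (a i) (x i) (hx i)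
  have halg : Algebra.IsAlgebraic (Algebra.adjoin k {x | ∃ i j, x = H₁.coeff i / H₁.coeff j})
      K := by
    rw [← IntermediateField.isAlgebraic_adjoin_iff_top]
    refine ⟨fun x => ?_⟩
    rw [← hmem, htop]
    exact IntermediateField.mem_top
  obtain ⟨e, he, heq⟩ := exists_nodes (K := K) (M := M + 1) (n := B + κ * s) ha hq0 (by omega) hc
  refine Pool.Agent.Y190.BV.general_of_log (Pool.Agent.Y190.BV.core_rad hw (m := 2)
    (n := B + κ * s) le_rfl hM (fun i => a (e i)) (fun i j hij => he (ha hij)) H₁ hH₁ (by omega)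
    halg (fun i => ?_) hfree)
  refine ⟨x (e i) / q.eval (algebraMap k K (a (e i))), ?_⟩
  have h1 := hp_eval B κ Q h (a (e i))
  rw [← hx, hH, eval_mul, eval_pow] at h1
  rw [div_pow, ← h1, mul_comm, mul_div_assoc, div_self (pow_ne_zero 2 (heq i)), mul_one]

end alg

section an

open Pool.Agent.Y190.AN

variable {N s c : ℕ} {r0 : ℝ} {hr0 : 0 < r0}

/-- **Meromorphic functions near infinity.** -/
theorem minf_or {Q : Fin s → MvPolynomial (Fin (N + 1)) ℂ}
    (hQ : ∀ t, (Q t).IsHomogeneous 2) {B κ : ℕ} (hκ : N < κ) (hB : 6 * N + κ * s < B)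
    {a : Fin c → ℂ} (ha : Function.Injective a) {M : ℕ} (hM : 4 * (B + κ * s) < M + 1)
    (hc : M + 1 + (B + κ * s) ≤ c) {h : Fin (N + 1) → MK (exD r0 hr0)} (hh : h ≠ 0)
    {x : Fin c → MK (exD r0 hr0)}
    (hx : ∀ i, x i ^ 2 = MvPolynomial.aeval h (pf B κ Q (a i))) :
    (∃ j0, h j0 ≠ 0 ∧ (∀ i, h i / h j0 ∈ Minf r0 hr0) ∧ ∀ i, x i / h j0 ∈ Minf r0 hr0) ∨
      ∀ t, MvPolynomial.aeval h (Q t) = 0 := by
  by_cases hS : sp Q h = 0
  · exact Or.inr (sp_eq_zero.1 hS)
  left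
  have hne := hp_ne (κ := κ) (by omega : 2 * N < B) Q hh
  have hdeg := hp_natDegree (κ := κ) (by omega : 2 * N ≤ B) Q h
  obtain ⟨q, H₁, hH, hfree⟩ := exists_sq _ (hp B κ Q h) hne le_rfl
  have hq0 : q ≠ 0 := by
    rintro rfl
    exact hne (by rw [hH]; ring)
  have hH₁ : H₁ ≠ 0 := by
    rintro rfl
    exact hne (by rw [hH, mul_zero])
  have hdd : 2 * q.natDegree + H₁.natDegree ≤ B + κ * s := by
    have h1 := congrArg natDegree hH
    rw [natDegree_mul (pow_ne_zero 2 hq0) hH₁, natDegree_pow] at h1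
    omega
  obtain ⟨e, he, heq⟩ := exists_nodes (K := MK (exD r0 hr0)) (M := M + 1) (n := B + κ * s) ha hq0
    (by omega) hc
  obtain ⟨u, H', hu, hH'⟩ := pow_Minf (m := 2) (n := B + κ * s) le_rfl hM (fun i => a (e i))
    (fun i j hij => he (ha hij)) H₁ hH₁ (by omega) (fun i => by
      refine ⟨x (e i) / q.eval (algebraMap ℂ (MK (exD r0 hr0)) (a (e i))), ?_⟩
      have h1 := hp_eval B κ Q h (a (e i))
      rw [← hx, hH, eval_mul, eval_pow] at h1
      rw [div_pow, ← h1, mul_comm, mul_div_assoc, div_self (pow_ne_zero 2 (heq i)), mul_one])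
    hfree
  obtain ⟨i0, hi0, hr1, hr2⟩ := all_ratios (Minf r0 hr0) (fun x hx => Minf_closed hx) hQ hκ hB hh
    hS (q := q) (u := u) (H' := H') (by rw [← hH']; exact hH)
  exact ⟨i0, hi0, hr1, fun i => hr2 (a i) (x i) (hx i)⟩

end an

end Pool.Agent.U207.QC
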