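import Pool.Agent.U207.QC.Cov
import Pool.Agent.U207.QC.Gnr
import Pool.Agent.U207.QC.Str
import Pool.Agent.N254.SQ.Ver
import Pool.Agent.N254.SQ.Red
import Pool.Agent.N254.SQ.ExtR
import Pool.Agent.N254.SQ.Locus
import Pool.Agent.Y190.AN.Pic

/-!
Project QC (helper207), part E2: the properties of the cover.
-/

set_option autoImplicit false

namespace Pool.Agent.U207.QC

open MvPolynomial Metric Filter Topology
open Pool.Agent.N254.SQ (IsForm Extends Mon ver)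
open Pool.Agent.W602.GT (SubVar GeneralType coords)

/-- holomorphic maps `f` from the punctured disc to the cone of `Y` -/
structure DiscIn {N c : ℕ} (P : Fin c → MvPolynomial (Fin (N + 1)) ℂ)
    (f : ℂ → Fin (N + c + 1) → ℂ) : Prop where
  hol : DifferentiableOn ℂ f (ball 0 1 \ {0})
  ne : ∃ w ∈ ball (0 : ℂ) 1 \ {0}, f w ≠ 0
  mem : ∀ w ∈ ball (0 : ℂ) 1 \ {0}, ∀ i, eval (f w) (coverForm P i) = 0

/-- The properties of the cover `Y = {x_i ^ 2 = P_i(h)}` with respect to `v(V(S))`, `v` the Veronese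
map: `P_i = ℓ_i ^ 2` on `v(V(S))`, and punctured discs, entire curves and subvarieties which are not
hyperbolic are over `v(V(S))`. -/
structure GoodC (n N d c : ℕ) (m : Fin (N + 1) → Fin (n + 1) → ℕ)
    (S : Set (MvPolynomial (Fin (n + 1)) ℂ)) (P ℓ : Fin c → MvPolynomial (Fin (N + 1)) ℂ) :
    Prop where
  hn : 1 ≤ n
  hd : 3 ≤ d
  mon : Mon n N d m
  hN : 2 * n < N
  hS : ∀ p ∈ S, ∃ e ≤ d, p.IsHomogeneous e
  homP : ∀ i, (P i).IsHomogeneous 2
  homL : ∀ i, (ℓ i).IsHomogeneous 1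
  sub : ∀ (L : Type) [Field L] [Algebra ℂ L] (x : Fin (n + 1) → L), (∀ p ∈ S, aeval x p = 0) →
    ∀ i, aeval (ver m x) (P i) = aeval (ver m x) (ℓ i) ^ 2
  cone : ∃ (s : ℕ) (Z : Fin s → MvPolynomial (Fin (N + 1)) ℂ), (∀ t, (Z t).IsHomogeneous 2) ∧
    (∀ (L : Type) [Field L] [Algebra ℂ L] (x : Fin (n + 1) → L), (∀ p ∈ S, aeval x p = 0) →
      ∀ t, aeval (ver m x) (Z t) = 0) ∧
    ∀ (L : Type) [Field L] [Algebra ℂ L] (y : Fin (N + 1) → L), y ≠ 0 →
      (∀ t, aeval y (Z t) = 0) → ∃ (x : Fin (n + 1) → L) (c₀ : L), x ≠ 0 ∧ c₀ ≠ 0 ∧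
        (∀ p ∈ S, aeval x p = 0) ∧ y = c₀ • ver m x
  special : ∀ (L : Type) [Field L] [Algebra ℂ L] (w : ℕ) (y : Fin (N + c + 1) → L), 1 ≤ w →
    SubVar (fun p : coverEqs P => (p : MvPolynomial (Fin (N + c + 1)) ℂ)) L w y →
    GeneralType ℂ L w ∨ ∃ (x : Fin (n + 1) → L) (c₀ : L), x ≠ 0 ∧ c₀ ≠ 0 ∧
      (∀ p ∈ S, aeval x p = 0) ∧ y ∘ hI N c = c₀ • ver m x
  discs : ∀ f, DiscIn P f → Extends f ∨ ∀ w ∈ ball (0 : ℂ) 1 \ {0}, f w ≠ 0 →
    ∃ x : Fin (n + 1) → ℂ, x ≠ 0 ∧ (∀ p ∈ S, eval x p = 0) ∧ f w ∘ hI N c = ver m x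
  curves : ∀ f : ℂ → Fin (N + c + 1) → ℂ, Differentiable ℂ f → (∀ z, f z ≠ 0) →
    (∀ z i, eval (f z) (coverForm P i) = 0) → (∀ z w, ∃ c : ℂ, f w = c • f z) ∨
      ∀ z, ∃ x : Fin (n + 1) → ℂ, x ≠ 0 ∧ (∀ p ∈ S, eval x p = 0) ∧ f z ∘ hI N c = ver m x

/-- an entire curve composed with `sin (1 / w)` has an essential singularity -/
theorem sin_const {n : ℕ} {f : ℂ → Fin (n + 1) → ℂ} (hf2 : ∀ z, f z ≠ 0)
    (h : Extends fun w => f (Complex.sin w⁻¹)) : ∀ z w, ∃ c : ℂ, f w = c • f z := by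
  obtain ⟨ε, hε, g, hg1, hg2, hg3⟩ := h
  have h0 : (0 : ℂ) ∈ ball (0 : ℂ) ε := mem_ball_self hε
  have hcont : ContinuousAt g 0 := (hg1.differentiableAt (isOpen_ball.mem_nhds h0)).continuousAt
  have key : ∀ s : ℂ, ∃ c : ℂ, g 0 = c • f s := by
    intro s
    obtain ⟨ζ, hζ⟩ := Complex.sin_surjective s
    let w : ℕ → ℂ := fun k => (ζ + k * (2 * Real.pi))⁻¹
    have hinf : Tendsto (fun k : ℕ => ‖ζ + k * (2 * (Real.pi : ℂ))‖) atTop atTop := by
      have h1 : Tendsto (fun k : ℕ => (k : ℝ) * (2 * Real.pi) - ‖ζ‖) atTop atTop := by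
        apply tendsto_atTop_add_const_right
        exact tendsto_natCast_atTop_atTop.atTop_mul_const (by positivity)
      apply tendsto_atTop_mono _ h1
      intro k
      have h2 : ‖(k : ℂ) * (2 * (Real.pi : ℂ))‖ = k * (2 * Real.pi) := by
        rw [norm_mul, norm_mul, Complex.norm_natCast, Complex.norm_real,
          Real.norm_of_nonneg Real.pi_pos.le]
        simp
      have h3 := norm_sub_norm_le ((k : ℂ) * (2 * (Real.pi : ℂ))) (-ζ)
      rw [norm_neg, sub_neg_eq_add, add_comm ((k : ℂ) * (2 * (Real.pi : ℂ))) ζ] at h3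
      linarith
    have hw0 : Tendsto w atTop (𝓝 0) := by
      rw [tendsto_zero_iff_norm_tendsto_zero]
      have : (fun k => ‖w k‖) = fun k : ℕ => ‖ζ + k * (2 * (Real.pi : ℂ))‖⁻¹ := by
        funext k
        simp only [w, norm_inv]
      rw [this]
      exact hinf.inv_tendsto_atTop
    have hsin : ∀ k : ℕ, Complex.sin (w k)⁻¹ = s := by
      intro k
      simp only [w, inv_inv]
      rw [Complex.sin_add_nat_mul_two_pi, hζ]
    have hev : ∀ᶠ k in atTop, w k ∈ ball (0 : ℂ) ε \ {0} := by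
      have h1 := hw0.eventually (isOpen_ball.mem_nhds h0)
      have h2 := hinf.eventually_gt_atTop 0
      filter_upwards [h1, h2] with k hk1 hk2
      refine ⟨hk1, ?_⟩
      intro h3
      have h4 : (ζ + k * (2 * (Real.pi : ℂ)))⁻¹ = 0 := h3
      rw [inv_eq_zero] at h4
      rw [h4, norm_zero] at hk2
      exact lt_irrefl _ hk2
    have hmem : ∀ᶠ k in atTop, g (w k) ∈ (Submodule.span ℂ {f s} : Set (Fin (n + 1) → ℂ)) := by
      filter_upwards [hev] with k hk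
      obtain ⟨c, hc⟩ := hg3 _ hk
      simp only [hsin] at hc
      have hc0 : c ≠ 0 := by
        intro h4
        rw [h4, zero_smul] at hc
        exact hf2 s hc
      change g (w k) ∈ Submodule.span ℂ {f s}
      rw [Submodule.mem_span_singleton]
      exact ⟨c⁻¹, by rw [hc, smul_smul, inv_mul_cancel₀ hc0, one_smul]⟩
    have hcl : IsClosed (Submodule.span ℂ {f s} : Set (Fin (n + 1) → ℂ)) :=
      Submodule.closed_of_finiteDimensional _
    have hlim := hcl.mem_of_tendsto (hcont.tendsto.comp hw0) hmem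
    have hlim' : g 0 ∈ Submodule.span ℂ {f s} := hlim
    rw [Submodule.mem_span_singleton] at hlim'
    obtain ⟨c, hc⟩ := hlim'
    exact ⟨c, hc.symm⟩
  intro s t
  obtain ⟨c, hc⟩ := key s
  obtain ⟨c', hc'⟩ := key t
  have hc0 : c' ≠ 0 := by
    intro h4
    rw [h4, zero_smul] at hc'
    exact hg2 0 h0 hc'
  exact ⟨c'⁻¹ * c, by rw [mul_smul, ← hc, hc', smul_smul, inv_mul_cancel₀ hc0, one_smul]⟩

/-- from discs to entire curves -/
theorem curves_of_discs {N c : ℕ} {P : Fin c → MvPolynomial (Fin (N + 1)) ℂ}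
    {R : (Fin (N + c + 1) → ℂ) → Prop}
    (h : ∀ f, DiscIn P f → Extends f ∨ ∀ w ∈ ball (0 : ℂ) 1 \ {0}, f w ≠ 0 → R (f w))
    (f : ℂ → Fin (N + c + 1) → ℂ) (hf : Differentiable ℂ f) (hf0 : ∀ z, f z ≠ 0)
    (hfP : ∀ z i, eval (f z) (coverForm P i) = 0) :
    (∀ z w, ∃ c : ℂ, f w = c • f z) ∨ ∀ z, R (f z) := by
  have h0 : DiscIn P (fun w => f (Complex.sin w⁻¹)) := by
    refine ⟨?_, ?_, fun w _ i => hfP _ i⟩
    · intro z hz
      have hz0 : z ≠ 0 := hz.2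
      exact ((hf _).comp z ((Complex.differentiable_sin _).comp z
        (differentiableAt_inv hz0))).differentiableWithinAt
    · obtain ⟨w, hw, -⟩ := Pool.Agent.W603.BP.sin_point 0
      exact ⟨w, hw, hf0 _⟩
  rcases h _ h0 with h1 | h1
  · exact Or.inl (sin_const hf0 h1)
  · right
    intro z
    obtain ⟨w, hw, hwz⟩ := Pool.Agent.W603.BP.sin_point z
    have h2 := h1 w hw (hf0 _)
    simp only [hwz] at h2
    exact h2

end Pool.Agent.U207.QC
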