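import Pool.Agent.U207.QC.Stm0

/-!
Project QC (helper207), part G2: from the exceptional sets of the covers to all varieties.
-/

set_option autoImplicit false

namespace Pool.Agent.U207.QC

open MvPolynomial Metric Filter Topology FF
open Pool.Agent.N254.SQ (IsForm Fm Idl Gen Eqs Component Cls Mon ver pull NotIn LogGeneral
  Lifts Good GoodAlg OnSpecialQ OnCurvesQ OnDiscsQ aeval_pull pull_hom aeval_scale t_num t_comp
  qi_same qi_no t_cent t_versurj qe_finite)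
open Pool.Agent.W602.GT (SubVar GeneralType coords)

/-- a class of sets of forms, stable under the lifts to the spaces of the Veronese map and of the
covers -/
structure ClsC (C : ∀ n : ℕ, Set (Set (MvPolynomial (Fin (n + 1)) ℂ))) : Prop where
  cls : Cls C
  ren : ∀ (N c : ℕ), ∀ T ∈ C N, rename (hI N c) '' T ∈ C (N + c)

/-- a property of the covers `Y = {x_i ^ 2 = P_i(h), i < c}` which are smooth complete intersections of
`c` quadrics, `c ∈ E N` -/
def ForC (E : ℕ → Set ℕ)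
    (W : ∀ N c : ℕ, (Fin c → MvPolynomial (Fin (N + 1)) ℂ) → Prop) : Prop :=
  ∀ (N c : ℕ) (P : Fin c → MvPolynomial (Fin (N + 1)) ℂ), c ∈ E N →
    (∀ i, (P i).IsHomogeneous 2) → SmoothCover P → W N c P

section

variable {n N d c : ℕ} {m : Fin (N + 1) → Fin (n + 1) → ℕ}
  {S : Set (MvPolynomial (Fin (n + 1)) ℂ)} {P ℓ ℓ' : Fin c → MvPolynomial (Fin (N + 1)) ℂ}

theorem onV_ver (hg : GoodC n N d c m S P ℓ) {L : Type} [Field L] [Algebra ℂ L]
    {y : Fin (n + 1) → L} (hy : y ≠ 0) (hyS : ∀ p ∈ S, aeval y p = 0) : OnV m S (ver m y) :=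
  ⟨y, 1, hy, one_ne_zero, hyS, by rw [one_smul]⟩

theorem sheet_iff (hg : GoodC n N d c m S P ℓ) {T : Set (MvPolynomial (Fin (n + 1)) ℂ)}
    {T' : Set (MvPolynomial (Fin (N + 1)) ℂ)} (hL : Lifts m d T T') {L : Type} [Field L]
    [Algebra ℂ L] {w : ℕ} {y : Fin (n + 1) → L} (hy : y ≠ 0) (hyS : ∀ p ∈ S, aeval y p = 0) :
    (NotIn (rename (hI N c) '' T') (el ℓ (ver m y)) ↔ NotIn T y) ∧
    (LogGeneral (rename (hI N c) '' T') L w (el ℓ (ver m y)) ↔ LogGeneral T L w y) := by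
  have hV := onV_ver hg hy hyS
  refine ⟨?_, ?_⟩
  · rw [notin_iff, el_hI]
    have h1 := t_cent.notIn n N d m hg.hd1 T T' hL L y 1 one_ne_zero
    rwa [one_smul] at h1
  · rw [log_iff hg.homP (hg.el_mem hV), el_hI]
    unfold LogGeneral
    have h1 : (fun Pl : Place ℂ L => ¬ Pool.Agent.N254.SQ.ValueNotIn T' (ver m y) Pl) =
        fun Pl => ¬ Pool.Agent.N254.SQ.ValueNotIn T y Pl := by
      funext Pl
      have h2 := t_cent.value n N d m hg.mon hg.hd1 T T' hL L y 1 hy one_ne_zero Pl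
      rw [one_smul] at h2
      rw [h2]
    rw [h1]

end

/-- QIMP for the covers -/
theorem imp_cov {J : ∀ n : ℕ, Set (MvPolynomial (Fin (n + 1)) ℂ) →
      Set (MvPolynomial (Fin (n + 1)) ℂ) → MvPolynomial (Fin (n + 1)) ℂ → Prop} (hJ : Exc0 J)
    (hT : CovT J) {C : ∀ n : ℕ, Set (Set (MvPolynomial (Fin (n + 1)) ℂ))} (hC : Cls C)
    {E : ℕ → Set ℕ} (hE : ∀ N, (E N).Infinite)
    (hFor : ForC E fun N c P => ∀ T ∈ C N, ∀ (L : Type) [Field L] [Algebra ℂ L] (w : ℕ)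
      (y : Fin (N + c + 1) → L), 1 ≤ w →
        SubVar (fun p : coverEqs P => (p : MvPolynomial (Fin (N + c + 1)) ℂ)) L w y →
        NotIn (rename (hI N c) '' T) y → LogGeneral (rename (hI N c) '' T) L w y →
        ¬ Component (J (N + c) (coverEqs P) (rename (hI N c) '' T)) y)
    (n : ℕ) (T : Set (MvPolynomial (Fin (n + 1)) ℂ)) (hTC : T ∈ C n) (L : Type) [Field L]
    [Algebra ℂ L] (w : ℕ) (y : Fin (n + 1) → L) (hw : 1 ≤ w) (hy : Gen L w y) (hyT : NotIn T y)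
    (hlog : LogGeneral T L w y) : ∃ G, IsForm G ∧ aeval y G ≠ 0 ∧ J n (Eqs y) T G := by
  by_contra hcon
  push Not at hcon
  have hn : 1 ≤ n := by
    rcases Nat.eq_zero_or_pos n with h0 | h0
    · subst h0
      exact (qi_no hw hy).elim
    · exact h0
  obtain ⟨S₀, d, hSame, hd3, hd⟩ := qi_same (Eqs y) (fun p hp => hp.1)
  obtain ⟨N, m, hm, hN⟩ := t_num n d hn hd3
  obtain ⟨c, hcE, hc⟩ := (hE N).exists_gt (cN N)
  obtain ⟨P, ℓ, hsm, hg⟩ := exists_cover hn hd3 hm hN S₀ hd c hc.le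
  have hFor' := hFor N c P hcE hg.homP hsm
  have hd1 : 1 ≤ d := by omega
  obtain ⟨T', hT', hL⟩ := hC.lift n N d m hm hd1 T hTC
  have hFor2 := hFor' T' hT'
  have hT'' : ∀ H ∈ rename (hI N c) '' T', IsForm H := by
    rintro _ ⟨H, hH, rfl⟩
    obtain ⟨e, he⟩ := hC.form N T' hT' H hH
    exact ⟨e, he.rename_isHomogeneous⟩
  obtain ⟨T₂, hT₂⟩ : ∃ T₂, T₂ = rename (hI N c) '' T' := ⟨_, rfl⟩
  rw [← hT₂] at hT'' hFor2
  have hI0 := hJ.idl (N + c) (coverEqs P) T₂
  have hIA : ∀ i, J (N + c) (coverEqs P) T₂ (coverForm P i) := fun i =>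
    hJ.van (N + c) (coverEqs P) T₂ _ ⟨2, cover_hom hg.homP i⟩ fun L _ _ x hx => hx _ ⟨i, rfl⟩
  have hyS : ∀ p ∈ S₀, aeval y p = 0 := (hSame L y).2 fun q hq => hq.2
  have hvy := onV_ver hg hy.ne hyS
  obtain ⟨y₁, hy₁⟩ : ∃ y₁, y₁ = el ℓ (ver m y) := ⟨_, rfl⟩
  have hvan : ∀ G, Fm G → J (N + c) (coverEqs P) T₂ G → aeval y₁ G = 0 := by
    intro G hG hIG
    rw [hT₂] at hIG
    have h1 : J n S₀ T (pull m (sbl ℓ G)) :=
      (hT n N d c m S₀ P ℓ hg T T' hL G hG).1 hIG ℓ (Signs.refl ℓ)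
    have h2 : J n (Eqs y) T (pull m (sbl ℓ G)) :=
      hJ.mono n S₀ (Eqs y) T (fun Ω _ _ x hx => (hSame Ω x).2 hx) _ h1
    by_contra h3
    rw [hy₁, ← aeval_sbl, ← aeval_pull] at h3
    obtain ⟨e, he⟩ := hG
    exact hcon _ ⟨d * e, pull_hom hm (sbl_form hg.homL he)⟩ h3 h2
  have hsub₁ : SubVar (fun p : coverEqs P => (p : MvPolynomial (Fin (N + c + 1)) ℂ)) L w y₁ := by
    rw [hy₁]
    refine sub_el hg hvy ?_ hy.dim
    have h1 := Pool.Agent.N254.SQ.coords_ver hm hd1 y hy.ne (1 : L) one_ne_zero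
    rw [one_smul] at h1
    rw [h1, hy.gen]
  obtain ⟨hN1, hL1⟩ := sheet_iff (w := w) hg hL hy.ne hyS
  rw [← hy₁, ← hT₂] at hN1 hL1
  have hN1' := hN1.2 hyT
  have hL1' := hL1.2 hlog
  rcases t_comp (N + c) (J (N + c) (coverEqs P) T₂) hI0 L w y₁ ⟨hsub₁.ne, hsub₁.gen, hsub₁.dim⟩
    hvan with ⟨H, hH, hH0, hHI⟩ |
    ⟨L', iF, iA, w', y', hgen, hw', hI', hcl, ⟨G, hG, hG0, hG1⟩, hcomp⟩
  · exact hFor2 L w y₁ hw hsub₁ hN1' hL1' ⟨hvan, H, hH, hH0, hHI⟩
  · have hyP : ∀ i, aeval y' (coverForm P i) = 0 := fun i =>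
      hI' _ ⟨2, cover_hom hg.homP i⟩ (hIA i)
    have hsub : SubVar (fun p : coverEqs P => (p : MvPolynomial (Fin (N + c + 1)) ℂ)) L' w' y' := by
      refine ⟨hgen.ne, ?_, hgen.gen, hgen.dim⟩
      rintro ⟨_, i, rfl⟩
      exact hyP i
    have hco : Component (J (N + c) (coverEqs P) T₂) y' := ⟨hI', hcomp⟩
    rcases hg.special L' w' y' hw' hsub with h | ⟨x, s, hx, hs, hxS, hyx⟩
    · have hN2 : NotIn T₂ y' := by
        obtain ⟨H, hH, hH0⟩ := hN1'
        exact ⟨H, hH, fun h0 => hH0 (hcl H (hT'' H hH) h0)⟩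
      exact hFor2 L' w' y' hw' hsub hN2 (t_cent.general _ T₂ L' w' y' h) hco
    · obtain ⟨ℓ', hsg, hyl⟩ := hg.exists_signs hyP ⟨x, s, hx, hs, hxS, hyx⟩
      have hEx : ∀ F, IsForm F → aeval y F = 0 → aeval x F = 0 := fun F hF hF0 =>
        (hSame L' x).1 hxS F ⟨hF, hF0⟩
      -- the signs are those of `ℓ`
      have hyl' : y' = el ℓ (y' ∘ hI N c) := by
        funext l
        rcases idx_cases l with ⟨j, rfl⟩ | ⟨i, rfl⟩
        · rw [el_h]
          rfl
        · rw [el_x]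
          have h1 := congrFun hyl (xI N c i)
          rw [el_x] at h1
          rcases hsg i with h2 | h2
          · rw [h1, h2]
          · -- the linear form vanishes
            have hform : IsForm (X (xI N c i) + rename (hI N c) (ℓ i) :
                MvPolynomial (Fin (N + c + 1)) ℂ) :=
              ⟨1, (isHomogeneous_X ℂ _).add (hg.homL i).rename_isHomogeneous⟩
            have h3 : aeval y' (X (xI N c i) + rename (hI N c) (ℓ i)) = 0 := by
              rw [map_add, aeval_X, aeval_rename, h1, h2, map_neg, neg_add_cancel]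
            have h4 := hcl _ hform h3
            rw [map_add, aeval_X, aeval_rename, hy₁, el_x, el_hI, ← two_mul] at h4
            have h5 : aeval (ver m y) (ℓ i) = 0 := by
              have h6 : (2 : L) ≠ 0 := by
                have := charZero_of_injective_algebraMap (algebraMap ℂ L).injective
                exact two_ne_zero
              exact (mul_eq_zero.1 h4).resolve_left h6
            rw [← aeval_pull] at h5
            have h7 := hEx _ ⟨d * 1, pull_hom hm (hg.homL i)⟩ h5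
            rw [aeval_pull] at h7
            have h8 : aeval (y' ∘ hI N c) (ℓ i) = 0 := by
              rw [hyx, aeval_scale (hg.homL i), h7, mul_zero]
            rw [h1, h2, map_neg, h8, neg_zero]
      obtain ⟨e, he⟩ := hG
      apply hG1
      rw [hyl', hyx, el_smul hg.homL, aeval_scale he, ← aeval_sbl, ← aeval_pull,
        hEx _ ⟨d * e, pull_hom hm (sbl_form hg.homL he)⟩ (by
          rw [aeval_pull, aeval_sbl, ← hy₁]
          exact hG0), mul_zero]

/-- QEQ for the covers -/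
theorem eq_cov {J : ∀ n : ℕ, Set (MvPolynomial (Fin (n + 1)) ℂ) →
      Set (MvPolynomial (Fin (n + 1)) ℂ) → MvPolynomial (Fin (n + 1)) ℂ → Prop} (hJ : Exc0 J)
    (hT : CovT J) {C : ∀ n : ℕ, Set (Set (MvPolynomial (Fin (n + 1)) ℂ))} (hC : Cls C)
    {E : ℕ → Set ℕ} (hE : ∀ N, (E N).Infinite)
    (hFor : ForC E fun N c P => ∀ T ∈ C N, ∀ G, IsForm G →
      J (N + c) (coverEqs P) (rename (hI N c) '' T) G →
      OnSpecialQ (coverEqs P) (rename (hI N c) '' T) G)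
    (n : ℕ) (T : Set (MvPolynomial (Fin (n + 1)) ℂ)) (hTC : T ∈ C n) (L : Type) [Field L]
    [Algebra ℂ L] (w : ℕ) (y : Fin (n + 1) → L) (hw : 1 ≤ w) (hgen : Gen L w y)
    (hnot : NotIn T y) (hex : ∃ G, IsForm G ∧ aeval y G ≠ 0 ∧ J n (Eqs y) T G) :
    LogGeneral T L w y := by
  obtain ⟨G, hG, hGy, hGP⟩ := hex
  have hn : 1 ≤ n := by
    rcases Nat.eq_zero_or_pos n with h0 | h0
    · subst h0
      exact (qi_no hw hgen).elim
    · exact h0
  obtain ⟨S₀, d, hd3, hd, h1, h2⟩ := qe_finite y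
  obtain ⟨N, m, hm, hN⟩ := t_num n d hn hd3
  obtain ⟨c, hcE, hc⟩ := (hE N).exists_gt (cN N)
  obtain ⟨P, ℓ, hsm, hg⟩ := exists_cover hn hd3 hm hN S₀ hd c hc.le
  obtain ⟨T', hT', hlift⟩ := hC.lift n N d m hm hg.hd1 T hTC
  obtain ⟨e, he⟩ := id hG
  obtain ⟨G₀, hG₀, hG₀F⟩ := t_versurj n N d m hm e (G ^ d) (by
    have := he.pow d
    rwa [mul_comm] at this)
  have hpull : pull m G₀ = G ^ d := hG₀F
  have hGd : J n (Eqs y) T (G ^ d) :=
    (Pool.Agent.Results.MP_2a5ae2_ag.SmoothHypersurfacesSuffice.idl_pow (hJ.idl n (Eqs y) T) hG d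
      hg.hd1).2 hGP
  have h3 : J n S₀ T (G ^ d) := hJ.mono n (Eqs y) S₀ T (fun L' _ _ x hx => h1 L' x hx) _ hGd
  have hren : (rename (hI N c) G₀).IsHomogeneous e := hG₀.rename_isHomogeneous
  have h4 : J (N + c) (coverEqs P) (rename (hI N c) '' T') (rename (hI N c) G₀) := by
    rw [hT n N d c m S₀ P ℓ hg T T' hlift _ ⟨e, hren⟩]
    intro ℓ' _
    rw [sbl_rename, hpull]
    exact h3
  have h5 := hFor N c P hcE hg.homP hsm T' hT' _ ⟨e, hren⟩ h4
  have h6 : OnSpecialQ S₀ T (G ^ d) := by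
    have := (covT_special n N d c m S₀ P ℓ hg T T' hlift _ ⟨e, hren⟩).1 h5 ℓ (Signs.refl ℓ)
    rwa [sbl_rename, hpull] at this
  have h7 : OnSpecialQ (Eqs y) T (G ^ d) :=
    Pool.Agent.N254.SQ.Exc.mono (Pool.Agent.N254.SQ.t_qspec t_cent) n S₀ (Eqs y) T
      (fun L' _ _ x hx => h2 L' x hx) _ h6
  rcases h7 L w y hw ⟨hgen.ne, fun p => p.2.2, hgen.gen, hgen.dim⟩ hnot with h8 | h8
  · exact h8
  · exfalso
    rw [map_pow] at h8
    exact hGy (eq_zero_of_pow_eq_zero h8)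

/-! ### classes of sets of forms -/

theorem clsC_all : ClsC fun n => {T : Set (MvPolynomial (Fin (n + 1)) ℂ) | ∀ H ∈ T, IsForm H} := by
  refine ⟨Pool.Agent.N254.SQ.t_cls.1, ?_⟩
  rintro N c T hT _ ⟨H, hH, rfl⟩
  obtain ⟨e, he⟩ := hT H hH
  exact ⟨e, he.rename_isHomogeneous⟩

theorem clsC_affine : ClsC (fun n => {T : Set (MvPolynomial (Fin (n + 1)) ℂ) |
    ∃ (e : ℕ) (H : MvPolynomial (Fin (n + 1)) ℂ), 1 ≤ e ∧ H.IsHomogeneous e ∧ T = {H}}) := by
  refine ⟨Pool.Agent.N254.SQ.cls_affine, ?_⟩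
  rintro N c T ⟨e, H, he, hH, rfl⟩
  exact ⟨e, rename (hI N c) H, he, hH.rename_isHomogeneous, by rw [Set.image_singleton]⟩

/-- projective varieties: the complement of the empty set `V(1)` -/
theorem clsC_one : ClsC (fun n => ({{1}} : Set (Set (MvPolynomial (Fin (n + 1)) ℂ)))) := by
  refine ⟨⟨?_, ?_⟩, ?_⟩
  · intro n T hT H hH
    rw [Set.mem_singleton_iff] at hT
    subst hT
    rw [Set.mem_singleton_iff] at hH
    subst hH
    exact ⟨0, isHomogeneous_one _ _⟩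
  · intro n N d m _ _ T hT
    rw [Set.mem_singleton_iff] at hT
    subst hT
    refine ⟨{1}, rfl, ⟨?_, ?_⟩⟩
    · intro G hG
      rw [Set.mem_singleton_iff] at hG
      subst hG
      exact ⟨1, rfl, 0, isHomogeneous_one _ _, isHomogeneous_one _ _, by
        rw [one_pow]; exact map_one _⟩
    · intro G hG
      rw [Set.mem_singleton_iff] at hG
      subst hG
      exact ⟨1, rfl, 0, isHomogeneous_one _ _, isHomogeneous_one _ _, by
        rw [one_pow]; exact map_one _⟩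
  · intro N c T hT
    rw [Set.mem_singleton_iff] at hT
    subst hT
    rw [Set.image_singleton, map_one]
    rfl

end Pool.Agent.U207.QC
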