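import Pool.Agent.U207.QC.Asm

/-!
Project QC (helper207): projective varieties, as complements of the empty set `V(1)`.
-/

set_option autoImplicit false

namespace Pool.Agent.U207.QC

open MvPolynomial Metric FF
open Pool.Agent.W602.GT (SubVar GeneralType LogGeneralType)
open Pool.Agent.N254.SQ (IsForm Eqs Component NotIn LogGeneral OnSpecialQ OnCurvesQ OnSpecial
  OnCurves ValueNotIn)

variable {n : ℕ} {L : Type} [Field L] [Algebra ℂ L]

theorem notin_one (y : Fin (n + 1) → L) : NotIn ({1} : Set (MvPolynomial (Fin (n + 1)) ℂ)) y :=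
  ⟨1, rfl, by rw [map_one]; exact one_ne_zero⟩

theorem value_one {y : Fin (n + 1) → L} (hy : y ≠ 0) (P : Place ℂ L) :
    ValueNotIn ({1} : Set (MvPolynomial (Fin (n + 1)) ℂ)) y P := by
  obtain ⟨s, -, h1, h2⟩ := Pool.Agent.N254.SQ.ce_exists P hy
  exact ⟨s, h1, h2, 1, rfl, by rw [map_one]; exact one_ne_zero, by rw [map_one]; exact P.ord_one⟩

theorem log_one {y : Fin (n + 1) → L} (hy : y ≠ 0) (w : ℕ) :
    LogGeneral ({1} : Set (MvPolynomial (Fin (n + 1)) ℂ)) L w y ↔ GeneralType ℂ L w := by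
  constructor
  · rintro ⟨h0, k, hk, ω, h1, -, h3, h4⟩
    exact ⟨h0, k, hk, ω, h1, fun P hP => h3 P hP (not_not.2 (value_one hy P)), h4⟩
  · intro h
    exact Pool.Agent.N254.SQ.ce_general h _

theorem special_one (S : Set (MvPolynomial (Fin (n + 1)) ℂ)) (G : MvPolynomial (Fin (n + 1)) ℂ) :
    OnSpecialQ S {1} G ↔ OnSpecial S G := by
  constructor
  · intro h L _ _ w y hw hy
    rcases h L w y hw hy (notin_one y) with h1 | h1
    · exact Or.inl ((log_one hy.ne w).1 h1)
    · exact Or.inr h1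
  · intro h L _ _ w y hw hy _
    rcases h L w y hw hy with h1 | h1
    · exact Or.inl ((log_one hy.ne w).2 h1)
    · exact Or.inr h1

theorem curves_one (S : Set (MvPolynomial (Fin (n + 1)) ℂ)) (G : MvPolynomial (Fin (n + 1)) ℂ) :
    OnCurvesQ S {1} G ↔ OnCurves S G := by
  constructor
  · intro h f h1 h2 h3
    exact h f h1 h2 h3 fun z => ⟨1, rfl, by rw [map_one]; exact one_ne_zero⟩
  · intro h f h1 h2 h3 _
    exact h f h1 h2 h3

end Pool.Agent.U207.QC
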