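import Pool.Agent.U207.QC.Asm
import Pool.Agent.N254.SQ.Sab

/-!
Project QC (helper207), part S1: nonconstant holomorphic maps from a normed space to the cone over a
projective variety take their values where the entire curves do.
-/

set_option autoImplicit false

namespace Pool.Agent.U207.QC

open MvPolynomial Filter Topology
open Pool.Agent.N254.SQ (IsForm sb_id1 sb_id sb_par sb_diff sb_diff1 sb_eval diff_evalOn eval_scale
  PolyEntire)

/-- the key lemma -/
theorem key_line {E : Type} [NormedAddCommGroup E] [NormedSpace ℂ E] {M : ℕ}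
    {𝒜 : Set (MvPolynomial (Fin (M + 1)) ℂ)} (hform : ∀ q ∈ 𝒜, IsForm q)
    {R : (Fin (M + 1) → ℂ) → Prop} (hR : ∀ (s : ℂ) v, s ≠ 0 → R v → R (s • v))
    (hcurve : ∀ f : ℂ → Fin (M + 1) → ℂ, Differentiable ℂ f → (∀ z, f z ≠ 0) →
      (∀ z, ∀ q ∈ 𝒜, eval (f z) q = 0) → (∀ z w, ∃ c : ℂ, f w = c • f z) ∨ ∀ z, R (f z))
    (F : E → Fin (M + 1) → ℂ) (hF : Differentiable ℂ F) (hA : ∀ p, ∀ q ∈ 𝒜, eval (F p) q = 0)
    (hne : ∃ p q i j, F p i * F q j ≠ F p j * F q i) (p : E) (hp : F p ≠ 0) : R (F p) := by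
  obtain ⟨q, i0, j0, hq⟩ : ∃ q i j, F p i * F q j ≠ F p j * F q i := by
    by_contra hcon
    push Not at hcon
    obtain ⟨p1, q1, i, j, hne'⟩ := hne
    obtain ⟨c, hc⟩ := sb_par hp (hcon p1)
    obtain ⟨c', hc'⟩ := sb_par hp (hcon q1)
    apply hne'
    rw [hc, hc']
    simp only [Pi.smul_apply, smul_eq_mul]
    ring
  have hl : Differentiable ℂ (fun s : ℂ => p + s • (q - p)) :=
    (differentiable_id.smul_const (q - p)).const_add p
  obtain ⟨f, hfF⟩ : ∃ f : ℂ → Fin (M + 1) → ℂ, ∀ s, f s = F (p + s • (q - p)) := ⟨_, fun _ => rfl⟩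
  have hf : Differentiable ℂ f := by
    have : f = F ∘ fun s : ℂ => p + s • (q - p) := funext hfF
    rw [this]
    exact hF.comp hl
  have f0 : f 0 = F p := by rw [hfF, zero_smul, add_zero]
  have f1 : f 1 = F q := by rw [hfF, one_smul, add_sub_cancel]
  have hfA : ∀ s, ∀ r ∈ 𝒜, eval (f s) r = 0 := fun s => by rw [hfF]; exact hA _
  obtain ⟨a, ha⟩ : ∃ a, F p a ≠ 0 := by
    by_contra hcon
    push Not at hcon
    exact hp (funext hcon)
  obtain ⟨g, v, hg1, hv1, hfac, hv0⟩ := Pool.Agent.N133.WZ.reduce (fun j s => f s j)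
    (fun j => differentiable_pi.1 hf j) (j0 := a) (z0 := 0) (by rw [f0]; exact ha)
  obtain ⟨w, hw⟩ : ∃ w : ℂ → Fin (M + 1) → ℂ, ∀ s j, w s j = v j s := ⟨fun s j => v j s, fun _ _ => rfl⟩
  have hw1 : Differentiable ℂ w := differentiable_pi.2 fun j => by
    have : (fun s => w s j) = v j := funext fun s => hw s j
    rw [this]
    exact hv1 j
  have hw0 : ∀ s, w s ≠ 0 := by
    intro s h
    obtain ⟨j, hj⟩ := hv0 s
    apply hj
    rw [← hw, h, Pi.zero_apply]
  have hfw : ∀ s, f s = g s • w s := by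
    intro s
    funext j
    rw [Pi.smul_apply, smul_eq_mul, hw]
    exact hfac j s
  have hg0 : g 0 ≠ 0 := by
    intro h
    apply ha
    rw [← f0, hfw, h, zero_smul, Pi.zero_apply]
  have hwA : ∀ s, ∀ r ∈ 𝒜, eval (w s) r = 0 := by
    intro s r hr
    obtain ⟨e, he⟩ := hform r hr
    refine sb_id1 (a := fun s => eval (w s) r) (b := fun s => g s ^ e) ?_ (hg1.fun_pow e)
      (fun s => ?_) ⟨0, pow_ne_zero e hg0⟩ s
    · rw [← differentiableOn_univ]
      exact diff_evalOn r hw1.differentiableOn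
    · have h1 := hfA s r hr
      rw [hfw, eval_scale he] at h1
      rw [mul_comm]
      exact h1
  rcases hcurve w hw1 hw0 hwA with h4 | h4
  · exfalso
    obtain ⟨c, hc⟩ := h4 0 1
    apply hq
    rw [← f0, ← f1, hfw, hfw, hc]
    simp only [Pi.smul_apply, smul_eq_mul]
    ring
  · rw [← f0, hfw]
    exact hR _ _ hg0 (h4 0)

/-- a holomorphic function which is not zero is not zero near any point -/
theorem near_ne {E : Type} [NormedAddCommGroup E] [NormedSpace ℂ E] {f : E → ℂ}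
    (hf : Differentiable ℂ f) {p1 : E} (h1 : f p1 ≠ 0) (p0 : E) : ∃ᶠ q in 𝓝 p0, f q ≠ 0 := by
  have hl : Differentiable ℂ (fun s : ℂ => p0 + s • (p1 - p0)) :=
    (differentiable_id.smul_const (p1 - p0)).const_add p0
  have hfl := hf.comp hl
  have han : AnalyticAt ℂ (f ∘ fun s : ℂ => p0 + s • (p1 - p0)) 0 := hfl.analyticAt 0
  have ht : Tendsto (fun s : ℂ => p0 + s • (p1 - p0)) (𝓝[≠] 0) (𝓝 p0) := by
    have h2 := hl.continuous.tendsto 0
    simp only [zero_smul, add_zero] at h2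
    exact h2.mono_left nhdsWithin_le_nhds
  rcases han.eventually_eq_zero_or_eventually_ne_zero with h | h
  · exfalso
    have hall : ∀ z, (f ∘ fun s : ℂ => p0 + s • (p1 - p0)) z = 0 := by
      have h3 : AnalyticOnNhd ℂ (f ∘ fun s : ℂ => p0 + s • (p1 - p0)) Set.univ :=
        hfl.differentiableOn.analyticOnNhd isOpen_univ
      intro z
      exact h3.eqOn_zero_of_preconnected_of_eventuallyEq_zero isPreconnected_univ
        (Set.mem_univ 0) h (Set.mem_univ z)
    apply h1
    have h4 := hall 1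
    simp only [Function.comp_apply, one_smul, add_sub_cancel] at h4
    exact h4
  · exact ht.frequently h.frequently

/-- the polynomials in elements of `PolyEntire` -/
theorem poly_mem {g r M : ℕ} {v : (Fin g → ℂ) × (Fin r → ℂ) → Fin (M + 1) → ℂ}
    (hv : ∀ j, (fun p => v p j) ∈ PolyEntire g r) (G : MvPolynomial (Fin (M + 1)) ℂ) :
    (fun p => eval (v p) G) ∈ PolyEntire g r := by
  induction G using MvPolynomial.induction_on with
  | C a =>
    simp only [eval_C]
    exact Subalgebra.algebraMap_mem _ a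
  | add p q hp hq =>
    simp only [map_add]
    exact add_mem hp hq
  | mul_X p j hp =>
    simp only [map_mul, eval_X]
    exact mul_mem hp (hv j)

/-- the signs are constant -/
theorem signs_all {E : Type} [NormedAddCommGroup E] [NormedSpace ℂ E] {N c : ℕ}
    {ℓ : Fin c → MvPolynomial (Fin (N + 1)) ℂ} {f : E → Fin (N + c + 1) → ℂ}
    (hf : Differentiable ℂ f)
    (h : ∀ p, ∀ i, f p (xI N c i) ^ 2 = eval (f p ∘ hI N c) (ℓ i) ^ 2) :
    ∃ ℓ', Signs ℓ ℓ' ∧ ∀ p, f p = el ℓ' (f p ∘ hI N c) := by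
  have hh : Differentiable ℂ fun p => f p ∘ hI N c := by
    rw [differentiable_pi]
    intro j
    exact differentiable_pi.1 hf (hI N c j)
  have h1 : ∀ i, ∃ l', (l' = ℓ i ∨ l' = - ℓ i) ∧
      ∀ p, f p (xI N c i) = eval (f p ∘ hI N c) l' := by
    intro i
    by_cases h0 : ∀ p, f p (xI N c i) + eval (f p ∘ hI N c) (ℓ i) = 0
    · refine ⟨- ℓ i, Or.inr rfl, fun p => ?_⟩
      rw [map_neg]
      exact eq_neg_of_add_eq_zero_left (h0 p)
    · push Not at h0
      have h2 := sb_id (a := fun p => f p (xI N c i) - eval (f p ∘ hI N c) (ℓ i))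
        (b := fun p => f p (xI N c i) + eval (f p ∘ hI N c) (ℓ i))
        ((differentiable_pi.1 hf _).fun_sub (sb_eval (ℓ i) hh))
        ((differentiable_pi.1 hf _).fun_add (sb_eval (ℓ i) hh)) (fun p => by
          have := h p i
          linear_combination this) h0
      exact ⟨ℓ i, Or.inl rfl, fun p => sub_eq_zero.1 (h2 p)⟩
  choose ℓ' h2 h3 using h1
  refine ⟨ℓ', h2, fun p => ?_⟩
  funext l
  rcases idx_cases l with ⟨j, rfl⟩ | ⟨i, rfl⟩
  · rw [el_h]
    rfl
  · rw [el_x]
    exact h3 i p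

end Pool.Agent.U207.QC
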