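import Pool.Agent.U207.QC.Cnt
import Pool.Agent.H135R2.VS.Der

/-!
Project QC (helper207), part D2: the covers `x_i ^ 2 = P_i(h)` are smooth for general parameters.
-/

set_option autoImplicit false

namespace Pool.Agent.U207.QC

open MvPolynomial

section smo

variable {K Ω : Type} [Field K] [Field Ω] [Algebra K Ω] {N s c : ℕ} {ι : Type} [Fintype ι]

/-- the values of the quadratic form at the node `a` -/
noncomputable def pv (B κ : ℕ) (q : ι → MvPolynomial (Fin (N + 1)) K) (C : Fin s × ι → Ω) (a : Ω)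
    (h : Fin (N + 1) → Ω) : Ω :=
  (∑ j : Fin (N + 1), a ^ (j : ℕ) * h j) ^ 2 +
    ∑ t : Fin s, a ^ (B + κ * (t : ℕ)) * ∑ m, C (t, m) * aeval h (q m)

/-- the values of its partial derivatives -/
noncomputable def pd (B κ : ℕ) (q : ι → MvPolynomial (Fin (N + 1)) K) (C : Fin s × ι → Ω) (a : Ω)
    (h : Fin (N + 1) → Ω) (j : Fin (N + 1)) : Ω :=
  2 * (∑ j' : Fin (N + 1), a ^ (j' : ℕ) * h j') * a ^ (j : ℕ) +
    ∑ t : Fin s, a ^ (B + κ * (t : ℕ)) * ∑ m, C (t, m) * aeval h (pderiv j (q m))

/-- the chain rule -/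
theorem chain (D : Derivation K Ω Ω) (h : Fin (N + 1) → Ω) (p : MvPolynomial (Fin (N + 1)) K) :
    D (aeval h p) = ∑ j, aeval h (pderiv j p) * D (h j) := by
  classical
  induction p using MvPolynomial.induction_on with
  | C a => simp
  | add p q hp hq =>
    simp only [map_add, add_mul, Finset.sum_add_distrib, hp, hq]
  | mul_X p i hp =>
    rw [map_mul, aeval_X, Derivation.leibniz, hp, smul_eq_mul, smul_eq_mul]
    have h1 : ∀ j, aeval h (pderiv j (p * X i)) * D (h j) =
        h i * (aeval h (pderiv j p) * D (h j)) +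
          (if i = j then aeval h p * D (h j) else 0) := by
      intro j
      rw [Derivation.leibniz, pderiv_X, Pi.single_apply]
      by_cases hij : i = j
      · subst hij
        simp only [smul_eq_mul, if_true, map_add, map_mul, aeval_X, map_one]
        ring
      · rw [if_neg hij, if_neg hij]
        simp only [smul_eq_mul, mul_zero, zero_add, map_mul, aeval_X]
        ring
    rw [Finset.sum_congr rfl fun j _ => h1 j, Finset.sum_add_distrib, Finset.sum_ite_eq,
      if_pos (Finset.mem_univ _), ← Finset.mul_sum]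
    ring

/-- Euler's formula -/
theorem euler {q : MvPolynomial (Fin (N + 1)) K} (hq : q.IsHomogeneous 2) (h : Fin (N + 1) → Ω) :
    ∑ j, h j * aeval h (pderiv j q) = 2 * aeval h q := by
  have h4 := congrArg (aeval h) hq.sum_X_mul_pderiv
  rw [map_sum, map_nsmul, nsmul_eq_mul] at h4
  rw [Nat.cast_ofNat] at h4
  rw [← h4]
  exact Finset.sum_congr rfl fun j _ => by rw [map_mul, aeval_X]

theorem euler_pv (B κ : ℕ) {q : ι → MvPolynomial (Fin (N + 1)) K}
    (hq : ∀ m, (q m).IsHomogeneous 2) (C : Fin s × ι → Ω) (a : Ω) (h : Fin (N + 1) → Ω) :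
    ∑ j, pd B κ q C a h j * h j = 2 * pv B κ q C a h := by
  unfold pd pv
  simp only [add_mul, Finset.sum_add_distrib, mul_add]
  congr 1
  · rw [pow_two]
    have : ∀ j : Fin (N + 1), 2 * (∑ j' : Fin (N + 1), a ^ (j' : ℕ) * h j') * a ^ (j : ℕ) * h j =
        2 * (∑ j' : Fin (N + 1), a ^ (j' : ℕ) * h j') * (a ^ (j : ℕ) * h j) := fun j => by ring
    rw [Finset.sum_congr rfl fun j _ => this j, ← Finset.mul_sum]
    ring
  · have h1 : ∀ j : Fin (N + 1), (∑ t : Fin s, a ^ (B + κ * (t : ℕ)) *
        ∑ m, C (t, m) * aeval h (pderiv j (q m))) * h j =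
        ∑ t : Fin s, ∑ m, a ^ (B + κ * (t : ℕ)) * C (t, m) *
          (h j * aeval h (pderiv j (q m))) := by
      intro j
      rw [Finset.sum_mul]
      refine Finset.sum_congr rfl fun t _ => ?_
      rw [Finset.mul_sum, Finset.sum_mul]
      exact Finset.sum_congr rfl fun m _ => by ring
    rw [Finset.sum_congr rfl fun j _ => h1 j, Finset.sum_comm, Finset.mul_sum]
    refine Finset.sum_congr rfl fun t _ => ?_
    rw [Finset.sum_comm, Finset.mul_sum, Finset.mul_sum]
    refine Finset.sum_congr rfl fun m _ => ?_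
    rw [← Finset.mul_sum, euler (hq m)]
    ring

/-- derivations along the parameters -/
theorem der_pv (B κ : ℕ) (q : ι → MvPolynomial (Fin (N + 1)) K) (C : Fin s × ι → Ω) (a : Ω)
    (h : Fin (N + 1) → Ω) (D : Derivation K Ω Ω) (ha : D a = 0) (t0 : Fin s) (m0 : ι)
    (hC : ∀ t m, (t, m) ≠ (t0, m0) → D (C (t, m)) = 0) (hC0 : D (C (t0, m0)) = 1) :
    D (pv B κ q C a h) = ∑ j, pd B κ q C a h j * D (h j) +
      a ^ (B + κ * (t0 : ℕ)) * aeval h (q m0) := by
  classical
  have hap : ∀ e : ℕ, D (a ^ e) = 0 := by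
    intro e
    rw [Derivation.leibniz_pow, ha, smul_zero, smul_zero]
  have e1 : D (∑ j : Fin (N + 1), a ^ (j : ℕ) * h j) = ∑ j : Fin (N + 1), a ^ (j : ℕ) * D (h j) := by
    rw [map_sum]
    refine Finset.sum_congr rfl fun j _ => ?_
    rw [Derivation.leibniz, hap, smul_zero, add_zero, smul_eq_mul]
  have e2 : ∀ t : Fin s, D (a ^ (B + κ * (t : ℕ)) * ∑ m, C (t, m) * aeval h (q m)) =
      (∑ j, (a ^ (B + κ * (t : ℕ)) * ∑ m, C (t, m) * aeval h (pderiv j (q m))) * D (h j)) +
        (if t = t0 then a ^ (B + κ * (t : ℕ)) * aeval h (q m0) else 0) := by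
    intro t
    rw [Derivation.leibniz, hap, smul_zero, add_zero, smul_eq_mul, map_sum]
    have e3 : ∀ m, D (C (t, m) * aeval h (q m)) =
        (∑ j, C (t, m) * aeval h (pderiv j (q m)) * D (h j)) +
          (if t = t0 ∧ m = m0 then aeval h (q m0) else 0) := by
      intro m
      rw [Derivation.leibniz, chain, smul_eq_mul, smul_eq_mul, Finset.mul_sum]
      congr 1
      · exact Finset.sum_congr rfl fun j _ => by ring
      · split_ifs with hc
        · rw [hc.1, hc.2, hC0, mul_one]
        · rw [hC t m (fun he => hc ⟨congrArg Prod.fst he, congrArg Prod.snd he⟩), mul_zero]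
    rw [Finset.sum_congr rfl fun m _ => e3 m, Finset.sum_add_distrib, Finset.sum_comm, mul_add]
    congr 1
    · rw [Finset.mul_sum]
      refine Finset.sum_congr rfl fun j _ => ?_
      rw [← Finset.sum_mul]
      ring
    · by_cases ht : t = t0
      · rw [if_pos ht]
        congr 1
        simp only [ht, true_and]
        rw [Finset.sum_ite_eq', if_pos (Finset.mem_univ _)]
      · rw [if_neg ht]
        simp only [ht, false_and, if_false, Finset.sum_const_zero, mul_zero]
  unfold pv
  rw [map_add, pow_two, Derivation.leibniz, e1, map_sum, Finset.sum_congr rfl fun t _ => e2 t,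
    Finset.sum_add_distrib, Finset.sum_ite_eq', if_pos (Finset.mem_univ _), Finset.sum_comm,
    ← add_assoc]
  congr 1
  unfold pd
  simp only [add_mul, Finset.sum_add_distrib, smul_eq_mul]
  congr 1
  · have : ∀ j : Fin (N + 1), 2 * (∑ j' : Fin (N + 1), a ^ (j' : ℕ) * h j') * a ^ (j : ℕ) *
        D (h j) = 2 * (∑ j' : Fin (N + 1), a ^ (j' : ℕ) * h j') * (a ^ (j : ℕ) * D (h j)) :=
      fun j => by ring
    rw [Finset.sum_congr rfl fun j _ => this j, ← Finset.mul_sum]
    ring
  · exact Finset.sum_congr rfl fun j _ => (Finset.sum_mul _ _ _).symm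

end smo

end Pool.Agent.U207.QC
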