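import Pool.Agent.U207.QC.Smo

/-!
Project QC (helper207), part D3: the covers `x_i ^ 2 = P_i(h)` are smooth for general parameters.
-/

set_option autoImplicit false

namespace Pool.Agent.U207.QC

open MvPolynomial

section smo

variable {K Ω : Type} [Field K] [Field Ω] [Algebra K Ω] {N s c : ℕ} {ι : Type} [Fintype ι]

/-- generic nodes: the powers are different -/
theorem pow_inj {κ : ℕ} (hκ : 1 ≤ κ) {a : Fin c → Ω} (ha : AlgebraicIndependent K a) :
    Function.Injective fun i => a i ^ κ := by
  classical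
  intro i j hij
  by_contra hne
  have h1 := algebraicIndependent_iff.1 ha (X i ^ κ - X j ^ κ) (by
    rw [map_sub, map_pow, map_pow, aeval_X, aeval_X]
    exact sub_eq_zero.2 hij)
  have h2 := congrArg (eval (fun l => if l = i then (1 : K) else 0)) h1
  rw [map_sub, map_pow, map_pow, eval_X, eval_X, if_pos rfl, if_neg (Ne.symm hne), one_pow,
    zero_pow (by omega), sub_zero, map_zero] at h2
  exact one_ne_zero h2

theorem node_ne {a : Fin c → Ω} (ha : AlgebraicIndependent K a) (i : Fin c) : a i ≠ 0 := by
  intro h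
  have h1 := algebraicIndependent_iff.1 ha (X i) (by rw [aeval_X]; exact h)
  exact X_ne_zero i h1

/-- a vector with few zeros -/
theorem few_zeros {a : Fin c → Ω} (ha : Function.Injective a) {h : Fin (N + 1) → Ω} (hh : h ≠ 0)
    {T : Finset (Fin c)} (hT : ∀ i ∈ T, ∑ j : Fin (N + 1), a i ^ (j : ℕ) * h j = 0) :
    T.card ≤ N := by
  classical
  set p : Polynomial Ω := ∑ j : Fin (N + 1), Polynomial.monomial (j : ℕ) (h j) with hp
  have hcoef : ∀ j : Fin (N + 1), p.coeff j = h j := by
    intro j
    rw [hp, Polynomial.finsetSum_coeff, Finset.sum_eq_single j]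
    · rw [Polynomial.coeff_monomial, if_pos rfl]
    · intro i _ hi
      rw [Polynomial.coeff_monomial, if_neg fun h => hi (Fin.ext h)]
    · intro h
      exact absurd (Finset.mem_univ _) h
  have hp0 : p ≠ 0 := by
    intro h0
    apply hh
    funext j
    rw [← hcoef j, h0, Polynomial.coeff_zero, Pi.zero_apply]
  have hdeg : p.natDegree ≤ N := by
    rw [hp]
    refine Polynomial.natDegree_sum_le_of_forall_le _ _ fun j _ => ?_
    exact (Polynomial.natDegree_monomial_le _).trans (by omega)
  have h1 : T.image a ⊆ p.roots.toFinset := by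
    intro x hx
    obtain ⟨i, hi, rfl⟩ := Finset.mem_image.1 hx
    rw [Multiset.mem_toFinset, Polynomial.mem_roots hp0, Polynomial.IsRoot, hp,
      Polynomial.eval_finsetSum, ← hT i hi]
    exact Finset.sum_congr rfl fun j _ => by rw [Polynomial.eval_monomial, mul_comm]
  have h2 := Finset.card_le_card h1
  rw [Finset.card_image_of_injective _ ha] at h2
  exact h2.trans ((Multiset.toFinset_card_le _).trans ((Polynomial.card_roots' p).trans hdeg))

variable [CharZero K] {B κ : ℕ} {q : ι → MvPolynomial (Fin (N + 1)) K} {C : Fin s × ι → Ω}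
  {a : Fin c → Ω}

/-- outside of the zeros of the `q`, for small supports -/
theorem smo_small (hκ : 1 ≤ κ) (hind : AlgebraicIndependent K (Sum.elim a C))
    {h : Fin (N + 1) → Ω} {m0 : ι} (hm0 : aeval h (q m0) ≠ 0) {ν : Fin c → Ω}
    {T : Finset (Fin c)} (hT : T.card ≤ s) (hν : ∀ i, i ∉ T → ν i = 0)
    (hz : ∀ i ∈ T, pv B κ q C (a i) h = 0)
    (h2 : ∀ j, ∑ i, ν i * pd B κ q C (a i) h j = 0) : ν = 0 := by
  classical
  have hinda : AlgebraicIndependent K a := by
    have := hind.comp Sum.inl Sum.inl_injective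
    exact this
  refine funext fun i => ?_
  have hmain : (fun i => ν i * a i ^ B) = 0 := by
    refine vand (pow_inj (K := K) hκ hinda) hT (fun i hi => by rw [hν i hi, zero_mul]) ?_
    intro t0 ht0
    obtain ⟨D, hD⟩ := Pool.Agent.H135R2.VS.exists_der hind
      (Sum.elim (fun _ => 0) fun p => if p = (⟨t0, ht0⟩, m0) then 1 else 0)
    have h3 : ∀ i, ν i * D (pv B κ q C (a i) h) = 0 := by
      intro i
      by_cases hi : i ∈ T
      · rw [hz i hi, map_zero, mul_zero]
      · rw [hν i hi, zero_mul]
    have h4 : ∀ i, D (pv B κ q C (a i) h) = ∑ j, pd B κ q C (a i) h j * D (h j) +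
        a i ^ (B + κ * t0) * aeval h (q m0) := by
      intro i
      refine der_pv B κ q C (a i) h D ?_ ⟨t0, ht0⟩ m0 ?_ ?_
      · exact hD (Sum.inl i)
      · intro t m htm
        have := hD (Sum.inr (t, m))
        rw [Sum.elim_inr, Sum.elim_inr, if_neg htm] at this
        exact this
      · have := hD (Sum.inr (⟨t0, ht0⟩, m0))
        rw [Sum.elim_inr, Sum.elim_inr, if_pos rfl] at this
        exact this
    have h5 : ∑ i, ν i * D (pv B κ q C (a i) h) = 0 := Finset.sum_eq_zero fun i _ => h3 i
    have h6 : ∑ i, ν i * D (pv B κ q C (a i) h) =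
        (∑ j, (∑ i, ν i * pd B κ q C (a i) h j) * D (h j)) +
          (∑ i, ν i * a i ^ B * (a i ^ κ) ^ t0) * aeval h (q m0) := by
      rw [Finset.sum_congr rfl fun i _ => by rw [h4 i]]
      simp only [mul_add, Finset.sum_add_distrib]
      congr 1
      · simp only [Finset.mul_sum, Finset.sum_mul]
        rw [Finset.sum_comm]
        exact Finset.sum_congr rfl fun j _ => Finset.sum_congr rfl fun i _ => by ring
      · rw [Finset.sum_mul]
        refine Finset.sum_congr rfl fun i _ => ?_
        rw [pow_add, pow_mul]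
        ring
    rw [h5] at h6
    have h7 : ∑ j, (∑ i, ν i * pd B κ q C (a i) h j) * D (h j) = 0 :=
      Finset.sum_eq_zero fun j _ => by rw [h2 j, zero_mul]
    rw [h7, zero_add] at h6
    exact (mul_eq_zero.1 h6.symm).resolve_right hm0
  have h8 := congrFun hmain i
  exact (mul_eq_zero.1 h8).resolve_right (pow_ne_zero _ (node_ne hinda i))

/-- outside of the zeros of the `q` -/
theorem smo_out (hq : ∀ m, (q m).IsHomogeneous 2) (hκ : 1 ≤ κ) (hs : N + 1 ≤ s)
    (hind : AlgebraicIndependent K (Sum.elim a C))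
    {h : Fin (N + 1) → Ω} {m0 : ι} (hm0 : aeval h (q m0) ≠ 0) {ν : Fin c → Ω}
    (h1 : ∀ i, ν i * pv B κ q C (a i) h = 0)
    (h2 : ∀ j, ∑ i, ν i * pd B κ q C (a i) h j = 0) : ν = 0 := by
  classical
  have hh : h ≠ 0 := by
    rintro rfl
    apply hm0
    have := Pool.Agent.U207.QC.euler (hq m0) (0 : Fin (N + 1) → Ω)
    simp only [Pi.zero_apply, zero_mul, Finset.sum_const_zero] at this
    have hch : CharZero Ω := charZero_of_injective_algebraMap (algebraMap K Ω).injective
    exact (mul_eq_zero.1 this.symm).resolve_left two_ne_zero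
  set Z : Finset (Fin c) := Finset.univ.filter fun i => pv B κ q C (a i) h = 0 with hZ
  have hZm : ∀ i, i ∈ Z ↔ pv B κ q C (a i) h = 0 := fun i => by
    rw [hZ, Finset.mem_filter]
    simp
  have hcard : Z.card ≤ N := by
    by_contra hcon
    obtain ⟨T, hTZ, hT⟩ := Finset.exists_subset_card_eq (show N + 1 ≤ Z.card by omega)
    let e : Fin (N + 1) ≃ T := (Fintype.equivFinOfCardEq (by rw [Fintype.card_coe]; exact hT)).symm
    set M : Matrix (Fin (N + 1)) (Fin (N + 1)) Ω :=
      Matrix.of fun l j => pd B κ q C (a (e l)) h j with hM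
    have hdet : M.det = 0 := by
      rw [← Matrix.exists_mulVec_eq_zero_iff]
      refine ⟨h, hh, ?_⟩
      funext l
      have h3 := euler_pv B κ hq C (a (e l)) h
      rw [(hZm _).1 (hTZ (e l).2), mul_zero] at h3
      exact h3
    obtain ⟨v, hv0, hv⟩ := Matrix.exists_vecMul_eq_zero_iff.2 hdet
    set μ : Fin c → Ω := fun i => if hi : i ∈ T then v (e.symm ⟨i, hi⟩) else 0 with hμ
    have hμe : ∀ l, μ (e l) = v l := by
      intro l
      rw [hμ]
      simp only
      rw [dif_pos (e l).2]
      congr 1
      exact e.symm_apply_apply l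
    have h4 : μ = 0 := by
      refine smo_small hκ hind hm0 (T := T) (by omega) (fun i hi => dif_neg hi)
        (fun i hi => (hZm i).1 (hTZ hi)) fun j => ?_
      have h5 := congrFun hv j
      rw [Pi.zero_apply, Matrix.vecMul, dotProduct] at h5
      rw [← h5]
      have h6 : ∑ i, μ i * pd B κ q C (a i) h j = ∑ i ∈ T, μ i * pd B κ q C (a i) h j := by
        symm
        refine Finset.sum_subset (Finset.subset_univ _) fun i _ hi => ?_
        rw [hμ]
        simp only
        rw [dif_neg hi, zero_mul]
      rw [h6, ← Finset.sum_coe_sort T (fun i => μ i * pd B κ q C (a i) h j),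
        ← e.sum_comp (fun i : T => μ i * pd B κ q C (a i) h j)]
      refine Finset.sum_congr rfl fun l _ => ?_
      rw [hμe]
      rfl
    apply hv0
    funext l
    rw [← hμe l, h4]
    rfl
  refine smo_small hκ hind hm0 (T := Z) (by omega) (fun i hi => ?_) (fun i hi => (hZm i).1 hi) h2
  exact (mul_eq_zero.1 (h1 i)).resolve_right fun h3 => hi ((hZm i).2 h3)

end smo

end Pool.Agent.U207.QC
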