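import Pool.Agent.U207.QC.TrD
import Pool.Agent.N254.SQ.Qimp
import Pool.Agent.N254.SQ.Qeq
import Pool.Agent.N254.SQ.Qforw
import Pool.Agent.N254.SQ.Cls
import Pool.Agent.N254.SQ.ClsA

/-!
Project QC (helper207), part G1: exceptional sets, the transfer to the cover, and the direction from all
varieties to the exceptional sets of all quasi-projective sets.
-/

set_option autoImplicit false

namespace Pool.Agent.U207.QC

open MvPolynomial Metric Filter Topology FF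
open Pool.Agent.N254.SQ (IsForm Fm Idl Gen Eqs Component Exc Cls Mon ver pull NotIn LogGeneral
  Lifts Good GoodAlg OnSpecialQ OnCurvesQ OnDiscsQ qf_eqs qf_eqsForm qf_mul t_comp2)
open Pool.Agent.W602.GT (SubVar GeneralType coords)

/-- a type of exceptional sets of quasi-projective varieties `V(S) ∖ V(T)`: `P n S T G` says that `G`
vanishes on it -/
structure Exc0 (P : ∀ n : ℕ, Set (MvPolynomial (Fin (n + 1)) ℂ) →
    Set (MvPolynomial (Fin (n + 1)) ℂ) → MvPolynomial (Fin (n + 1)) ℂ → Prop) : Prop where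
  idl : ∀ (n : ℕ) (S T : Set (MvPolynomial (Fin (n + 1)) ℂ)), Idl (P n S T)
  van : ∀ (n : ℕ) (S T : Set (MvPolynomial (Fin (n + 1)) ℂ)) (G : MvPolynomial (Fin (n + 1)) ℂ),
    IsForm G → (∀ (L : Type) [Field L] [Algebra ℂ L] (x : Fin (n + 1) → L),
      (∀ p ∈ S, aeval x p = 0) → aeval x G = 0) → P n S T G
  restr : ∀ (n : ℕ) (S T : Set (MvPolynomial (Fin (n + 1)) ℂ)) (L : Type) [Field L] [Algebra ℂ L]
    (y : Fin (n + 1) → L) (G H : MvPolynomial (Fin (n + 1)) ℂ), IsForm G → IsForm H →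
    (∀ F, IsForm F → aeval y F = 0 → P n S T (F * H)) → P n (Eqs y) T G → P n S T (G * H)
  mono : ∀ (n : ℕ) (S S' T : Set (MvPolynomial (Fin (n + 1)) ℂ)),
    (∀ (L : Type) [Field L] [Algebra ℂ L] (x : Fin (n + 1) → L),
      (∀ p ∈ S', aeval x p = 0) → ∀ p ∈ S, aeval x p = 0) →
    ∀ G, P n S T G → P n S' T G
  coord : ∀ (n : ℕ) (S T : Set (MvPolynomial (Fin (n + 1)) ℂ)) (G : MvPolynomial (Fin (n + 1)) ℂ),
    IsForm G → (∀ j, P n S T (G * X j)) → P n S T G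
  away : ∀ (n : ℕ) (S T : Set (MvPolynomial (Fin (n + 1)) ℂ)) (H : MvPolynomial (Fin (n + 1)) ℂ),
    (∀ F ∈ T, IsForm F) → IsForm H → (∀ F ∈ T, P n S T (F * H)) → P n S T H
  point : ∀ (n : ℕ) (T : Set (MvPolynomial (Fin (n + 1)) ℂ)) (L : Type) [Field L] [Algebra ℂ L]
    (y : Fin (n + 1) → L), Gen L 0 y → P n (Eqs y) T 1

/-- the transfer: a form `G` vanishes on the exceptional set of the complement of the pull-back
of `V(T')` in `Y` if and only if its restrictions to all sheets over `v(V(S))` vanish on the exceptional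
set of `V(S) ∖ V(T)` -/
def CovT (P : ∀ n : ℕ, Set (MvPolynomial (Fin (n + 1)) ℂ) →
    Set (MvPolynomial (Fin (n + 1)) ℂ) → MvPolynomial (Fin (n + 1)) ℂ → Prop) : Prop :=
  ∀ (n N d c : ℕ) (m : Fin (N + 1) → Fin (n + 1) → ℕ)
    (S : Set (MvPolynomial (Fin (n + 1)) ℂ)) (Q ℓ : Fin c → MvPolynomial (Fin (N + 1)) ℂ),
    GoodC n N d c m S Q ℓ → ∀ (T : Set (MvPolynomial (Fin (n + 1)) ℂ))
      (T' : Set (MvPolynomial (Fin (N + 1)) ℂ)), Lifts m d T T' → ∀ G, IsForm G →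
        (P (N + c) (coverEqs Q) (rename (hI N c) '' T') G ↔
          ∀ ℓ', Signs ℓ ℓ' → P n S T (pull m (sbl ℓ' G)))

theorem exc0_of {P : ∀ n : ℕ, Set (MvPolynomial (Fin (n + 1)) ℂ) →
    Set (MvPolynomial (Fin (n + 1)) ℂ) → MvPolynomial (Fin (n + 1)) ℂ → Prop} (h : Exc P) :
    Exc0 P := ⟨h.idl, h.van, h.restr, h.mono, h.coord, h.away, h.point⟩

theorem covT_of {P : ∀ n : ℕ, Set (MvPolynomial (Fin (n + 1)) ℂ) →
    Set (MvPolynomial (Fin (n + 1)) ℂ) → MvPolynomial (Fin (n + 1)) ℂ → Prop} (h : Exc P)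
    (h1 : ∀ (n N d c : ℕ) (m : Fin (N + 1) → Fin (n + 1) → ℕ)
      (S : Set (MvPolynomial (Fin (n + 1)) ℂ)) (Q ℓ : Fin c → MvPolynomial (Fin (N + 1)) ℂ),
      GoodC n N d c m S Q ℓ → ∀ A, Good n N d m S A → ∀ T' G,
        P (N + c) (coverEqs Q) (rename (hI N c) '' T') G → P N {A} T' (sbl ℓ G))
    (h2 : ∀ (n N d c : ℕ) (m : Fin (N + 1) → Fin (n + 1) → ℕ)
      (S : Set (MvPolynomial (Fin (n + 1)) ℂ)) (Q ℓ : Fin c → MvPolynomial (Fin (N + 1)) ℂ),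
      GoodC n N d c m S Q ℓ → ∀ A, Good n N d m S A → ∀ T' G,
        (∀ ℓ', Signs ℓ ℓ' → P N {A} T' (sbl ℓ' G)) →
          P (N + c) (coverEqs Q) (rename (hI N c) '' T') G) : CovT P := by
  intro n N d c m S Q ℓ hg T T' hT G hG
  obtain ⟨A, hA, hA2⟩ := exists_aux hg
  have h3 : ∀ ℓ', Signs ℓ ℓ' → (P N {A} T' (sbl ℓ' G) ↔ P n S T (pull m (sbl ℓ' G))) := by
    intro ℓ' hs
    obtain ⟨e, he⟩ := hG
    exact h.transfer n N d m S A hA hA2 T T' hT _ ⟨e, sbl_form (hs.hom hg.homL) he⟩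
  constructor
  · intro h4 ℓ' hs
    exact (h3 ℓ' hs).1 (h1 n N d c m S Q ℓ' (hg.signs hs) A hA T' G h4)
  · intro h4
    exact h2 n N d c m S Q ℓ hg A hA T' G fun ℓ' hs => (h3 ℓ' hs).2 (h4 ℓ' hs)

theorem covT_special : CovT (fun _ S T G => OnSpecialQ S T G) :=
  covT_of (Pool.Agent.N254.SQ.t_qspec Pool.Agent.N254.SQ.t_cent)
    (fun _ _ _ _ _ _ _ _ hg _ hA _ _ h => special_down hg hA h)
    (fun _ _ _ _ _ _ _ _ hg _ hA _ _ h => special_up hg hA h)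

theorem covT_curves : CovT (fun _ S T G => OnCurvesQ S T G) :=
  covT_of Pool.Agent.N254.SQ.t_qcurv
    (fun _ _ _ _ _ _ _ _ hg _ hA _ _ h => curves_down hg hA h)
    (fun _ _ _ _ _ _ _ _ hg _ hA _ _ h => curves_up hg hA h)

theorem covT_discs : CovT (fun _ S T G => OnDiscsQ S T G) :=
  covT_of Pool.Agent.N254.SQ.t_qdisc
    (fun _ _ _ _ _ _ _ _ hg _ hA _ _ h => discs_down hg hA h)
    (fun _ _ _ _ _ _ _ _ hg _ hA _ _ h => discs_up hg hA h)

/-! ### from all varieties to the exceptional sets -/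

/-- the components of an exceptional set -/
theorem qf_comp0 {J : ∀ n : ℕ, Set (MvPolynomial (Fin (n + 1)) ℂ) →
    Set (MvPolynomial (Fin (n + 1)) ℂ) → MvPolynomial (Fin (n + 1)) ℂ → Prop} (hJ : Exc0 J)
    {n : ℕ} {S T : Set (MvPolynomial (Fin (n + 1)) ℂ)} (hS : ∀ p ∈ S, IsForm p)
    (hT : ∀ F ∈ T, IsForm F) {e : ℕ} {G : MvPolynomial (Fin (n + 1)) ℂ} (hG : G.IsHomogeneous e)
    (he : 1 ≤ e) (hn : ¬ J n S T G) :
    ∃ (L : Type) (_ : Field L) (_ : Algebra ℂ L) (w : ℕ) (y : Fin (n + 1) → L), 1 ≤ w ∧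
      Gen L w y ∧ aeval y G ≠ 0 ∧ NotIn T y ∧ (∀ p ∈ S, aeval y p = 0) ∧
      Component (J n S T) y := by
  obtain ⟨L, iF, iA, w, y, hgen, hGy, hc⟩ := t_comp2 n (J n S T) (hJ.idl n S T) e G hG he hn
  obtain ⟨hc1, H, hH, hHy, hc2⟩ := hc
  refine ⟨L, iF, iA, w, y, ?_, hgen, hGy, ?_, ?_, hc1, H, hH, hHy, hc2⟩
  · by_contra hw
    have hw0 : w = 0 := by omega
    subst hw0
    have h1 := hJ.restr n S T L y 1 H ⟨0, isHomogeneous_one _ _⟩ hH hc2 (hJ.point n T L y hgen)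
    rw [one_mul] at h1
    exact hHy (hc1 H hH h1)
  · by_contra hnot
    have h1 : ∀ F ∈ T, aeval y F = 0 := by
      intro F hF
      by_contra h0
      exact hnot ⟨F, hF, h0⟩
    exact hHy (hc1 H hH (hJ.away n S T H hT hH fun F hF => hc2 F (hT F hF) (h1 F hF)))
  · intro p hp
    exact hc1 p (hS p hp) (hJ.van n S T p (hS p hp) fun L _ _ x hx => hx p hp)

/-- from positive degrees to degree zero -/
theorem qf_deg0 {I J : ∀ n : ℕ, Set (MvPolynomial (Fin (n + 1)) ℂ) →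
    Set (MvPolynomial (Fin (n + 1)) ℂ) → MvPolynomial (Fin (n + 1)) ℂ → Prop} (hI : Exc0 I)
    (hJ : Exc0 J) {n : ℕ} {S T : Set (MvPolynomial (Fin (n + 1)) ℂ)}
    (h : ∀ (e : ℕ) (G : MvPolynomial (Fin (n + 1)) ℂ), G.IsHomogeneous e → 1 ≤ e →
      I n S T G → J n S T G) (G : MvPolynomial (Fin (n + 1)) ℂ) (hG : IsForm G)
    (hIG : I n S T G) : J n S T G := by
  refine hJ.coord n S T G hG fun j => ?_
  obtain ⟨e, he⟩ := hG
  exact h (e + 1) (G * X j) (he.mul (isHomogeneous_X _ _)) (by omega)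
    ((hI.idl n S T).mul G (X j) ⟨e, he⟩ ⟨1, isHomogeneous_X _ _⟩ hIG)

/-- the contradiction: a form `G` with `G(y) ≠ 0` on the exceptional set of the component -/
theorem qf_con0 {J : ∀ n : ℕ, Set (MvPolynomial (Fin (n + 1)) ℂ) →
    Set (MvPolynomial (Fin (n + 1)) ℂ) → MvPolynomial (Fin (n + 1)) ℂ → Prop} (hJ : Exc0 J)
    {n : ℕ} {S T : Set (MvPolynomial (Fin (n + 1)) ℂ)} {L : Type} [Field L] [Algebra ℂ L]
    {y : Fin (n + 1) → L} (hc : Component (J n S T) y) {G : MvPolynomial (Fin (n + 1)) ℂ}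
    (hG : IsForm G) (hGy : aeval y G ≠ 0) (h : J n (Eqs y) T G) : False := by
  obtain ⟨hc1, H, hH, hHy, hc2⟩ := hc
  have h1 := hc1 (G * H) (qf_mul hG hH) (hJ.restr n S T L y G H hG hH hc2 h)
  rw [map_mul] at h1
  exact (mul_ne_zero hGy hHy) h1

/-- no component is of log general type -/
theorem forw_imp {P : ∀ n : ℕ, Set (MvPolynomial (Fin (n + 1)) ℂ) →
    Set (MvPolynomial (Fin (n + 1)) ℂ) → MvPolynomial (Fin (n + 1)) ℂ → Prop} (hP : Exc0 P)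
    (n : ℕ) (T : Set (MvPolynomial (Fin (n + 1)) ℂ))
    (h : ∀ (L : Type) [Field L] [Algebra ℂ L] (w : ℕ) (y : Fin (n + 1) → L), 1 ≤ w → Gen L w y →
      NotIn T y → LogGeneral T L w y → ∃ G, IsForm G ∧ aeval y G ≠ 0 ∧ P n (Eqs y) T G)
    (S : Set (MvPolynomial (Fin (n + 1)) ℂ)) (L : Type) [Field L] [Algebra ℂ L] (w : ℕ)
    (y : Fin (n + 1) → L) (hw : 1 ≤ w) (hgen : Gen L w y) (hnot : NotIn T y)
    (hlog : LogGeneral T L w y) : ¬ Component (P n S T) y := by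
  intro hc
  obtain ⟨G, hG, hGy, hPG⟩ := h L w y hw hgen hnot hlog
  exact qf_con0 hP hc hG hGy hPG

/-- the exceptional sets agree -/
theorem forw_eq {P : ∀ n : ℕ, Set (MvPolynomial (Fin (n + 1)) ℂ) →
    Set (MvPolynomial (Fin (n + 1)) ℂ) → MvPolynomial (Fin (n + 1)) ℂ → Prop}
    (hSp : Exc0 (fun _ S T G => OnSpecialQ S T G)) (hP : Exc0 P)
    (n : ℕ) (T : Set (MvPolynomial (Fin (n + 1)) ℂ)) (hT : ∀ H ∈ T, IsForm H)
    (h : ∀ (L : Type) [Field L] [Algebra ℂ L] (w : ℕ) (y : Fin (n + 1) → L), 1 ≤ w → Gen L w y →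
      NotIn T y → (LogGeneral T L w y ↔ ∃ G, IsForm G ∧ aeval y G ≠ 0 ∧ P n (Eqs y) T G))
    (S : Set (MvPolynomial (Fin (n + 1)) ℂ)) (hS : ∀ p ∈ S, IsForm p)
    (G : MvPolynomial (Fin (n + 1)) ℂ) (hG : IsForm G) : P n S T G ↔ OnSpecialQ S T G := by
  constructor
  · refine qf_deg0 (I := P) (J := fun _ S T G => OnSpecialQ S T G) hP hSp ?_ G hG
    intro e G hG he hPG
    by_contra hn
    obtain ⟨L, iF, iA, w, y, hw, hgen, hGy, hnot, hSy, hc⟩ :=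
      qf_comp0 (J := fun _ S T G => OnSpecialQ S T G) hSp hS hT hG he hn
    have h1 : P n (Eqs y) T G := hP.mono n S (Eqs y) T
      (fun L' _ _ x hx => qf_eqs hS hSy L' x hx) G hPG
    refine qf_con0 (J := fun _ S T G => OnSpecialQ S T G) hSp hc ⟨e, hG⟩ hGy ?_
    intro L' _ _ w' y' hw' hsub hnot'
    by_cases h0 : aeval y' G = 0
    · exact Or.inr h0
    left
    refine (h L' w' y' hw' ⟨hsub.ne, hsub.gen, hsub.dim⟩ hnot').2 ⟨G, ⟨e, hG⟩, h0, ?_⟩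
    exact hP.mono n (Eqs y) (Eqs y') T (fun L'' _ _ x hx => qf_eqs (qf_eqsForm y)
      (fun p hp => hsub.mem ⟨p, hp⟩) L'' x hx) G h1
  · refine qf_deg0 (I := fun _ S T G => OnSpecialQ S T G) (J := P) hSp hP ?_ G hG
    intro e G hG he hSG
    by_contra hn
    obtain ⟨L, iF, iA, w, y, hw, hgen, hGy, hnot, hSy, hc⟩ := qf_comp0 hP hS hT hG he hn
    have h1 : LogGeneral T L w y := by
      rcases hSG L w y hw ⟨hgen.ne, fun p => hSy p.1 p.2, hgen.gen, hgen.dim⟩ hnot with h2 | h2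
      · exact h2
      · exact absurd h2 hGy
    obtain ⟨G', hG', hG'y, hPG'⟩ := (h L w y hw hgen hnot).1 h1
    exact qf_con0 hP hc hG' hG'y hPG'

end Pool.Agent.U207.QC
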