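import Pool.Agent.U207.QC.Tpl
import Pool.Agent.U207.QC.SbK
import Pool.Agent.N254.SQ.LocDefs4

/-!
Project QC (helper207): holomorphic maps from complex tori to the covers.
-/

set_option autoImplicit false

namespace Pool.Agent.U207.QC

open MvPolynomial Metric FF
open Pool.Agent.N254.SQ (IsForm OnTori OnCurves Mon pull eval_pull ver ver_prop ver_smul ver_ne_zero
  ver_diff eval_scale leaves)

/-- the class of complex tori -/
def TorusLattice (g : ℕ) (L : AddSubgroup (Fin g → ℂ)) : Prop :=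
  DiscreteTopology L ∧ Submodule.span ℝ (L : Set (Fin g → ℂ)) = ⊤

/-- `G` vanishes on all nonconstant holomorphic maps to `V(S)` from the tori in the class `𝒯` -/
def OnTor (𝒯 : ∀ g : ℕ, AddSubgroup (Fin g → ℂ) → Prop) {n : ℕ}
    (S : Set (MvPolynomial (Fin (n + 1)) ℂ)) (G : MvPolynomial (Fin (n + 1)) ℂ) : Prop :=
  ∀ (g : ℕ) (L : AddSubgroup (Fin g → ℂ)), 𝒯 g L → ∀ F : (Fin g → ℂ) → (Fin (n + 1) → ℂ),
    Differentiable ℂ F → (∀ z, F z ≠ 0) → (∀ z, ∀ p ∈ S, eval (F z) p = 0) →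
      (∀ z, ∀ l ∈ L, ∃ c : ℂ, F (z + l) = c • F z) →
        (∀ z w, ∃ c : ℂ, F w = c • F z) ∨ ∀ z, eval (F z) G = 0

theorem onTori_iff {n : ℕ} (S : Set (MvPolynomial (Fin (n + 1)) ℂ))
    (G : MvPolynomial (Fin (n + 1)) ℂ) : OnTor TorusLattice S G ↔ OnTori S G :=
  ⟨fun h g L h1 h2 => h g L ⟨h1, h2⟩, fun h g L h1 => h g L h1.1 h1.2⟩

section

variable {n N d c : ℕ} {m : Fin (N + 1) → Fin (n + 1) → ℕ}
  {S : Set (MvPolynomial (Fin (n + 1)) ℂ)} {P ℓ : Fin c → MvPolynomial (Fin (N + 1)) ℂ}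

/-- nonconstant holomorphic maps from a normed space to `Y` lie on a sheet -/
theorem factors (hg : GoodC n N d c m S P ℓ) (E : Type) [NormedAddCommGroup E] [NormedSpace ℂ E]
    (f : E → Fin (N + c + 1) → ℂ) (hf : Differentiable ℂ f) (hf0 : ∀ z, f z ≠ 0)
    (hfP : ∀ z i, eval (f z) (coverForm P i) = 0) :
    (∀ z w, ∃ s : ℂ, f w = s • f z) ∨
      ∃ (ℓ' : Fin c → MvPolynomial (Fin (N + 1)) ℂ) (F : E → Fin (n + 1) → ℂ), Signs ℓ ℓ' ∧
        Differentiable ℂ F ∧ (∀ z, F z ≠ 0) ∧ (∀ z, ∀ p ∈ S, eval (F z) p = 0) ∧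
        ∀ z, f z = el ℓ' (ver m (F z)) := by
  by_cases hcon : ∀ z w, ∃ s : ℂ, f w = s • f z
  · exact Or.inl hcon
  right
  have hne : ∃ p q i j, f p i * f q j ≠ f p j * f q i := by
    by_contra h
    push Not at h
    apply hcon
    intro z w
    obtain ⟨j, hj⟩ : ∃ j, f z j ≠ 0 := by
      by_contra h1
      push Not at h1
      exact hf0 z (funext h1)
    refine ⟨f w j / f z j, funext fun i => ?_⟩
    rw [Pi.smul_apply, smul_eq_mul, div_mul_eq_mul_div, eq_div_iff hj]
    have := h z w i j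
    linear_combination - this
  have hdpos : 0 < d := hg.hd1
  have hV0 : ∀ z, ∃ x : Fin (n + 1) → ℂ, x ≠ 0 ∧ (∀ p ∈ S, eval x p = 0) ∧
      f z ∘ hI N c = ver m x := by
    intro z
    refine key_line (𝒜 := coverEqs P) (R := fun v => ∃ x : Fin (n + 1) → ℂ, x ≠ 0 ∧
      (∀ p ∈ S, eval x p = 0) ∧ v ∘ hI N c = ver m x) (covEqs_form hg.homP) ?_ ?_ f hf ?_ hne z
      (hf0 z)
    · rintro s v hs ⟨x, hx, hxS, hxv⟩
      obtain ⟨μ, hμ⟩ := IsAlgClosed.exists_pow_nat_eq s hdpos
      have hμ0 : μ ≠ 0 := by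
        rintro rfl
        rw [zero_pow (by omega)] at hμ
        exact hs hμ.symm
      refine ⟨μ • x, smul_ne_zero hμ0 hx, fun r hr => ?_, ?_⟩
      · obtain ⟨e, he⟩ := hg.homS r hr
        rw [eval_scale he, hxS r hr, mul_zero]
      · have h5 : (s • v) ∘ hI N c = s • (v ∘ hI N c) := rfl
        rw [h5, ver_smul hg.mon, hμ, hxv]
    · intro f h1 h2 h3
      exact hg.curves f h1 h2 fun z i => h3 z _ ⟨i, rfl⟩
    · rintro p _ ⟨i, rfl⟩
      exact hfP p i
  have hV : ∀ z, OnV m S (f z ∘ hI N c) := fun z => OnV.of (hV0 z)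
  obtain ⟨ℓ', hs, hl⟩ := signs_all hf fun z i => hg.sq_of (hfP z) (hV z) i
  have hh : Differentiable ℂ fun p => f p ∘ hI N c := by
    rw [differentiable_pi]
    intro j
    exact differentiable_pi.1 hf (hI N c j)
  obtain ⟨F, hF, hfF⟩ := leaves.lift n N d m hg.mon hg.hd1 E (fun p => f p ∘ hI N c) hh fun z => by
    obtain ⟨x, hx, -, hxG⟩ := hV0 z
    exact ⟨x, hx, hxG⟩
  have hF0 : ∀ z, F z ≠ 0 := by
    intro z h0
    apply (hV z).ne hg
    rw [hfF z, h0]
    funext b
    obtain ⟨j, hj⟩ : ∃ j, m b j ≠ 0 := by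
      by_contra h
      push Not at h
      have := hg.mon.deg b
      rw [Finset.sum_eq_zero fun j _ => h j] at this
      omega
    exact Finset.prod_eq_zero (Finset.mem_univ j) (by simp [hj])
  refine ⟨ℓ', F, hs, hF, hF0, fun z p hp => ?_, fun z => ?_⟩
  · obtain ⟨x, hx, hxP, hxG⟩ := hV0 z
    obtain ⟨c, hc⟩ := ver_prop (x := x) (c := 1) hg.mon hg.hd1 (hF0 z) (by
      rw [one_smul, ← hfF z, hxG])
    obtain ⟨e, he⟩ := hg.homS p hp
    rw [hc, eval_scale he, hxP p hp, mul_zero]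
  · rw [← hfF z]
    exact hl z

theorem tor_tr (𝒯 : ∀ g : ℕ, AddSubgroup (Fin g → ℂ) → Prop) (hg : GoodC n N d c m S P ℓ)
    (G : MvPolynomial (Fin (N + c + 1)) ℂ) :
    OnTor 𝒯 (coverEqs P) G ↔ ∀ ℓ', Signs ℓ ℓ' → OnTor 𝒯 S (onSheet m ℓ' G) := by
  have hm := hg.mon
  have hd := hg.hd1
  have hev : ∀ (ℓ' : Fin c → MvPolynomial (Fin (N + 1)) ℂ) (x : Fin (n + 1) → ℂ),
      eval x (onSheet m ℓ' G) = eval (el ℓ' (ver m x)) G := by
    intro ℓ' x
    have h1 : onSheet m ℓ' G = pull m (sbl ℓ' G) := rfl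
    rw [h1, eval_pull]
    exact (aeval_sbl (L := ℂ) (ℓ := ℓ') (ver m x) G)
  constructor
  · intro h ℓ' hs g L hL F hF hF0 hFS hFL
    have hg' := hg.signs hs
    rcases h g L hL (fun z => el ℓ' (ver m (F z))) (by
        have h2 : Differentiable ℂ fun z => ver m (F z) := ver_diff hF
        rw [differentiable_pi]
        intro l
        rcases idx_cases l with ⟨j, rfl⟩ | ⟨i, rfl⟩
        · simp only [el_h]
          exact differentiable_pi.1 h2 j
        · simp only [el_x]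
          exact Pool.Agent.N254.SQ.sb_eval (ℓ' i) h2)
      (fun z => el_ne (ver_ne_zero hm hd (hF0 z))) (by
        rintro z _ ⟨i, rfl⟩
        exact hg'.el_mem (onV_ver hg' (hF0 z) (hFS z)) i) (by
        intro z l hl
        obtain ⟨s, hs1⟩ := hFL z l hl
        refine ⟨s ^ d, ?_⟩
        rw [hs1, ver_smul hm, el_smul hg'.homL]) with h1 | h1
    · left
      intro z w
      obtain ⟨s, hs1⟩ := h1 z w
      have h3 := congrArg (fun v => v ∘ hI N c) hs1
      simp only [el_hI] at h3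
      have h4 : ver m (F w) = s • ver m (F z) := by
        rw [h3]
        funext j
        change s * el ℓ' (ver m (F z)) (hI N c j) = s * ver m (F z) j
        rw [el_h]
      exact ver_prop hm hd (hF0 w) h4
    · right
      intro z
      rw [hev]
      exact h1 z
  · intro h g L hL f hf hf0 hfP hfL
    rcases factors hg (Fin g → ℂ) f hf hf0 (fun z i => hfP z _ ⟨i, rfl⟩) with h1 |
      ⟨ℓ', F, hs, hF, hF0, hFS, hfF⟩
    · exact Or.inl h1
    · have hg' := hg.signs hs
      rcases h ℓ' hs g L hL F hF hF0 hFS (by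
          intro z l hl
          obtain ⟨s, hs1⟩ := hfL z l hl
          rw [hfF, hfF] at hs1
          have h3 := congrArg (fun v => v ∘ hI N c) hs1
          simp only [el_hI] at h3
          have h4 : ver m (F (z + l)) = s • ver m (F z) := by
            rw [h3]
            funext j
            change s * el ℓ' (ver m (F z)) (hI N c j) = s * ver m (F z) j
            rw [el_h]
          exact ver_prop hm hd (hF0 _) h4) with h1 | h1
      · left
        intro z w
        obtain ⟨s, hs1⟩ := h1 z w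
        refine ⟨s ^ d, ?_⟩
        rw [hfF, hfF, hs1, ver_smul hm, el_smul hg'.homL]
      · right
        intro z
        rw [hfF, ← hev]
        exact h1 z

end

theorem cl1_tor (𝒯 : ∀ g : ℕ, AddSubgroup (Fin g → ℂ) → Prop) :
    Cl1 (fun _ S G => OnTor 𝒯 S G) where
  pow := by
    intro n S G k _ hk
    unfold OnTor
    simp only [map_pow, pow_eq_zero_iff (show k ≠ 0 by omega)]
  congr := by
    intro n S S' h G hG g L hL F h1 h2 h3 h4
    exact hG g L hL F h1 h2 (fun z => (h ℂ (F z)).2 (h3 z)) h4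
  zero := by
    intro S G _ _ g L _ F _ hF0 _ _
    left
    intro z w
    have h1 : F z 0 ≠ 0 := by
      intro h2
      apply hF0 z
      funext j
      rw [show j = 0 from Fin.ext (by omega)]
      exact h2
    refine ⟨F w 0 / F z 0, funext fun j => ?_⟩
    rw [show j = 0 from Fin.ext (by omega), Pi.smul_apply, smul_eq_mul, div_mul_cancel₀ _ h1]
  tr := fun _ _ _ _ _ _ _ _ hg G _ => tor_tr 𝒯 hg G

end Pool.Agent.U207.QC
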