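import Pool.Agent.U207.QC.Ex
import Pool.Agent.N254.SQ.Qdisc
import Pool.Agent.N254.SQ.Qspec
import Pool.Agent.N254.SQ.Qcurv
import Pool.Agent.N254.SQ.Cent
import Pool.Agent.W603.LV.Spec

/-!
Project QC (helper207), part F1: the sheets of the cover over `v(V(S))`.
-/

set_option autoImplicit false

namespace Pool.Agent.U207.QC

open MvPolynomial Metric Filter Topology FF
open Pool.Agent.N254.SQ (IsForm Extends Mon ver pull aeval_scale aeval_pull NotIn ValueNotIn
  ValueIn LogGeneral Lifts eval_scale)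
open Pool.Agent.W602.GT (SubVar GeneralType coords)
open Pool.Agent.W603.LV (Ge)

section sheet

variable {N c : ℕ} {L : Type} [Field L] [Algebra ℂ L]

/-- the point on the sheet given by the linear forms `ℓ` -/
noncomputable def el (ℓ : Fin c → MvPolynomial (Fin (N + 1)) ℂ) (y : Fin (N + 1) → L) :
    Fin (N + c + 1) → L := pt y fun i => aeval y (ℓ i)

variable {ℓ ℓ' : Fin c → MvPolynomial (Fin (N + 1)) ℂ}

theorem el_h (y : Fin (N + 1) → L) (j : Fin (N + 1)) : el ℓ y (hI N c j) = y j := pt_h _ _ j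

theorem el_x (y : Fin (N + 1) → L) (i : Fin c) : el ℓ y (xI N c i) = aeval y (ℓ i) := pt_x _ _ i

theorem el_hI (y : Fin (N + 1) → L) : el ℓ y ∘ hI N c = y := pt_hI _ _

theorem el_ne {y : Fin (N + 1) → L} (hy : y ≠ 0) : el ℓ y ≠ 0 := pt_ne hy _

theorem aeval_sbl (y : Fin (N + 1) → L) (G : MvPolynomial (Fin (N + c + 1)) ℂ) :
    aeval y (sbl ℓ G) = aeval (el ℓ y) G := by
  change ((aeval y).comp (aeval (pt X ℓ))) G = _
  rw [comp_aeval]
  congr 2
  funext l
  rcases idx_cases l with ⟨j, rfl⟩ | ⟨i, rfl⟩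
  · simp only [pt_h, aeval_X, el_h]
  · simp only [pt_x, el_x]

theorem sbl_rename (G : MvPolynomial (Fin (N + 1)) ℂ) : sbl ℓ (rename (hI N c) G) = G := by
  unfold sbl
  rw [aeval_rename, pt_hI]
  exact aeval_X_left_apply G

theorem el_smul (hl : ∀ i, (ℓ i).IsHomogeneous 1) (s : L) (y : Fin (N + 1) → L) :
    el ℓ (s • y) = s • el ℓ y := by
  funext l
  rcases idx_cases l with ⟨j, rfl⟩ | ⟨i, rfl⟩
  · rw [el_h, Pi.smul_apply, Pi.smul_apply, el_h]
  · rw [el_x, Pi.smul_apply, el_x, aeval_scale (hl i), pow_one, smul_eq_mul]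

theorem sbl_form (hl : ∀ i, (ℓ i).IsHomogeneous 1) {G : MvPolynomial (Fin (N + c + 1)) ℂ}
    {e : ℕ} (hG : G.IsHomogeneous e) : (sbl ℓ G).IsHomogeneous e := by
  have h1 : (sbl ℓ G).IsHomogeneous (1 * e) := by
    refine hG.aeval _ fun l => ?_
    rcases idx_cases l with ⟨j, rfl⟩ | ⟨i, rfl⟩
    · rw [pt_h]
      exact isHomogeneous_X _ _
    · rw [pt_x]
      exact hl i
  rwa [one_mul] at h1

theorem Signs.hom (h : Signs ℓ ℓ') (hl : ∀ i, (ℓ i).IsHomogeneous 1) (i : Fin c) :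
    (ℓ' i).IsHomogeneous 1 := by
  rcases h i with h1 | h1
  · rw [h1]
    exact hl i
  · rw [h1]
    exact (hl i).neg

theorem Signs.sq (h : Signs ℓ ℓ') (y : Fin (N + 1) → L) (i : Fin c) :
    aeval y (ℓ' i) ^ 2 = aeval y (ℓ i) ^ 2 := by
  rcases h i with h1 | h1
  · rw [h1]
  · rw [h1, map_neg, neg_sq]

theorem Signs.refl (ℓ : Fin c → MvPolynomial (Fin (N + 1)) ℂ) : Signs ℓ ℓ := fun _ => Or.inl rfl

end sheet

section good

variable {n N d c : ℕ} {m : Fin (N + 1) → Fin (n + 1) → ℕ}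
  {S : Set (MvPolynomial (Fin (n + 1)) ℂ)} {P ℓ ℓ' : Fin c → MvPolynomial (Fin (N + 1)) ℂ}
  {L : Type} [Field L] [Algebra ℂ L]

theorem GoodC.signs (hg : GoodC n N d c m S P ℓ) (h : Signs ℓ ℓ') : GoodC n N d c m S P ℓ' where
  hn := hg.hn
  hd := hg.hd
  mon := hg.mon
  hN := hg.hN
  hS := hg.hS
  homP := hg.homP
  homL := h.hom hg.homL
  sub := fun L _ _ x hx i => by rw [hg.sub L x hx i, h.sq]
  cone := hg.cone
  special := hg.special
  discs := hg.discs
  curves := hg.curves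

/-- the cone over `v(V(S))` -/
def OnV (m : Fin (N + 1) → Fin (n + 1) → ℕ) (S : Set (MvPolynomial (Fin (n + 1)) ℂ))
    (y : Fin (N + 1) → L) : Prop :=
  ∃ (x : Fin (n + 1) → L) (s : L), x ≠ 0 ∧ s ≠ 0 ∧ (∀ p ∈ S, aeval x p = 0) ∧ y = s • ver m x

theorem OnV.of {y : Fin (N + 1) → ℂ} (h : ∃ x : Fin (n + 1) → ℂ, x ≠ 0 ∧
    (∀ p ∈ S, eval x p = 0) ∧ y = ver m x) : OnV m S y := by
  obtain ⟨x, hx, hxS, rfl⟩ := h
  exact ⟨x, 1, hx, one_ne_zero, hxS, by rw [one_smul]⟩

theorem GoodC.hd1 (hg : GoodC n N d c m S P ℓ) : 1 ≤ d := by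
  have := hg.hd
  omega

theorem GoodC.homS (hg : GoodC n N d c m S P ℓ) : ∀ p ∈ S, IsForm p := by
  intro p hp
  obtain ⟨e, -, he⟩ := hg.hS p hp
  exact ⟨e, he⟩

theorem OnV.ne (hg : GoodC n N d c m S P ℓ) {y : Fin (N + 1) → L} (h : OnV m S y) : y ≠ 0 := by
  obtain ⟨x, s, hx, hs, -, rfl⟩ := h
  exact smul_ne_zero hs (Pool.Agent.N254.SQ.ver_ne_zero hg.mon hg.hd1 hx)

theorem GoodC.eqP (hg : GoodC n N d c m S P ℓ) {y : Fin (N + 1) → L} (h : OnV m S y) (i : Fin c) :
    aeval y (P i) = aeval y (ℓ i) ^ 2 := by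
  obtain ⟨x, s, hx, hs, hxS, rfl⟩ := h
  rw [aeval_scale (hg.homP i), aeval_scale (hg.homL i), hg.sub L x hxS i]
  ring

/-- the points of the sheet are in `Y` -/
theorem GoodC.el_mem (hg : GoodC n N d c m S P ℓ) {y : Fin (N + 1) → L} (h : OnV m S y)
    (i : Fin c) : aeval (el ℓ y) (coverForm P i) = 0 := by
  rw [aeval_cover, el_x, el_hI, hg.eqP h, sub_self]

/-- the points of `Y` over `v(V(S))` are on the sheets -/
theorem GoodC.exists_signs (hg : GoodC n N d c m S P ℓ) {y : Fin (N + c + 1) → L}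
    (hy : ∀ i, aeval y (coverForm P i) = 0) (h : OnV m S (y ∘ hI N c)) :
    ∃ ℓ', Signs ℓ ℓ' ∧ y = el ℓ' (y ∘ hI N c) := by
  have h1 : ∀ i, ∃ l', (l' = ℓ i ∨ l' = - ℓ i) ∧ y (xI N c i) = aeval (y ∘ hI N c) l' := by
    intro i
    have h2 := hy i
    rw [aeval_cover, hg.eqP h, sub_eq_zero, sq_eq_sq_iff_eq_or_eq_neg] at h2
    rcases h2 with h3 | h3
    · exact ⟨ℓ i, Or.inl rfl, h3⟩
    · exact ⟨- ℓ i, Or.inr rfl, by rw [h3, map_neg]⟩
  choose ℓ' h2 h3 using h1
  refine ⟨ℓ', h2, ?_⟩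
  funext l
  rcases idx_cases l with ⟨j, rfl⟩ | ⟨i, rfl⟩
  · rw [el_h]
    rfl
  · rw [el_x, h3]

/-- the ratios of the coordinates -/
theorem coords_el (hl : ∀ i, (ℓ i).IsHomogeneous 1) {y : Fin (N + 1) → L} (hy : y ≠ 0) :
    coords ℂ (el ℓ y) = coords ℂ y := by
  obtain ⟨a, ha⟩ : ∃ a, y a ≠ 0 := by
    by_contra hcon
    push Not at hcon
    exact hy (funext hcon)
  apply le_antisymm
  · have h1 : ∀ l, el ℓ y l / y a ∈ coords ℂ y := by
      intro l
      rcases idx_cases l with ⟨j, rfl⟩ | ⟨i, rfl⟩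
      · rw [el_h]
        exact IntermediateField.subset_adjoin ℂ _ ⟨j, a, ha, rfl⟩
      · rw [el_x]
        have h2 : aeval y (ℓ i) / y a = aeval (fun j => y j / y a) (ℓ i) := by
          have h3 := aeval_scale (hl i) (y a) (fun j => y j / y a)
          have h4 : y a • (fun j => y j / y a) = y := by
            funext j
            rw [Pi.smul_apply, smul_eq_mul, mul_div_cancel₀ _ ha]
          rw [h4, pow_one] at h3
          rw [h3, mul_div_cancel_left₀ _ ha]
        rw [h2]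
        have h5 : (aeval fun j => y j / y a) (ℓ i) ∈ (coords ℂ y).toSubalgebra := by
          have h6 : ∀ p : MvPolynomial (Fin (N + 1)) ℂ,
              (aeval fun j => y j / y a) p ∈ (coords ℂ y).toSubalgebra := by
            intro p
            induction p using MvPolynomial.induction_on with
            | C r =>
              rw [aeval_C]
              exact Subalgebra.algebraMap_mem _ r
            | add p q hp hq =>
              rw [map_add]
              exact add_mem hp hq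
            | mul_X p j hp =>
              rw [map_mul, aeval_X]
              exact mul_mem hp (IntermediateField.subset_adjoin ℂ _ ⟨j, a, ha, rfl⟩)
          exact h6 _
        exact h5
    apply IntermediateField.adjoin_le_iff.2
    rintro _ ⟨i, j, hj, rfl⟩
    have h4 : el ℓ y i / el ℓ y j = (el ℓ y i / y a) / (el ℓ y j / y a) := by
      rw [div_div_div_cancel_right₀ ha]
    rw [h4]
    exact div_mem (h1 i) (h1 j)
  · apply IntermediateField.adjoin_le_iff.2
    rintro _ ⟨i, j, hj, rfl⟩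
    exact IntermediateField.subset_adjoin ℂ _ ⟨hI N c i, hI N c j, by rw [el_h]; exact hj, by
      rw [el_h, el_h]⟩

/-! ### values at places -/

theorem ge_of_sq {Pl : Place ℂ L} {k : ℤ} {x : L} (h : Ge Pl (2 * k - 1) (x ^ 2)) :
    Ge Pl k x := by
  rcases h with h | h
  · exact Or.inl (eq_zero_of_pow_eq_zero h)
  · right
    rw [Pl.ord_pow] at h
    push_cast at h
    omega

theorem ge_form {M e : ℕ} {Pl : Place ℂ L} {F : MvPolynomial (Fin (M + 1)) ℂ} (he : 1 ≤ e)
    (hF : F.IsHomogeneous e) {f : Fin (M + 1) → L} (h : ∀ j, Ge Pl 1 (f j)) :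
    Ge Pl 1 (aeval f F) := by
  have h1 := Pool.Agent.W603.LV.red_mvaeval Pl (f := f) (fun j => (h j).mono zero_le_one)
    (c := 0) (fun j => by
      rw [Pi.zero_apply, map_zero, sub_zero]
      exact h j) F
  have h2 : eval (0 : Fin (M + 1) → ℂ) F = 0 := by
    have h3 := eval_scale hF 0 0
    rw [zero_smul, zero_pow (by omega), zero_mul] at h3
    exact h3
  rwa [h2, map_zero, sub_zero] at h1

/-- the value of a point of `Y` is in `V(T'')` if and only if the value of its projection is in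
`V(T')` -/
theorem value_iff (hP : ∀ i, (P i).IsHomogeneous 2) {y : Fin (N + c + 1) → L}
    (hy : ∀ i, aeval y (coverForm P i) = 0) (T : Set (MvPolynomial (Fin (N + 1)) ℂ))
    (Pl : Place ℂ L) :
    ValueNotIn (rename (hI N c) '' T) y Pl ↔ ValueNotIn T (y ∘ hI N c) Pl := by
  have hx : ∀ (s : L) i, (s * y (xI N c i)) ^ 2 = aeval (s • (y ∘ hI N c)) (P i) := by
    intro s i
    have h1 := hy i
    rw [aeval_cover, sub_eq_zero] at h1
    rw [aeval_scale (hP i), mul_pow, h1]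
  have hT : ∀ (s : L) (H : MvPolynomial (Fin (N + 1)) ℂ),
      aeval (s • y) (rename (hI N c) H) = aeval (s • (y ∘ hI N c)) H := by
    intro s H
    rw [aeval_rename]
    rfl
  constructor
  · rintro ⟨s, h1, h2, -, ⟨H, hH, rfl⟩, h3, h4⟩
    refine ⟨s, fun j => h1 _, ?_, H, hH, ?_, ?_⟩
    · by_contra hcon
      push Not at hcon
      have h5 : ∀ j, Ge Pl 1 (s * y (hI N c j)) := by
        intro j
        by_cases h0 : s * y (hI N c j) = 0
        · exact Or.inl h0
        · right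
          have h6 := (Pl.reg_iff h0).1 (h1 (hI N c j))
          have h7 : Pl.ord (s * y (hI N c j)) ≠ 0 := hcon j h0
          omega
      obtain ⟨l, hl0, hl⟩ := h2
      rcases idx_cases l with ⟨j, rfl⟩ | ⟨i, rfl⟩
      · exact hcon j hl0 hl
      · have h6 : Ge Pl 1 ((s * y (xI N c i)) ^ 2) := by
          rw [hx]
          exact ge_form (by norm_num) (hP i) h5
        have h7 : Ge Pl 1 (s * y (xI N c i)) := ge_of_sq (by norm_num; exact h6)
        rcases h7 with h8 | h8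
        · exact hl0 h8
        · omega
    · rwa [hT] at h3
    · rwa [hT] at h4
  · rintro ⟨s, h1, ⟨j, h2, h2'⟩, H, hH, h3, h4⟩
    refine ⟨s, fun l => ?_, ⟨hI N c j, h2, h2'⟩, _, ⟨H, hH, rfl⟩, ?_, ?_⟩
    · rcases idx_cases l with ⟨j, rfl⟩ | ⟨i, rfl⟩
      · exact h1 j
      · have h5 : Ge Pl 0 ((s * y (xI N c i)) ^ 2) := by
          rw [hx]
          exact Pool.Agent.W603.LV.ge_mvaeval Pl h1 _
        exact ge_of_sq (h5.mono (by norm_num))
    · rwa [hT]
    · rwa [hT]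

theorem notin_iff {y : Fin (N + c + 1) → L} (T : Set (MvPolynomial (Fin (N + 1)) ℂ)) :
    NotIn (rename (hI N c) '' T) y ↔ NotIn T (y ∘ hI N c) := by
  constructor
  · rintro ⟨-, ⟨H, hH, rfl⟩, h3⟩
    rw [aeval_rename] at h3
    exact ⟨H, hH, h3⟩
  · rintro ⟨H, hH, h3⟩
    exact ⟨_, ⟨H, hH, rfl⟩, by rwa [aeval_rename]⟩

theorem log_iff (hP : ∀ i, (P i).IsHomogeneous 2) {y : Fin (N + c + 1) → L}
    (hy : ∀ i, aeval y (coverForm P i) = 0) (T : Set (MvPolynomial (Fin (N + 1)) ℂ)) (w : ℕ) :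
    LogGeneral (rename (hI N c) '' T) L w y ↔ LogGeneral T L w (y ∘ hI N c) := by
  unfold LogGeneral
  have h1 : (fun Pl : Place ℂ L => ¬ ValueNotIn (rename (hI N c) '' T) y Pl) =
      fun Pl => ¬ ValueNotIn T (y ∘ hI N c) Pl := by
    funext Pl
    exact propext (not_congr (value_iff hP hy T Pl))
  rw [h1]

end good

end Pool.Agent.U207.QC
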