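import Pool.Agent.U207.QC.Tr
import Pool.Agent.N254.SQ.GeoC
import Pool.Agent.N254.SQ.AlgS
import Pool.Agent.N254.SQ.Hblk
import Pool.Agent.N254.SQ.Hform
import Pool.Agent.N254.SQ.Hineq

/-!
Project QC (helper207), part F2: subvarieties and entire curves.
-/

set_option autoImplicit false

namespace Pool.Agent.U207.QC

open MvPolynomial Metric Filter Topology FF
open Pool.Agent.N254.SQ (IsForm Extends Mon ver pull aeval_scale aeval_pull NotIn ValueNotIn
  ValueIn LogGeneral Lifts eval_scale Good GoodAlg OnSpecialQ OnCurvesQ OnDiscsQ)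
open Pool.Agent.W602.GT (SubVar GeneralType coords)

section aux

variable {n N d c : ℕ} {m : Fin (N + 1) → Fin (n + 1) → ℕ}
  {S : Set (MvPolynomial (Fin (n + 1)) ℂ)} {P ℓ ℓ' : Fin c → MvPolynomial (Fin (N + 1)) ℂ}
  {A : MvPolynomial (Fin (N + 1)) ℂ}

theorem exists_aux (hg : GoodC n N d c m S P ℓ) : ∃ A, Good n N d m S A ∧ GoodAlg n N m S A := by
  obtain ⟨D₁, H⟩ := Pool.Agent.N254.SQ.t_geoc (Pool.Agent.N254.SQ.t_alg
    (Pool.Agent.N254.SQ.t_hblk Pool.Agent.N254.SQ.t_hineq) Pool.Agent.N254.SQ.t_hform)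
  obtain ⟨Q, -, -, hA, hA2⟩ := H n d hg.hn hg.hd N m hg.mon hg.hN (D₁ N) le_rfl S hg.hS
  exact ⟨_, hA, hA2⟩

theorem aux_van {L : Type} [Field L] [Algebra ℂ L] (hA : Good n N d m S A) {y : Fin (N + 1) → L}
    (h : OnV m S y) : aeval y A = 0 := by
  obtain ⟨x, s, hx, hs, hxS, rfl⟩ := h
  rw [Pool.Agent.N254.SQ.aeval_zero_of hA.homA hs]
  exact hA.sub L x hxS

theorem cover_sub {L : Type} [Field L] [Algebra ℂ L] {w : ℕ} {y : Fin (N + c + 1) → L}
    (hy : SubVar (fun p : coverEqs P => (p : MvPolynomial (Fin (N + c + 1)) ℂ)) L w y) (i : Fin c) :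
    aeval y (coverForm P i) = 0 := hy.mem ⟨_, ⟨i, rfl⟩⟩

/-- a subvariety over `v(V(S))` gives a subvariety of the sheet -/
theorem sub_el (hg : GoodC n N d c m S P ℓ) {L : Type} [Field L] [Algebra ℂ L] {w : ℕ}
    {y : Fin (N + 1) → L} (hyV : OnV m S y) (hgen : coords ℂ y = ⊤)
    (hdim : Algebra.trdeg ℂ L = w) :
    SubVar (fun p : coverEqs P => (p : MvPolynomial (Fin (N + c + 1)) ℂ)) L w (el ℓ y) := by
  refine ⟨el_ne (hyV.ne hg), ?_, ?_, hdim⟩
  · rintro ⟨_, i, rfl⟩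
    exact hg.el_mem hyV i
  · rw [coords_el hg.homL (hyV.ne hg), hgen]

theorem special_down (hg : GoodC n N d c m S P ℓ) (hA : Good n N d m S A)
    {T : Set (MvPolynomial (Fin (N + 1)) ℂ)} {G : MvPolynomial (Fin (N + c + 1)) ℂ}
    (h : OnSpecialQ (coverEqs P) (rename (hI N c) '' T) G) : OnSpecialQ {A} T (sbl ℓ G) := by
  intro L _ _ w y hw hy hT
  rcases hA.special L w y hw hy with h1 | ⟨x, s, hx, hs, hxS, hyx⟩
  · exact Or.inl (Pool.Agent.N254.SQ.t_cent.general N T L w y h1)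
  · have hyV : OnV m S y := ⟨x, s, hx, hs, hxS, hyx⟩
    rcases h L w (el ℓ y) hw (sub_el hg hyV hy.gen hy.dim) ((notin_iff T).2 (by
      rw [el_hI]
      exact hT)) with h1 | h1
    · left
      rw [log_iff hg.homP (hg.el_mem hyV), el_hI] at h1
      exact h1
    · right
      rw [aeval_sbl]
      exact h1

theorem special_up (hg : GoodC n N d c m S P ℓ) (hA : Good n N d m S A)
    {T : Set (MvPolynomial (Fin (N + 1)) ℂ)} {G : MvPolynomial (Fin (N + c + 1)) ℂ}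
    (h : ∀ ℓ', Signs ℓ ℓ' → OnSpecialQ {A} T (sbl ℓ' G)) :
    OnSpecialQ (coverEqs P) (rename (hI N c) '' T) G := by
  intro L _ _ w y hw hy hT
  have hyP : ∀ i, aeval y (coverForm P i) = 0 := cover_sub hy
  rcases hg.special L w y hw hy with h1 | h1
  · exact Or.inl (Pool.Agent.N254.SQ.t_cent.general _ _ L w y h1)
  · obtain ⟨ℓ', hs, hyl⟩ := hg.exists_signs hyP h1
    have hyV : OnV m S (y ∘ hI N c) := h1
    rw [notin_iff] at hT
    have hgen : coords ℂ (y ∘ hI N c) = ⊤ := by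
      rw [← coords_el (hs.hom hg.homL) (hyV.ne hg), ← hyl]
      exact hy.gen
    rcases h ℓ' hs L w (y ∘ hI N c) hw ⟨hyV.ne hg, fun p => by
        obtain ⟨p, hp⟩ := p
        rw [Set.mem_singleton_iff] at hp
        subst hp
        exact aux_van hA hyV, hgen, hy.dim⟩ hT with h2 | h2
    · left
      rw [log_iff hg.homP hyP]
      exact h2
    · right
      rw [aeval_sbl, ← hyl] at h2
      exact h2

/-! ### entire curves -/

theorem diff_el {ℓ : Fin c → MvPolynomial (Fin (N + 1)) ℂ} {f : ℂ → Fin (N + 1) → ℂ}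
    {U : Set ℂ} (hf : DifferentiableOn ℂ f U) : DifferentiableOn ℂ (fun z => el ℓ (f z)) U := by
  rw [differentiableOn_pi]
  intro l
  rcases idx_cases l with ⟨j, rfl⟩ | ⟨i, rfl⟩
  · simp only [el_h]
    exact differentiableOn_pi.1 hf j
  · simp only [el_x]
    exact Pool.Agent.N254.SQ.diff_evalOn (ℓ i) hf

theorem diff_h {f : ℂ → Fin (N + c + 1) → ℂ} {U : Set ℂ} (hf : DifferentiableOn ℂ f U) :
    DifferentiableOn ℂ (fun z => f z ∘ hI N c) U := by
  rw [differentiableOn_pi]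
  intro j
  exact differentiableOn_pi.1 hf (hI N c j)

/-- the signs are constant -/
theorem signs_on {U : Set ℂ} (hU : IsOpen U) (hc : IsPreconnected U)
    {f : ℂ → Fin (N + c + 1) → ℂ} (hf : DifferentiableOn ℂ f U)
    (h : ∀ z ∈ U, ∀ i, f z (xI N c i) ^ 2 = eval (f z ∘ hI N c) (ℓ i) ^ 2) :
    ∃ ℓ', Signs ℓ ℓ' ∧ ∀ z ∈ U, f z = el ℓ' (f z ∘ hI N c) := by
  have h1 : ∀ i, ∃ l', (l' = ℓ i ∨ l' = - ℓ i) ∧
      ∀ z ∈ U, f z (xI N c i) = eval (f z ∘ hI N c) l' := by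
    intro i
    have ha : AnalyticOnNhd ℂ (fun z => f z (xI N c i) - eval (f z ∘ hI N c) (ℓ i)) U :=
      ((differentiableOn_pi.1 hf _).sub
        (Pool.Agent.N254.SQ.diff_evalOn (ℓ i) (diff_h hf))).analyticOnNhd hU
    have hb : AnalyticOnNhd ℂ (fun z => f z (xI N c i) + eval (f z ∘ hI N c) (ℓ i)) U :=
      ((differentiableOn_pi.1 hf _).add
        (Pool.Agent.N254.SQ.diff_evalOn (ℓ i) (diff_h hf))).analyticOnNhd hU
    rcases ha.eq_zero_or_eq_zero_of_mul_eq_zero hb (fun z hz => by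
        have := h z hz i
        linear_combination this) hc with h2 | h2
    · exact ⟨ℓ i, Or.inl rfl, fun z hz => sub_eq_zero.1 (h2 z hz)⟩
    · refine ⟨- ℓ i, Or.inr rfl, fun z hz => ?_⟩
      rw [map_neg]
      exact eq_neg_of_add_eq_zero_left (h2 z hz)
  choose ℓ' h2 h3 using h1
  refine ⟨ℓ', h2, fun z hz => ?_⟩
  funext l
  rcases idx_cases l with ⟨j, rfl⟩ | ⟨i, rfl⟩
  · rw [el_h]
    rfl
  · rw [el_x]
    exact h3 i z hz

theorem GoodC.sq_of (hg : GoodC n N d c m S P ℓ) {y : Fin (N + c + 1) → ℂ}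
    (hy : ∀ i, eval y (coverForm P i) = 0) (h : OnV m S (y ∘ hI N c)) (i : Fin c) :
    y (xI N c i) ^ 2 = eval (y ∘ hI N c) (ℓ i) ^ 2 := by
  have h1 := hy i
  rw [eval_cover, sub_eq_zero] at h1
  rw [h1]
  exact hg.eqP h i

theorem curves_down (hg : GoodC n N d c m S P ℓ) (hA : Good n N d m S A)
    {T : Set (MvPolynomial (Fin (N + 1)) ℂ)} {G : MvPolynomial (Fin (N + c + 1)) ℂ}
    (h : OnCurvesQ (coverEqs P) (rename (hI N c) '' T) G) : OnCurvesQ {A} T (sbl ℓ G) := by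
  intro f hf hf0 hfA hfT
  rcases hA.curves f hf hf0 (fun z => hfA z A rfl) with h1 | h1
  · exact Or.inl h1
  have hV : ∀ z, OnV m S (f z) := fun z => OnV.of (h1 z)
  rcases h (fun z => el ℓ (f z)) (by
      rw [← differentiableOn_univ]
      exact diff_el hf.differentiableOn) (fun z => el_ne (hf0 z)) (by
      rintro z _ ⟨i, rfl⟩
      exact hg.el_mem (hV z) i) (by
      intro z
      obtain ⟨H, hH, hH0⟩ := hfT z
      refine ⟨_, ⟨H, hH, rfl⟩, ?_⟩
      rw [eval_rename, el_hI]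
      exact hH0) with h2 | h2
  · left
    intro z w
    obtain ⟨s, hs⟩ := h2 z w
    refine ⟨s, ?_⟩
    have h3 := congrArg (fun v => v ∘ hI N c) hs
    simp only [el_hI] at h3
    rw [h3]
    funext j
    change s * el ℓ (f z) (hI N c j) = s * f z j
    rw [el_h]
  · right
    intro z
    have h3 := h2 z
    exact (aeval_sbl (L := ℂ) (ℓ := ℓ) (f z) G).trans h3

theorem curves_up (hg : GoodC n N d c m S P ℓ) (hA : Good n N d m S A)
    {T : Set (MvPolynomial (Fin (N + 1)) ℂ)} {G : MvPolynomial (Fin (N + c + 1)) ℂ}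
    (h : ∀ ℓ', Signs ℓ ℓ' → OnCurvesQ {A} T (sbl ℓ' G)) :
    OnCurvesQ (coverEqs P) (rename (hI N c) '' T) G := by
  intro f hf hf0 hfP hfT
  have hfP' : ∀ z i, eval (f z) (coverForm P i) = 0 := fun z i => hfP z _ ⟨i, rfl⟩
  rcases hg.curves f hf hf0 hfP' with h1 | h1
  · exact Or.inl h1
  have hV : ∀ z, OnV m S (f z ∘ hI N c) := fun z => OnV.of (h1 z)
  obtain ⟨ℓ', hs, hl⟩ := signs_on isOpen_univ isPreconnected_univ hf.differentiableOn
    (fun z _ i => hg.sq_of (hfP' z) (hV z) i)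
  have hl' : ∀ z, f z = el ℓ' (f z ∘ hI N c) := fun z => hl z (Set.mem_univ z)
  rcases h ℓ' hs (fun z => f z ∘ hI N c) (by
      rw [← differentiableOn_univ]
      exact diff_h hf.differentiableOn) (fun z => (hV z).ne hg) (by
      intro z p hp
      rw [Set.mem_singleton_iff] at hp
      subst hp
      exact aux_van hA (hV z)) (by
      intro z
      obtain ⟨_, ⟨H, hH, rfl⟩, hH0⟩ := hfT z
      rw [eval_rename] at hH0
      exact ⟨H, hH, hH0⟩) with h2 | h2
  · left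
    intro z w
    obtain ⟨s, hs'⟩ := h2 z w
    refine ⟨s, ?_⟩
    rw [hl' w, hs', el_smul (hs.hom hg.homL), ← hl' z]
  · right
    intro z
    have h3 : eval (f z ∘ hI N c) (sbl ℓ' G) = 0 := h2 z
    have h4 := (aeval_sbl (L := ℂ) (ℓ := ℓ') (f z ∘ hI N c) G).symm.trans h3
    rw [← hl' z] at h4
    exact h4

end aux

end Pool.Agent.U207.QC
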